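import Pool.Agent.CSG.St

/-!
# CSG: the number of sets without antipodal pairs
-/

set_option autoImplicit false

open Finset Real Pool.CS4

namespace Pool.CSG

private theorem AFc_two (m : ℕ) : ((m : ℕ) : ZMod (2 * m)) + (m : ZMod (2 * m)) = 0 := by
  rw [← Nat.cast_add, ← two_mul]
  exact ZMod.natCast_self (2 * m)

private theorem AFc_inj {m : ℕ} {s t : ℕ} (hs : s < 2 * m) (ht : t < 2 * m)
    (h : ((s : ℕ) : ZMod (2 * m)) = ((t : ℕ) : ZMod (2 * m))) : s = t := by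
  rw [ZMod.natCast_eq_natCast_iff'] at h
  rwa [Nat.mod_eq_of_lt hs, Nat.mod_eq_of_lt ht] at h

private theorem AFc_ne {m : ℕ} {s t : ℕ} (hs : s < m) (ht : t < m) :
    ((s : ℕ) : ZMod (2 * m)) ≠ ((t : ℕ) : ZMod (2 * m)) + (m : ZMod (2 * m)) := by
  intro h
  rw [← Nat.cast_add] at h
  have := AFc_inj (by omega) (by omega) h
  omega

private theorem AFc_ex {m : ℕ} [NeZero m] (x : ZMod (2 * m)) :
    ∃ s < m, x = ((s : ℕ) : ZMod (2 * m)) ∨ x = ((s : ℕ) : ZMod (2 * m)) + (m : ZMod (2 * m)) := by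
  have hx : x.val < 2 * m := ZMod.val_lt x
  rcases lt_or_ge x.val m with h | h
  · exact ⟨x.val, h, Or.inl (ZMod.natCast_zmod_val x).symm⟩
  · refine ⟨x.val - m, by omega, Or.inr ?_⟩
    rw [← Nat.cast_add, Nat.sub_add_cancel h, ZMod.natCast_zmod_val]

/-- the set of a pair -/
private def AFc_g (m : ℕ) (p : Σ _ : Finset ℕ, Finset ℕ) : Finset (ZMod (2 * m)) :=
  p.2.image (fun s : ℕ => ((s : ℕ) : ZMod (2 * m))) ∪
    (p.1 \ p.2).image (fun s : ℕ => ((s : ℕ) : ZMod (2 * m)) + (m : ZMod (2 * m)))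

open Classical in
/-- the pair of a set -/
private noncomputable def AFc_f (m : ℕ) (N : Finset (ZMod (2 * m))) : Σ _ : Finset ℕ, Finset ℕ :=
  ⟨(range m).filter fun s : ℕ => ((s : ℕ) : ZMod (2 * m)) ∈ N ∨
      ((s : ℕ) : ZMod (2 * m)) + (m : ZMod (2 * m)) ∈ N,
    (range m).filter fun s : ℕ => ((s : ℕ) : ZMod (2 * m)) ∈ N⟩

private theorem AFc_mem1 {m : ℕ} {p : Σ _ : Finset ℕ, Finset ℕ} (h1 : p.1 ⊆ range m)
    (h2 : p.2 ⊆ p.1) {s : ℕ} (hs : s < m) :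
    ((s : ℕ) : ZMod (2 * m)) ∈ AFc_g m p ↔ s ∈ p.2 := by
  unfold AFc_g
  rw [mem_union, mem_image, mem_image]
  constructor
  · rintro (⟨t, ht, h⟩ | ⟨t, ht, h⟩)
    · have ht' := mem_range.1 (h1 (h2 ht))
      have := AFc_inj (by omega) (by omega) h
      rwa [← this]
    · rw [mem_sdiff] at ht
      have ht' := mem_range.1 (h1 ht.1)
      exact absurd h.symm (AFc_ne hs ht')
  · exact fun h => Or.inl ⟨s, h, rfl⟩

private theorem AFc_mem2 {m : ℕ} {p : Σ _ : Finset ℕ, Finset ℕ} (h1 : p.1 ⊆ range m)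
    (h2 : p.2 ⊆ p.1) {s : ℕ} (hs : s < m) :
    ((s : ℕ) : ZMod (2 * m)) + (m : ZMod (2 * m)) ∈ AFc_g m p ↔ s ∈ p.1 ∧ s ∉ p.2 := by
  unfold AFc_g
  rw [mem_union, mem_image, mem_image]
  constructor
  · rintro (⟨t, ht, h⟩ | ⟨t, ht, h⟩)
    · have ht' := mem_range.1 (h1 (h2 ht))
      exact absurd h (AFc_ne ht' hs)
    · have ht2 := mem_sdiff.1 ht
      have ht' := mem_range.1 (h1 ht2.1)
      have := AFc_inj (by omega) (by omega) (add_right_cancel h)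
      rw [← this]
      exact ht2
  · exact fun h => Or.inr ⟨s, mem_sdiff.2 h, rfl⟩

private theorem AFc_gf {m : ℕ} [NeZero m] {N : Finset (ZMod (2 * m))} (hN : AF m N) :
    AFc_g m (AFc_f m N) = N := by
  have h1 : (AFc_f m N).1 ⊆ range m := filter_subset _ _
  have h2 : (AFc_f m N).2 ⊆ (AFc_f m N).1 := by
    intro s hs
    unfold AFc_f at hs ⊢
    rw [mem_filter] at hs ⊢
    exact ⟨hs.1, Or.inl hs.2⟩
  ext x
  obtain ⟨s, hs, rfl | rfl⟩ := AFc_ex x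
  · rw [AFc_mem1 h1 h2 hs]
    unfold AFc_f
    rw [mem_filter, mem_range]
    exact ⟨fun h => h.2, fun h => ⟨hs, h⟩⟩
  · rw [AFc_mem2 h1 h2 hs]
    unfold AFc_f
    rw [mem_filter, mem_filter, mem_range]
    constructor
    · rintro ⟨⟨_, h | h⟩, h3⟩
      · exact absurd ⟨hs, h⟩ h3
      · exact h
    · intro h
      refine ⟨⟨hs, Or.inr h⟩, fun h3 => hN _ h3.2 h⟩

private theorem AFc_fg {m : ℕ} {p : Σ _ : Finset ℕ, Finset ℕ} (h1 : p.1 ⊆ range m)
    (h2 : p.2 ⊆ p.1) : AFc_f m (AFc_g m p) = p := by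
  obtain ⟨S, A⟩ := p
  have e1 : (AFc_f m (AFc_g m ⟨S, A⟩)).1 = S := by
    unfold AFc_f
    ext s
    rw [mem_filter, mem_range]
    constructor
    · rintro ⟨hs, h | h⟩
      · exact h2 ((AFc_mem1 h1 h2 hs).1 h)
      · exact ((AFc_mem2 h1 h2 hs).1 h).1
    · intro h
      have hs := mem_range.1 (h1 h)
      refine ⟨hs, ?_⟩
      by_cases hA : s ∈ A
      · exact Or.inl ((AFc_mem1 h1 h2 hs).2 hA)
      · exact Or.inr ((AFc_mem2 h1 h2 hs).2 ⟨h, hA⟩)
  have e2 : (AFc_f m (AFc_g m ⟨S, A⟩)).2 = A := by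
    unfold AFc_f
    ext s
    rw [mem_filter, mem_range]
    constructor
    · rintro ⟨hs, h⟩
      exact (AFc_mem1 h1 h2 hs).1 h
    · intro h
      have hs := mem_range.1 (h1 (h2 h))
      exact ⟨hs, (AFc_mem1 h1 h2 hs).2 h⟩
  have e3 : AFc_f m (AFc_g m ⟨S, A⟩) =
      ⟨(AFc_f m (AFc_g m ⟨S, A⟩)).1, (AFc_f m (AFc_g m ⟨S, A⟩)).2⟩ := rfl
  rw [e3, e1, e2]

private theorem AFc_card {m : ℕ} {p : Σ _ : Finset ℕ, Finset ℕ} (h1 : p.1 ⊆ range m)
    (h2 : p.2 ⊆ p.1) : (AFc_g m p).card = p.1.card := by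
  unfold AFc_g
  rw [card_union_of_disjoint, card_image_of_injOn, card_image_of_injOn, card_sdiff_of_subset h2]
  · have := card_le_card h2
    omega
  · intro s hs t ht h
    have hs' := mem_range.1 (h1 (mem_sdiff.1 (mem_coe.1 hs)).1)
    have ht' := mem_range.1 (h1 (mem_sdiff.1 (mem_coe.1 ht)).1)
    exact AFc_inj (by omega) (by omega) (add_right_cancel h)
  · intro s hs t ht h
    have hs' := mem_range.1 (h1 (h2 (mem_coe.1 hs)))
    have ht' := mem_range.1 (h1 (h2 (mem_coe.1 ht)))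
    exact AFc_inj (by omega) (by omega) h
  · rw [disjoint_left]
    intro x hx hx'
    obtain ⟨s, hs, rfl⟩ := mem_image.1 hx
    obtain ⟨t, ht, h⟩ := mem_image.1 hx'
    exact AFc_ne (mem_range.1 (h1 (h2 hs))) (mem_range.1 (h1 (mem_sdiff.1 ht).1)) h.symm

private theorem AFc_AF {m : ℕ} [NeZero m] {p : Σ _ : Finset ℕ, Finset ℕ} (h1 : p.1 ⊆ range m)
    (h2 : p.2 ⊆ p.1) : AF m (AFc_g m p) := by
  intro x hx hx'
  obtain ⟨s, hs, rfl | rfl⟩ := AFc_ex x
  · exact ((AFc_mem2 h1 h2 hs).1 hx').2 ((AFc_mem1 h1 h2 hs).1 hx)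
  · rw [add_assoc, AFc_two, add_zero] at hx'
    exact ((AFc_mem2 h1 h2 hs).1 hx).2 ((AFc_mem1 h1 h2 hs).1 hx')

theorem thm_AFc : St_AFc := by
  classical
  intro m _ k
  have key : ((powersetCard k (range m)).sigma fun S => S.powerset).card = 2 ^ k * m.choose k := by
    rw [card_sigma]
    have h : ∀ S ∈ powersetCard k (range m), S.powerset.card = 2 ^ k := by
      intro S hS
      rw [card_powerset, (mem_powersetCard.1 hS).2]
    rw [sum_congr rfl h, sum_const, card_powersetCard, card_range, smul_eq_mul, mul_comm]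
  rw [← key]
  refine card_bij' (fun N _ => AFc_f m N) (fun p _ => AFc_g m p) ?_ ?_ ?_ ?_
  · intro N hN
    rw [mem_filter] at hN
    have h1 : (AFc_f m N).1 ⊆ range m := filter_subset _ _
    have h2 : (AFc_f m N).2 ⊆ (AFc_f m N).1 := by
      intro s hs
      unfold AFc_f at hs ⊢
      rw [mem_filter] at hs ⊢
      exact ⟨hs.1, Or.inl hs.2⟩
    rw [mem_sigma, mem_powersetCard, mem_powerset]
    refine ⟨⟨h1, ?_⟩, h2⟩
    rw [← AFc_card h1 h2, AFc_gf hN.2.1]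
    exact hN.2.2
  · intro p hp
    rw [mem_sigma, mem_powersetCard, mem_powerset] at hp
    rw [mem_filter]
    exact ⟨mem_univ _, AFc_AF hp.1.1 hp.2, by rw [AFc_card hp.1.1 hp.2]; exact hp.1.2⟩
  · intro N hN
    rw [mem_filter] at hN
    exact AFc_gf hN.2.1
  · intro p hp
    rw [mem_sigma, mem_powersetCard, mem_powerset] at hp
    exact AFc_fg hp.1.1 hp.2

end Pool.CSG
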