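import Pool.Agent.CSG.St

/-!
# CSG: binomial identities
-/

set_option autoImplicit false

open Finset Real Pool.CS4

noncomputable section

namespace Pool.CSG

namespace BinAux

/-- the alternating sum -/
def A (n p q : ℕ) : ℤ :=
  ∑ k ∈ range (q + 1), (-1 : ℤ) ^ (q - k) * ((p - k).choose (q - k) : ℤ) * (n.choose k : ℤ)

theorem A_step (n p q : ℕ) : A (n + 1) (p + 1) (q + 1) = A n (p + 1) (q + 1) + A n p q := by
  unfold A
  rw [sum_range_succ', sum_range_succ' (n := q + 1)]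
  have h : ∀ k ∈ range (q + 1),
      (-1 : ℤ) ^ (q + 1 - (k + 1)) * ((p + 1 - (k + 1)).choose (q + 1 - (k + 1)) : ℤ) *
        ((n + 1).choose (k + 1) : ℤ) =
      (-1 : ℤ) ^ (q + 1 - (k + 1)) * ((p + 1 - (k + 1)).choose (q + 1 - (k + 1)) : ℤ) *
        (n.choose (k + 1) : ℤ) +
      (-1 : ℤ) ^ (q - k) * ((p - k).choose (q - k) : ℤ) * (n.choose k : ℤ) := by
    intro k _
    have e1 : q + 1 - (k + 1) = q - k := by omega
    have e2 : p + 1 - (k + 1) = p - k := by omega
    rw [e1, e2, Nat.choose_succ_succ]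
    push_cast
    ring
  rw [sum_congr rfl h, sum_add_distrib]
  simp only [Nat.choose_zero_right]
  ring

theorem A_zero (n p : ℕ) : A n p 0 = 1 := by
  unfold A
  simp

theorem A_base (p q : ℕ) (h : q ≤ p) : A p p q = if q = 0 then 1 else 0 := by
  have h1 : ∀ k ∈ range (q + 1),
      (-1 : ℤ) ^ (q - k) * ((p - k).choose (q - k) : ℤ) * (p.choose k : ℤ) =
      (-1 : ℤ) ^ q * (p.choose q : ℤ) * ((-1 : ℤ) ^ k * (q.choose k : ℤ)) := by
    intro k hk
    have hk' : k ≤ q := by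
      have := mem_range.1 hk
      omega
    have e : p.choose q * q.choose k = p.choose k * (p - k).choose (q - k) :=
      Nat.choose_mul hk'
    have e' : (p.choose q : ℤ) * (q.choose k : ℤ) = (p.choose k : ℤ) * ((p - k).choose (q - k) : ℤ) := by
      exact_mod_cast e
    have e2 : (-1 : ℤ) ^ (q - k) = (-1 : ℤ) ^ q * (-1 : ℤ) ^ k := by
      obtain ⟨c, rfl⟩ := Nat.exists_eq_add_of_le hk'
      rw [Nat.add_sub_cancel_left, pow_add]
      have : (-1 : ℤ) ^ k * (-1 : ℤ) ^ k = 1 := by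
        rw [← mul_pow]
        simp
      calc (-1 : ℤ) ^ c = ((-1 : ℤ) ^ k * (-1 : ℤ) ^ k) * (-1 : ℤ) ^ c := by rw [this, one_mul]
        _ = _ := by ring
    rw [e2]
    calc (-1 : ℤ) ^ q * (-1 : ℤ) ^ k * ((p - k).choose (q - k) : ℤ) * (p.choose k : ℤ)
        = (-1 : ℤ) ^ q * (-1 : ℤ) ^ k * ((p.choose k : ℤ) * ((p - k).choose (q - k) : ℤ)) := by ring
      _ = _ := by rw [← e']; ring
  unfold A
  rw [sum_congr rfl h1, ← mul_sum, Int.alternating_sum_range_choose]
  split_ifs with h0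
  · subst h0
    simp
  · simp

theorem A_one (q : ℕ) : ∀ p, q ≤ p → A (p + 1) p q = 1 := by
  induction q with
  | zero => exact fun p _ => A_zero _ _
  | succ q ih =>
    intro p hp
    obtain ⟨p, rfl⟩ : ∃ p', p = p' + 1 := ⟨p - 1, by omega⟩
    rw [A_step, ih p (by omega), A_base _ _ hp]
    simp

theorem A_two (q : ℕ) : ∀ p, q ≤ p → A (p + 2) p q = q + 1 := by
  induction q with
  | zero =>
    intro p _
    rw [A_zero]
    simp
  | succ q ih =>
    intro p hp
    obtain ⟨p, rfl⟩ : ∃ p', p = p' + 1 := ⟨p - 1, by omega⟩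
    have h1 : A (p + 1 + 2) (p + 1) (q + 1) = A (p + 1 + 1) (p + 1) (q + 1) + A (p + 2) p q :=
      A_step (p + 2) p q
    rw [h1, A_one _ _ hp, ih p (by omega)]
    push_cast
    ring

/-- one summand -/
theorem B (d x i : ℕ) (hi : i ≤ d) :
    ∑ j ∈ range (i + 1), (-1 : ℤ) ^ (i - j) * ((d - j).choose (i - j) : ℤ) *
      (if x ≤ j then ((d + 2 - x).choose (j - x) : ℤ) else 0) = ((i + 1 - x : ℕ) : ℤ) := by
  rcases Nat.lt_or_ge i x with h | h
  · have e : i + 1 - x = 0 := by omega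
    rw [e, sum_eq_zero]
    · simp
    · intro j hj
      have := mem_range.1 hj
      rw [if_neg (by omega), mul_zero]
  · obtain ⟨q, rfl⟩ := Nat.exists_eq_add_of_le h
    have e : x + q + 1 = x + (q + 1) := by omega
    rw [e, sum_range_add, sum_eq_zero, zero_add]
    · obtain ⟨p, rfl⟩ : ∃ p, d = x + p := ⟨d - x, by omega⟩
      have h2 := A_two q p (by omega)
      have e2 : x + (q + 1) - x = q + 1 := by omega
      rw [e2]
      push_cast
      rw [← h2]
      unfold A
      refine sum_congr rfl fun k hk => ?_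
      have e3 : x + q - (x + k) = q - k := by omega
      have e4 : x + p - (x + k) = p - k := by omega
      have e5 : x + p + 2 - x = p + 2 := by omega
      have e6 : x + k - x = k := by omega
      rw [if_pos (by omega), e3, e4, e5, e6]
    · intro j hj
      have := mem_range.1 hj
      rw [if_neg (by omega), mul_zero]

theorem two_pow (d l j : ℕ) (hj : j ≤ l) (hl : l ≤ d) :
    (2 : ℤ) ^ j * ((d + 2).choose j : ℤ) =
      ∑ x ∈ range (l + 1), ((d + 2).choose x : ℤ) *
        (if x ≤ j then ((d + 2 - x).choose (j - x) : ℤ) else 0) := by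
  obtain ⟨c, rfl⟩ := Nat.exists_eq_add_of_le hj
  have e : j + c + 1 = (j + 1) + c := by omega
  rw [e, sum_range_add]
  have h0 : ∑ x ∈ range c, ((d + 2).choose (j + 1 + x) : ℤ) *
      (if j + 1 + x ≤ j then ((d + 2 - (j + 1 + x)).choose (j - (j + 1 + x)) : ℤ) else 0) = 0 := by
    refine sum_eq_zero fun x _ => ?_
    rw [if_neg (by omega), mul_zero]
  rw [h0, add_zero]
  have h1 : ∀ x ∈ range (j + 1), ((d + 2).choose x : ℤ) *
      (if x ≤ j then ((d + 2 - x).choose (j - x) : ℤ) else 0) =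
      ((d + 2).choose j : ℤ) * (j.choose x : ℤ) := by
    intro x hx
    have hx' : x ≤ j := by
      have := mem_range.1 hx
      omega
    rw [if_pos hx']
    have := Nat.choose_mul (n := d + 2) (k := j) (s := x) hx'
    exact_mod_cast this.symm
  rw [sum_congr rfl h1, ← mul_sum]
  have h2 : (∑ x ∈ range (j + 1), (j.choose x : ℤ)) = 2 ^ j := by
    have := Nat.sum_range_choose j
    exact_mod_cast this
  rw [h2]
  ring

theorem hh_eq (d l : ℕ) (ι : Type) (S : Finset ι) (x : ι → ℕ) (f : ℕ → ℤ) (hl : l ≤ d)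
    (hf : ∀ k ≤ l, f k = 2 ^ k * ((d + 2).choose k : ℤ) -
      ∑ e ∈ S.filter (fun e => x e ≤ k), ((d + 2 - x e).choose (k - x e) : ℤ)) (i : ℕ) (hi : i ≤ l) :
    hh d f i = ∑ y ∈ range (l + 1), ((d + 2).choose y : ℤ) * ((i + 1 - y : ℕ) : ℤ) -
      ∑ e ∈ S, ((i + 1 - x e : ℕ) : ℤ) := by
  unfold hh
  have h1 : ∀ j ∈ range (i + 1), (-1 : ℤ) ^ (i - j) * ((d - j).choose (i - j) : ℤ) * f j =
      ∑ y ∈ range (l + 1), ((d + 2).choose y : ℤ) *
        ((-1 : ℤ) ^ (i - j) * ((d - j).choose (i - j) : ℤ) *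
          (if y ≤ j then ((d + 2 - y).choose (j - y) : ℤ) else 0)) -
      ∑ e ∈ S, (-1 : ℤ) ^ (i - j) * ((d - j).choose (i - j) : ℤ) *
          (if x e ≤ j then ((d + 2 - x e).choose (j - x e) : ℤ) else 0) := by
    intro j hj
    have hj' : j ≤ l := by
      have := mem_range.1 hj
      omega
    rw [hf j hj', two_pow d l j hj' hl, mul_sub, mul_sum, ← mul_sum (s := S), sum_filter]
    refine congrArg₂ _ (sum_congr rfl fun y _ => by ring) rfl
  rw [sum_congr rfl h1, sum_sub_distrib, sum_comm, sum_comm (s := range (i + 1)) (t := S)]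
  have h2 : ∀ y ∈ range (l + 1), ∑ j ∈ range (i + 1), ((d + 2).choose y : ℤ) *
        ((-1 : ℤ) ^ (i - j) * ((d - j).choose (i - j) : ℤ) *
          (if y ≤ j then ((d + 2 - y).choose (j - y) : ℤ) else 0)) =
      ((d + 2).choose y : ℤ) * ((i + 1 - y : ℕ) : ℤ) := by
    intro y _
    rw [← mul_sum, B d y i (by omega)]
  have h3 : ∀ e ∈ S, ∑ j ∈ range (i + 1), (-1 : ℤ) ^ (i - j) * ((d - j).choose (i - j) : ℤ) *
          (if x e ≤ j then ((d + 2 - x e).choose (j - x e) : ℤ) else 0) =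
      ((i + 1 - x e : ℕ) : ℤ) := by
    intro e _
    exact B d (x e) i (by omega)
  rw [sum_congr rfl h2, sum_congr rfl h3]

end BinAux

theorem thm_Bin : St_Bin := by
  intro d l ι S x f h1 hl hx hf
  rw [BinAux.hh_eq d l ι S x f hl hf l le_rfl, BinAux.hh_eq d l ι S x f hl hf (l - 1) (by omega)]
  have e1 : ∀ y ∈ range (l + 1), ((d + 2).choose y : ℤ) * ((l + 1 - y : ℕ) : ℤ) =
      ((d + 2).choose y : ℤ) * ((l - 1 + 1 - y : ℕ) : ℤ) + ((d + 2).choose y : ℤ) := by
    intro y hy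
    have := mem_range.1 hy
    have e : l + 1 - y = (l - 1 + 1 - y) + 1 := by omega
    rw [e]
    push_cast
    ring
  have e2 : ∀ e ∈ S, ((l + 1 - x e : ℕ) : ℤ) = ((l - 1 + 1 - x e : ℕ) : ℤ) + 1 := by
    intro e he
    have := hx e he
    have e' : l + 1 - x e = (l - 1 + 1 - x e) + 1 := by omega
    rw [e']
    push_cast
    ring
  rw [sum_congr rfl e1, sum_congr rfl e2, sum_add_distrib, sum_add_distrib, sum_const]
  simp only [nsmul_eq_mul, mul_one]
  ring

end Pool.CSG
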