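import Pool.Agent.CSG.St

/-!
# CSG, module [Blk1]: three consecutive blocks (helper58)
-/

set_option autoImplicit false

open Finset Real Pool.CS4

noncomputable section

namespace Pool.CSG

private lemma Blk1_mem {m l : ℕ} (q j : ℤ) : ((j : ℤ) : ZMod (2 * m)) ∈ Blk m l q ↔
    ∃ i : ℕ, i < l ∧ ((2 * m : ℕ) : ℤ) ∣ (j - (q + i)) := by
  unfold Blk
  simp only [mem_image, mem_range]
  constructor
  · rintro ⟨i, hi, h⟩
    exact ⟨i, hi, (ZMod.intCast_eq_intCast_iff_dvd_sub _ _ _).1 h⟩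
  · rintro ⟨i, hi, h⟩
    exact ⟨i, hi, (ZMod.intCast_eq_intCast_iff_dvd_sub _ _ _).2 h⟩

private lemma Blk1_AF {l : ℕ} (q : ℤ) : AF (3 * l) (Blk (3 * l) l q) := by
  intro x hx hx'
  unfold Blk at hx
  simp only [mem_image, mem_range] at hx
  obtain ⟨i, hi, rfl⟩ := hx
  have e : ((q + (i : ℤ) : ℤ) : ZMod (2 * (3 * l))) + ((3 * l : ℕ) : ZMod (2 * (3 * l))) =
      ((q + (i : ℤ) + ((3 * l : ℕ) : ℤ) : ℤ) : ZMod (2 * (3 * l))) := by
    simp only [Int.cast_add, Int.cast_natCast]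
  rw [e, Blk1_mem] at hx'
  obtain ⟨j, hj, h⟩ := hx'
  have h0 := Int.eq_zero_of_abs_lt_dvd h (abs_lt.2 ⟨by push_cast; omega, by push_cast; omega⟩)
  omega

private lemma Blk1_Xp {l : ℕ} (t : ℤ) :
    Xp (3 * l) (Blk (3 * l) l (t + l)) t = Ico l (2 * l) := by
  ext s
  unfold Xp
  simp only [mem_filter, mem_range, mem_Ico]
  rw [Blk1_mem]
  constructor
  · rintro ⟨hs, i, hi, h⟩
    have h0 := Int.eq_zero_of_abs_lt_dvd h (abs_lt.2 ⟨by push_cast; omega, by push_cast; omega⟩)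
    omega
  · rintro ⟨h1, h2⟩
    refine ⟨by omega, s - l, by omega, ?_⟩
    have e : t + (s : ℤ) - (t + (l : ℤ) + ((s - l : ℕ) : ℤ)) = 0 := by
      push_cast [Nat.cast_sub h1]; ring
    rw [e]
    exact dvd_zero _

/-- the sum over the window of `q` with a minus sign on the middle third -/
private def Blk1_G (l : ℕ) (r θ : ℤ → ℝ) (q : ℤ) (α : ℝ) : ℝ :=
  ∑ s ∈ range (3 * l), w r θ (q + s) α - 2 * ∑ s ∈ Ico l (2 * l), w r θ (q + s) α

private lemma Blk1_D {l : ℕ} [NeZero l] {r θ : ℤ → ℝ} (hc : Cf (3 * l) r θ) (hW : St_Win) (t : ℤ) :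
    D (3 * l) r θ (Blk (3 * l) l (t + l)) (θ t) = -Blk1_G l r θ t (θ t) := by
  have : NeZero (3 * l) := ⟨by have := NeZero.ne l; omega⟩
  have h := (hW (3 * l) r θ hc _ (Blk1_AF (t + l)) t (θ t) (hc.mono (by omega)) le_rfl).2
  rw [h, Blk1_Xp, Blk1_G]
  ring

private lemma Blk1_w {l : ℕ} {r θ : ℤ → ℝ} (hc : Cf (3 * l) r θ) (j : ℤ) (α : ℝ) :
    w r θ (j + 3 * l) α = -w r θ j α := by
  have h1 := hc.rp j
  have h2 := hc.tp j
  push_cast at h1 h2
  unfold w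
  rw [h1, h2]
  have e : θ j + π - α = (θ j - α) + π := by ring
  rw [e, sin_add_pi]
  ring

private lemma Blk1_pi {r θ : ℤ → ℝ} (l : ℕ) (q : ℤ) (α : ℝ) :
    Blk1_G l r θ q (α + π) = -Blk1_G l r θ q α := by
  have h : ∀ j : ℤ, w r θ j (α + π) = -w r θ j α := by
    intro j
    unfold w
    have e : θ j - (α + π) = (θ j - α) - π := by ring
    rw [e, sin_sub_pi]
    ring
  unfold Blk1_G
  simp only [h, sum_neg_distrib]
  ring

private lemma Blk1_split {l : ℕ} (f : ℕ → ℝ) : ∑ s ∈ range (3 * l), f s =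
    ∑ s ∈ range l, f s + ∑ s ∈ range l, f (l + s) + ∑ s ∈ range l, f (2 * l + s) := by
  have e : 3 * l = l + l + l := by ring
  rw [e, sum_range_add, sum_range_add]
  have e2 : l + l = 2 * l := by ring
  rw [e2]

private lemma Blk1_shift {l : ℕ} {r θ : ℤ → ℝ} (hc : Cf (3 * l) r θ) (q : ℤ) (α : ℝ) :
    Blk1_G l r θ (q + l) α = -Blk1_G l r θ q α := by
  have hI : ∀ f : ℕ → ℝ, ∑ s ∈ Ico l (2 * l), f s = ∑ s ∈ range l, f (l + s) := by
    intro f
    rw [sum_Ico_eq_sum_range]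
    have e : 2 * l - l = l := by omega
    rw [e]
  unfold Blk1_G
  rw [hI, hI, Blk1_split, Blk1_split]
  have a1 : ∀ s : ℕ, w r θ (q + l + (s : ℤ)) α = w r θ (q + ((l + s : ℕ) : ℤ)) α := by
    intro s; congr 1; push_cast; ring
  have a2 : ∀ s : ℕ, w r θ (q + l + ((l + s : ℕ) : ℤ)) α = w r θ (q + ((2 * l + s : ℕ) : ℤ)) α := by
    intro s; congr 1; push_cast; ring
  have a3 : ∀ s : ℕ, w r θ (q + l + ((2 * l + s : ℕ) : ℤ)) α = -w r θ (q + (s : ℤ)) α := by
    intro s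
    rw [← Blk1_w hc]
    congr 1
    push_cast; ring
  have b1 : ∑ s ∈ range l, w r θ (q + l + (s : ℤ)) α =
      ∑ s ∈ range l, w r θ (q + ((l + s : ℕ) : ℤ)) α := sum_congr rfl fun s _ => a1 s
  have b2 : ∑ s ∈ range l, w r θ (q + l + ((l + s : ℕ) : ℤ)) α =
      ∑ s ∈ range l, w r θ (q + ((2 * l + s : ℕ) : ℤ)) α := sum_congr rfl fun s _ => a2 s
  have b3 : ∑ s ∈ range l, w r θ (q + l + ((2 * l + s : ℕ) : ℤ)) α =
      -∑ s ∈ range l, w r θ (q + (s : ℤ)) α := by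
    rw [← sum_neg_distrib]
    exact sum_congr rfl fun s _ => a3 s
  rw [b1, b2, b3]
  ring

private lemma Blk1_sin {l : ℕ} (hS : St_Sin) {r θ : ℤ → ℝ} (q : ℤ) {a b x : ℝ} (h1 : a ≤ x)
    (h2 : x ≤ b) (h3 : b < a + π) (ha : Blk1_G l r θ q a ≤ 0) (hb : Blk1_G l r θ q b ≤ 0) :
    Blk1_G l r θ q x ≤ 0 := by
  have key : ∀ y : ℝ, Blk1_G l r θ q y = ∑ s ∈ range (3 * l),
      (if l ≤ s ∧ s < 2 * l then -r (q + s) else r (q + s)) * sin (θ (q + s) - y) := by
    intro y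
    unfold Blk1_G
    have hsub : Ico l (2 * l) ⊆ range (3 * l) := by
      intro s hs
      rw [mem_Ico] at hs
      rw [mem_range]
      omega
    rw [← sum_sdiff hsub, ← sum_sdiff hsub (f := fun s : ℕ =>
      (if l ≤ s ∧ s < 2 * l then -r (q + s) else r (q + s)) * sin (θ (q + s) - y))]
    have e1 : ∑ s ∈ range (3 * l) \ Ico l (2 * l),
        (if l ≤ s ∧ s < 2 * l then -r (q + s) else r (q + s)) * sin (θ (q + s) - y) =
        ∑ s ∈ range (3 * l) \ Ico l (2 * l), w r θ (q + s) y := by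
      refine sum_congr rfl fun s hs => ?_
      rw [mem_sdiff, mem_Ico] at hs
      rw [if_neg hs.2]
      rfl
    have e2 : ∑ s ∈ Ico l (2 * l),
        (if l ≤ s ∧ s < 2 * l then -r (q + s) else r (q + s)) * sin (θ (q + s) - y) =
        -∑ s ∈ Ico l (2 * l), w r θ (q + s) y := by
      rw [← sum_neg_distrib]
      refine sum_congr rfl fun s hs => ?_
      rw [mem_Ico] at hs
      rw [if_pos hs]
      unfold w
      ring
    rw [e1, e2]
    ring
  rw [key] at ha hb ⊢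
  exact hS ℕ (range (3 * l)) _ _ a b x h1 h2 h3 ha hb

theorem thm_Blk1 (hS : St_Sin) (hW : St_Win) : St_Blk1 := by
  intro l _ r θ hc hd q
  by_contra hno
  push Not at hno
  obtain ⟨n1, n2, n3⟩ := hno
  have neg : ∀ p : ℤ, (∀ α, D (3 * l) r θ (Blk (3 * l) l p) α ≤ 0) →
      ∀ α, D (3 * l) r θ (Blk (3 * l) l p) α < 0 := by
    intro p hp
    rcases hd _ (Blk1_AF p) with ⟨α, hα⟩ | h
    · exact absurd hα (not_lt.2 (hp α))
    · exact h
  have d1 := neg _ n1 (θ q)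
  have d2 := neg _ n2 (θ (q + l))
  have d3 := neg _ n3 (θ (q + 2 * l))
  have g1 : 0 < Blk1_G l r θ q (θ q) := by
    rw [Blk1_D hc hW q] at d1
    linarith
  have g2 : Blk1_G l r θ q (θ (q + l)) < 0 := by
    have e : q + 2 * (l : ℤ) = (q + l) + l := by ring
    rw [e, Blk1_D hc hW (q + l), Blk1_shift hc] at d2
    linarith
  have g3 : 0 < Blk1_G l r θ q (θ (q + 2 * l)) := by
    have e : q + 3 * (l : ℤ) = (q + 2 * l) + l := by ring
    have e' : q + 2 * (l : ℤ) = (q + l) + l := by ring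
    rw [e, Blk1_D hc hW (q + 2 * l)] at d3
    have h := Blk1_shift hc (q + l) (θ (q + 2 * l))
    rw [Blk1_shift hc q, ← e'] at h
    rw [h] at d3
    linarith
  have g4 : Blk1_G l r θ q (θ q + π) < 0 := by
    rw [Blk1_pi]
    linarith
  have hl : (0 : ℤ) < l := by
    have := NeZero.pos l
    exact_mod_cast this
  have m1 : θ q ≤ θ (q + l) := hc.mono (by omega)
  have m2 : θ (q + l) ≤ θ (q + 2 * l) := hc.mono (by omega)
  have m3 : θ (q + 2 * l) ≤ θ (q + 3 * l) := hc.mono (by omega)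
  have m4 : θ (q + 3 * l) = θ q + π := by
    have := hc.tp q
    push_cast at this
    exact this
  have m5 : θ q ≠ θ (q + l) := by
    intro h
    rw [← h] at g2
    linarith
  have m6 : θ q < θ (q + l) := lt_of_le_of_ne m1 m5
  have := Blk1_sin hS q m2 (m3.trans m4.le) (by linarith) g2.le g4.le
  linarith

end Pool.CSG
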