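import Pool.Agent.CSG.St

/-!
# CSG, module [Blk2]: the start of a block (helper12)
-/

set_option autoImplicit false

open Finset Real Pool.CS4

noncomputable section

namespace Pool.CSG

private lemma Blk2_mem {m l : ℕ} (q j : ℤ) : ((j : ℤ) : ZMod (2 * m)) ∈ Blk m l q ↔
    ∃ i : ℕ, i < l ∧ ((2 * m : ℕ) : ℤ) ∣ (j - (q + i)) := by
  unfold Blk
  simp only [mem_image, mem_range]
  constructor
  · rintro ⟨i, hi, h⟩
    exact ⟨i, hi, (ZMod.intCast_eq_intCast_iff_dvd_sub _ _ _).1 h⟩
  · rintro ⟨i, hi, h⟩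
    exact ⟨i, hi, (ZMod.intCast_eq_intCast_iff_dvd_sub _ _ _).2 h⟩

private lemma Blk2_congr {m l : ℕ} {q q' : ℤ} (h : ((2 * m : ℕ) : ℤ) ∣ q' - q) :
    Blk m l q = Blk m l q' := by
  unfold Blk
  refine Finset.image_congr (fun s _ => ?_)
  refine (ZMod.intCast_eq_intCast_iff_dvd_sub _ _ _).2 ?_
  have e : q' + (s : ℤ) - (q + s) = q' - q := by ring
  rw [e]
  exact h

private lemma Blk2_AF {m l : ℕ} (hm : 2 * l ≤ m) (q : ℤ) : AF m (Blk m l q) := by
  intro x hx hx'
  unfold Blk at hx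
  simp only [mem_image, mem_range] at hx
  obtain ⟨i, hi, rfl⟩ := hx
  have e : ((q + (i : ℤ) : ℤ) : ZMod (2 * m)) + (m : ZMod (2 * m)) =
      ((q + (i : ℤ) + (m : ℤ) : ℤ) : ZMod (2 * m)) := by push_cast; ring
  rw [e, Blk2_mem] at hx'
  obtain ⟨j, hj, h⟩ := hx'
  have h0 := Int.eq_zero_of_abs_lt_dvd h (abs_lt.2 ⟨by push_cast; omega, by push_cast; omega⟩)
  omega

private lemma Blk2_Xp {m l : ℕ} (hl : 1 ≤ l) (hm : 2 * l ≤ m) (q : ℤ) (b : ℕ) (hb : b ≤ m) :
    Xp m (Blk m l q) (q + b) = range (l - b) := by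
  ext s
  unfold Xp
  simp only [mem_filter, mem_range]
  rw [Blk2_mem]
  constructor
  · rintro ⟨hs, i, hi, h⟩
    have h0 := Int.eq_zero_of_abs_lt_dvd h (abs_lt.2 ⟨by push_cast; omega, by push_cast; omega⟩)
    omega
  · intro hs
    refine ⟨by omega, b + s, by omega, ?_⟩
    have e : q + (b : ℤ) + s - (q + ((b + s : ℕ) : ℤ)) = 0 := by push_cast; ring
    rw [e]
    exact dvd_zero _

private lemma Blk2_first {m l : ℕ} (hm : 2 * l ≤ m) (q t : ℤ) (a : ℕ) (ha : a < m)
    (h : ((2 * m : ℕ) : ℤ) ∣ (t + a) - q) :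
    Xp m (Blk m l q) t = Ico a (min (a + l) m) := by
  rw [Blk2_congr h]
  ext s
  unfold Xp
  simp only [mem_filter, mem_range, mem_Ico, lt_min_iff]
  rw [Blk2_mem]
  constructor
  · rintro ⟨hs, i, hi, h⟩
    have h0 := Int.eq_zero_of_abs_lt_dvd h (abs_lt.2 ⟨by push_cast; omega, by push_cast; omega⟩)
    omega
  · rintro ⟨h1, h2, h3⟩
    refine ⟨h3, s - a, by omega, ?_⟩
    have e : t + (s : ℤ) - (t + a + ((s - a : ℕ) : ℤ)) = 0 := by
      rw [Nat.cast_sub h1]; ring
    rw [e]
    exact dvd_zero _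

private lemma Blk2_shift {m : ℕ} {r θ : ℤ → ℝ} (hC : Cf m r θ) (j : ℤ) (α : ℝ) :
    w r θ (j + m) α = -w r θ j α := by
  unfold w
  rw [hC.rp, hC.tp]
  have e : θ j + π - α = (θ j - α) + π := by ring
  rw [e, Real.sin_add_pi]
  ring

/-- the formula for `D` near a block -/
private lemma Blk2_D {m l : ℕ} [NeZero m] (hl : 1 ≤ l) (hm : 2 * l ≤ m) {r θ : ℤ → ℝ}
    (hW : St_Win) (hC : Cf m r θ) (q : ℤ) (b : ℕ) (hb : b ≤ l) (α : ℝ)
    (h1 : θ (q + b - 1) ≤ α) (h2 : α ≤ θ (q + b)) :
    D m r θ (Blk m l q) α =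
      2 * ∑ i ∈ range l, w r θ (q + i) α - ∑ i ∈ range m, w r θ (q + i) α := by
  have hw := (hW m r θ hC (Blk m l q) (Blk2_AF hm q) (q + b) α h1 h2).2
  rw [hw, Blk2_Xp hl hm q b (by omega)]
  have e0 : ∀ s : ℕ, w r θ (q + b + s) α = w r θ (q + ((b + s : ℕ) : ℤ)) α := by
    intro s
    congr 1
    push_cast
    ring
  simp only [e0]
  have e1 := Finset.sum_range_add (fun i : ℕ => w r θ (q + (i : ℤ)) α) b (l - b)
  have e2 := Finset.sum_range_add (fun i : ℕ => w r θ (q + (i : ℤ)) α) b m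
  have e3 := Finset.sum_range_add (fun i : ℕ => w r θ (q + (i : ℤ)) α) m b
  have e4 : ∀ i : ℕ, w r θ (q + ((m + i : ℕ) : ℤ)) α = -w r θ (q + (i : ℤ)) α := by
    intro i
    rw [← Blk2_shift hC]
    congr 1
    push_cast
    ring
  simp only [e4, Finset.sum_neg_distrib] at e3
  rw [show b + (l - b) = l by omega] at e1
  rw [show b + m = m + b by omega] at e2
  linarith

private lemma Blk2_sum {m l : ℕ} (hm : 2 * l ≤ m) (r θ : ℤ → ℝ) (q : ℤ) (α : ℝ) :
    ∑ i ∈ range m, (if i < l then r (q + (i : ℤ)) else -r (q + (i : ℤ))) *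
      sin (θ (q + (i : ℤ)) - α) =
      2 * ∑ i ∈ range l, w r θ (q + i) α - ∑ i ∈ range m, w r θ (q + i) α := by
  have e1 := Finset.sum_range_add (fun i : ℕ => w r θ (q + (i : ℤ)) α) l (m - l)
  have e2 := Finset.sum_range_add (fun i : ℕ =>
    (if i < l then r (q + (i : ℤ)) else -r (q + (i : ℤ))) * sin (θ (q + (i : ℤ)) - α)) l (m - l)
  rw [show l + (m - l) = m by omega] at e1 e2
  rw [e2, e1]
  have e3 : ∑ x ∈ range l, (if x < l then r (q + (x : ℤ)) else -r (q + (x : ℤ))) *
      sin (θ (q + (x : ℤ)) - α) = ∑ x ∈ range l, w r θ (q + (x : ℤ)) α := by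
    refine Finset.sum_congr rfl (fun x hx => ?_)
    rw [if_pos (mem_range.1 hx)]
    rfl
  have e4 : ∑ x ∈ range (m - l), (if l + x < l then r (q + ((l + x : ℕ) : ℤ))
      else -r (q + ((l + x : ℕ) : ℤ))) * sin (θ (q + ((l + x : ℕ) : ℤ)) - α) =
      -∑ x ∈ range (m - l), w r θ (q + ((l + x : ℕ) : ℤ)) α := by
    rw [← Finset.sum_neg_distrib]
    refine Finset.sum_congr rfl (fun x _ => ?_)
    rw [if_neg (by omega)]
    unfold w
    ring
  rw [e3, e4]
  ring

private lemma Blk2_zero {m : ℕ} {r θ : ℤ → ℝ} (hC : Cf m r θ) (q : ℤ) (β : ℝ) (hm : 0 < m)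
    (h : ∀ i : ℕ, i < m → w r θ (q + i) β = 0) : False := by
  obtain ⟨j, hj⟩ := hC.sp β
  apply hj
  have hper : ∀ (k : ℕ) (j : ℤ), w r θ (j + (k : ℤ) * m) β = 0 ↔ w r θ j β = 0 := by
    intro k
    induction k with
    | zero => intro j; simp
    | succ k ih =>
      intro j
      have e : j + ((k + 1 : ℕ) : ℤ) * m = (j + (k : ℤ) * m) + m := by push_cast; ring
      rw [e, Blk2_shift hC, neg_eq_zero]
      exact ih j
  have hmz : (0 : ℤ) < (m : ℤ) := by exact_mod_cast hm
  have h1 := Int.emod_add_mul_ediv (j - q) (m : ℤ)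
  have h2 := Int.emod_nonneg (j - q) hmz.ne'
  have h3 := Int.emod_lt_of_pos (j - q) hmz
  obtain ⟨i, hi⟩ := Int.eq_ofNat_of_zero_le h2
  rw [hi] at h1 h3
  have hi' : i < m := by exact_mod_cast h3
  have h4 := h i hi'
  change w r θ j β = 0
  rcases Int.le_total 0 ((j - q) / (m : ℤ)) with hk | hk
  · obtain ⟨k, hk'⟩ := Int.eq_ofNat_of_zero_le hk
    rw [hk'] at h1
    have e : j = (q + i) + (k : ℤ) * m := by linarith
    rw [e, hper]
    exact h4
  · obtain ⟨k, hk'⟩ := Int.eq_ofNat_of_zero_le (neg_nonneg.2 hk)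
    have e : q + (i : ℤ) = j + (k : ℤ) * m := by
      have : (j - q) / (m : ℤ) = -(k : ℤ) := by linarith
      rw [this] at h1
      linarith
    rw [e, hper] at h4
    exact h4

/-- **[Blk2]** -/
theorem thm_Blk2 (hS : St_Sin) (hW : St_Win) : St_Blk2 := by
  intro m l _ hl hm r θ hC q t hpos hneg
  have hM : (0 : ℤ) < ((2 * m : ℕ) : ℤ) := by
    push_cast
    omega
  have h1 := Int.emod_add_mul_ediv (q - t) ((2 * m : ℕ) : ℤ)
  have h2 := Int.emod_nonneg (q - t) hM.ne'
  have h3 := Int.emod_lt_of_pos (q - t) hM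
  obtain ⟨a, ha⟩ := Int.eq_ofNat_of_zero_le h2
  rw [ha] at h1 h3
  by_cases ham : a < m
  · refine ⟨a, ham, ?_, Blk2_first hm q t a ham ?_⟩
    · refine (ZMod.intCast_eq_intCast_iff_dvd_sub _ _ _).2 ?_
      refine ⟨-((q - t) / ((2 * m : ℕ) : ℤ)), ?_⟩
      linarith
    · refine ⟨-((q - t) / ((2 * m : ℕ) : ℤ)), ?_⟩
      linarith
  · exfalso
    have ha2 : a < 2 * m := by exact_mod_cast h3
    obtain ⟨b, hb⟩ : ∃ b : ℕ, b = 2 * m - a := ⟨_, rfl⟩
    have hb0 : 0 < b := by omega
    have hbm : b ≤ m := by omega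
    obtain ⟨p, hp⟩ : ∃ p : ℤ, t = p + b := ⟨t - b, by ring⟩
    have hqp : Blk m l q = Blk m l p := by
      apply Blk2_congr
      refine ⟨-((q - t) / ((2 * m : ℕ) : ℤ)) - 1, ?_⟩
      have e : (b : ℤ) = ((2 * m : ℕ) : ℤ) - a := by
        rw [hb, Nat.cast_sub ha2.le]
      have e' : p = t - b := by linarith
      rw [e', e]
      linarith
    rw [hqp] at hpos hneg
    subst hp
    clear h1 h2 h3 ha ham ha2 hb hqp
    by_cases hbl : l ≤ b
    · have hw := hW m r θ hC (Blk m l p) (Blk2_AF hm p) (p + b) (θ (p + b))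
        (hC.mono (by linarith)) le_rfl
      rw [hw.2, Blk2_Xp hl hm p b hbm, show l - b = 0 by omega] at hpos
      simp only [range_zero, sum_empty, mul_zero, zero_sub] at hpos
      have : 0 ≤ ∑ s ∈ range m, w r θ (p + b + s) (θ (p + b)) :=
        Finset.sum_nonneg (fun s hs => hw.1 s (mem_range.1 hs))
      linarith
    · push Not at hbl
      have hD1 := Blk2_D hl hm hW hC p b hbl.le (θ (p + b)) (hC.mono (by linarith)) le_rfl
      have hD2 := Blk2_D hl hm hW hC p b hbl.le (θ (p + b - 1)) le_rfl (hC.mono (by linarith))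
      have hw := hW m r θ hC (Blk m l p) (Blk2_AF hm p) (p + l) (θ (p + l - 1))
        le_rfl (hC.mono (by linarith))
      have hD3 := Blk2_D hl hm hW hC p l le_rfl (θ (p + l - 1)) le_rfl (hC.mono (by linarith))
      have hneg3 : D m r θ (Blk m l p) (θ (p + l - 1)) ≤ 0 := by
        rw [hw.2, Blk2_Xp hl hm p l (by omega), show l - l = 0 by omega]
        simp only [range_zero, sum_empty, mul_zero, zero_sub]
        have : 0 ≤ ∑ s ∈ range m, w r θ (p + l + s) (θ (p + l - 1)) :=
          Finset.sum_nonneg (fun s hs => hw.1 s (mem_range.1 hs))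
        linarith
      have hx1 : θ (p + b - 1) ≤ θ (p + b) := hC.mono (by linarith)
      have hx2 : θ (p + b) ≤ θ (p + l - 1) := hC.mono (by omega)
      by_cases hlt : θ (p + l - 1) < θ (p + b - 1) + π
      · have h := hS ℕ (range m) (fun i => if i < l then r (p + (i : ℤ)) else -r (p + (i : ℤ)))
          (fun i => θ (p + (i : ℤ))) (θ (p + b - 1)) (θ (p + l - 1)) (θ (p + b)) hx1 hx2 hlt
          ((Blk2_sum hm r θ p (θ (p + b - 1))).trans_le (hD2 ▸ hneg))
          ((Blk2_sum hm r θ p (θ (p + l - 1))).trans_le (hD3 ▸ hneg3))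
        have e := (Blk2_sum hm r θ p (θ (p + b))).symm.trans_le h
        rw [← hD1] at e
        linarith
      · push Not at hlt
        have htop : θ (p + b - 1 + m) = θ (p + b - 1) + π := hC.tp _
        -- the angles from `p + l - 1` to `p + b - 1 + m` are all equal
        have hA : ∀ j : ℤ, p + l - 1 ≤ j → j ≤ p + b - 1 + m → θ j = θ (p + b - 1) + π := by
          intro j hj1 hj2
          refine le_antisymm ?_ ?_
          · rw [← htop]
            exact hC.mono hj2
          · exact le_trans hlt (hC.mono hj1)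
        have hB : ∀ j : ℤ, p ≤ j → j ≤ p + b - 1 → θ j = θ (p + b - 1) := by
          intro j hj1 hj2
          have h5 := hA (j + m) (by omega) (by omega)
          rw [hC.tp] at h5
          linarith
        -- the values at `θ (p + b - 1)`
        have hz1 : ∀ i : ℕ, i < b → w r θ (p + i) (θ (p + b - 1)) = 0 := by
          intro i hi
          unfold w
          rw [hB (p + i) (by omega) (by omega), sub_self, Real.sin_zero, mul_zero]
        have hz2 : ∀ i : ℕ, l ≤ i + 1 → i < m → w r θ (p + i) (θ (p + b - 1)) = 0 := by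
          intro i hi hi'
          unfold w
          rw [hA (p + i) (by omega) (by omega), add_sub_cancel_left, Real.sin_pi, mul_zero]
        have hnn : ∀ i : ℕ, i < m → 0 ≤ w r θ (p + i) (θ (p + b - 1)) := by
          intro i hi
          unfold w
          refine mul_nonneg (hC.rn _) ?_
          rcases lt_or_ge i b with hib | hib
          · rw [hB (p + i) (by omega) (by omega), sub_self, Real.sin_zero]
          · refine Real.sin_nonneg_of_nonneg_of_le_pi ?_ ?_
            · have := hC.mono (show p + (b : ℤ) - 1 ≤ p + i by omega)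
              linarith
            · have := hC.mono (show p + (i : ℤ) ≤ p + b - 1 + m by omega)
              rw [htop] at this
              linarith
        have hsum2 : ∑ i ∈ range m, w r θ (p + i) (θ (p + b - 1)) =
            ∑ i ∈ range l, w r θ (p + i) (θ (p + b - 1)) := by
          symm
          refine Finset.sum_subset (Finset.range_subset_range.2 (by omega)) (fun i hi hi' => ?_)
          rw [mem_range] at hi hi'
          exact hz2 i (by omega) hi
        rw [hD2, hsum2] at hneg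
        have h6 : ∑ i ∈ range m, w r θ (p + i) (θ (p + b - 1)) = 0 := by
          refine le_antisymm (by rw [hsum2]; linarith)
            (Finset.sum_nonneg (fun i hi => hnn i (mem_range.1 hi)))
        have h7 := (Finset.sum_eq_zero_iff_of_nonneg
          (fun i hi => hnn i (mem_range.1 hi))).1 h6
        exact Blk2_zero hC p (θ (p + b - 1)) (by omega) (fun i hi => h7 i (mem_range.2 hi))

end Pool.CSG
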