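import Pool.Agent.CSG.St

/-!
# CSG, module BlkC: at least `2 l` events
-/

set_option autoImplicit false

open Finset Real Pool.CS4

noncomputable section

namespace Pool.CSG

private lemma BlkC_cast (l : ℕ) (a b : ℤ) (h : ((2 * (3 * l) : ℕ) : ℤ) ∣ b - a) :
    ((a : ℤ) : ZMod (2 * (3 * l))) = ((b : ℤ) : ZMod (2 * (3 * l))) :=
  (ZMod.intCast_eq_intCast_iff_dvd_sub a b _).2 h

private lemma BlkC_cast' (l : ℕ) (a b : ℤ)
    (h : ((a : ℤ) : ZMod (2 * (3 * l))) = ((b : ℤ) : ZMod (2 * (3 * l)))) :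
    ((2 * (3 * l) : ℕ) : ℤ) ∣ b - a :=
  (ZMod.intCast_eq_intCast_iff_dvd_sub a b _).1 h

private lemma BlkC_per (l : ℕ) (q : ℤ) : Blk (3 * l) l (q + 6 * l) = Blk (3 * l) l q := by
  unfold Blk
  refine Finset.image_congr ?_
  intro s _
  refine BlkC_cast l _ _ ⟨-1, ?_⟩
  push_cast
  ring

private lemma BlkC_AF (l : ℕ) (hl : 0 < l) (q : ℤ) : AF (3 * l) (Blk (3 * l) l q) := by
  intro x hx hx'
  unfold Blk at hx hx'
  rw [Finset.mem_image] at hx hx'
  obtain ⟨s, hs, rfl⟩ := hx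
  obtain ⟨s', hs', h⟩ := hx'
  rw [Finset.mem_range] at hs hs'
  have h3 : ((q + s' : ℤ) : ZMod (2 * (3 * l))) =
      ((q + s + ((3 * l : ℕ) : ℤ) : ℤ) : ZMod (2 * (3 * l))) := by
    rw [h]
    push_cast
    ring
  obtain ⟨c, hc⟩ := BlkC_cast' l _ _ h3
  push_cast at hc
  have h4 : (s : ℤ) - s' + 3 * l = 6 * l * c := by linarith
  have h5 : (0 : ℤ) < 6 * l * c := by rw [← h4]; omega
  have h6 : (6 : ℤ) * l * c < 6 * l := by rw [← h4]; omega
  have hl' : (0 : ℤ) < 6 * l := by omega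
  have h7 : 0 < c := by
    by_contra hc0
    have : (6 : ℤ) * l * c ≤ 0 := mul_nonpos_of_nonneg_of_nonpos hl'.le (by omega)
    omega
  have h8 : (6 : ℤ) * l * 1 ≤ 6 * l * c := mul_le_mul_of_nonneg_left (by omega) hl'.le
  omega

private lemma BlkC_card (l : ℕ) (_hl : 0 < l) (S : Finset ℕ)
    (h : ∀ j < l, ∃ q ∈ S, q % l = j) : l ≤ S.card := by
  have h1 : range l ⊆ S.image (fun q => q % l) := by
    intro j hj
    rw [Finset.mem_range] at hj
    obtain ⟨q, hq, h2⟩ := h j hj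
    exact Finset.mem_image.2 ⟨q, hq, h2⟩
  calc l = (range l).card := (Finset.card_range l).symm
    _ ≤ (S.image (fun q => q % l)).card := Finset.card_le_card h1
    _ ≤ S.card := Finset.card_image_le

theorem thm_BlkC (hW : St_Win) (hS : St_Sta) (h1 : St_Blk1) (h2 : St_Blk2) : St_BlkC := by
  classical
  intro l _ r θ hc hd
  have hl : 0 < l := Nat.pos_of_ne_zero (NeZero.ne l)
  have : NeZero (3 * l) := ⟨by omega⟩
  have key : ∀ q : ℕ, (∃ α, 0 < D (3 * l) r θ (Blk (3 * l) l (q : ℤ)) α) →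
      ∃ e : ℕ × Finset ℕ, e ∈ ev (3 * l) r θ l ∧ ∃ a : ℕ, a < 3 * l ∧
        (((q : ℕ) : ℤ) : ZMod (2 * (3 * l))) = ((e.1 + a : ℤ) : ZMod (2 * (3 * l))) ∧
        e.2 = Ico a (min (a + l) (3 * l)) := by
    intro q hq
    have haf := BlkC_AF l hl (q : ℤ)
    obtain ⟨t, ⟨ht, hp, hn⟩, -⟩ := hS (3 * l) r θ hc (Blk (3 * l) l (q : ℤ)) haf hq
    obtain ⟨a, ha, hqa, hX⟩ := h2 (3 * l) l (by omega) (by omega) r θ hc (q : ℤ) (t : ℤ) hp hn
    have hmono : θ ((t : ℤ) - 1) ≤ θ (t : ℤ) := hc.mono (by omega)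
    have w1 := (hW (3 * l) r θ hc _ haf (t : ℤ) (θ (t : ℤ)) hmono le_rfl).2
    have w2 := (hW (3 * l) r θ hc _ haf (t : ℤ) (θ ((t : ℤ) - 1)) le_rfl hmono).2
    refine ⟨(t, Xp (3 * l) (Blk (3 * l) l (q : ℤ)) (t : ℤ)), ?_, a, ha, hqa, hX⟩
    unfold ev
    rw [Finset.mem_filter, Finset.mem_product, Finset.mem_range, Finset.mem_powerset]
    refine ⟨⟨ht, Finset.filter_subset _ _⟩, ⟨?_, ?_⟩, ?_⟩
    · rw [w1] at hp
      linarith
    · rw [w2] at hn
      linarith
    · show (Xp (3 * l) (Blk (3 * l) l (q : ℤ)) (t : ℤ)).card ≤ l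
      rw [hX, Nat.card_Ico]
      omega
  choose! f hf using key
  set Q : Finset ℕ := (range (6 * l)).filter
    (fun q => ∃ α, 0 < D (3 * l) r θ (Blk (3 * l) l (q : ℤ)) α) with hQ
  have hQev : Q.card ≤ (ev (3 * l) r θ l).card := by
    refine Finset.card_le_card_of_injOn f ?_ ?_
    · intro q hq
      exact (hf q (Finset.mem_filter.1 hq).2).1
    · intro q hq q' hq' he
      have hq1 := Finset.mem_filter.1 (Finset.mem_coe.1 hq)
      have hq1' := Finset.mem_filter.1 (Finset.mem_coe.1 hq')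
      obtain ⟨-, a, ha, hqa, hX⟩ := hf q hq1.2
      obtain ⟨-, a', ha', hqa', hX'⟩ := hf q' hq1'.2
      rw [he, hX'] at hX
      have e1 : a' ∈ Ico a (min (a + l) (3 * l)) := by
        rw [← hX, Finset.mem_Ico]
        omega
      have e2 : a ∈ Ico a' (min (a' + l) (3 * l)) := by
        rw [hX, Finset.mem_Ico]
        omega
      rw [Finset.mem_Ico] at e1 e2
      have e3 : a = a' := by omega
      have e4 : (((q : ℕ) : ℤ) : ZMod (2 * (3 * l))) = (((q' : ℕ) : ℤ) : ZMod (2 * (3 * l))) := by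
        rw [hqa, hqa', he, e3]
      obtain ⟨c, hc'⟩ := BlkC_cast' l _ _ e4
      have b1 := Finset.mem_range.1 hq1.1
      have b2 := Finset.mem_range.1 hq1'.1
      push_cast at hc'
      have h4 : (q' : ℤ) - q = 6 * l * c := by linarith
      have hl' : (0 : ℤ) < 6 * l := by omega
      have h5 : c = 0 := by
        rcases lt_trichotomy c 0 with h | h | h
        · have : (6 : ℤ) * l * c ≤ 6 * l * (-1) := mul_le_mul_of_nonneg_left (by omega) hl'.le
          omega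
        · exact h
        · have : (6 : ℤ) * l * 1 ≤ 6 * l * c := mul_le_mul_of_nonneg_left (by omega) hl'.le
          omega
      rw [h5, mul_zero] at h4
      omega
  have hQ1 : l ≤ (Q.filter (fun q => l ≤ q ∧ q < 4 * l)).card := by
    refine BlkC_card l hl _ ?_
    intro j hj
    have hmem : ∀ c : ℕ, 1 ≤ c → c ≤ 3 →
        (∃ α, 0 < D (3 * l) r θ (Blk (3 * l) l ((j : ℤ) + c * l)) α) →
        ∃ q ∈ Q.filter (fun q => l ≤ q ∧ q < 4 * l), q % l = j := by
      intro c hc1 hc3 hP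
      refine ⟨j + c * l, ?_, ?_⟩
      · rw [Finset.mem_filter, hQ, Finset.mem_filter, Finset.mem_range]
        have b1 : 1 * l ≤ c * l := Nat.mul_le_mul_right l hc1
        have b2 : c * l ≤ 3 * l := Nat.mul_le_mul_right l hc3
        refine ⟨⟨by omega, ?_⟩, by omega, by omega⟩
        push_cast
        exact hP
      · rw [Nat.add_mul_mod_self_right, Nat.mod_eq_of_lt hj]
    rcases h1 l r θ hc hd (j : ℤ) with h | h | h
    · refine hmem 1 le_rfl (by norm_num) ?_
      have e : (j : ℤ) + ((1 : ℕ) : ℤ) * l = (j : ℤ) + l := by push_cast; ring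
      rw [e]; exact h
    · exact hmem 2 (by norm_num) (by norm_num) (by exact_mod_cast h)
    · exact hmem 3 (by norm_num) (by norm_num) (by exact_mod_cast h)
  have hQ2 : l ≤ (Q.filter (fun q => ¬ (l ≤ q ∧ q < 4 * l))).card := by
    refine BlkC_card l hl _ ?_
    intro j hj
    rcases h1 l r θ hc hd ((j : ℤ) + 3 * l) with h | h | h
    · refine ⟨j + 4 * l, ?_, ?_⟩
      · rw [Finset.mem_filter, hQ, Finset.mem_filter, Finset.mem_range]
        refine ⟨⟨by omega, ?_⟩, by omega⟩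
        have e : (((j + 4 * l : ℕ) : ℕ) : ℤ) = (j : ℤ) + 3 * l + l := by push_cast; ring
        rw [e]; exact h
      · rw [Nat.add_mul_mod_self_right, Nat.mod_eq_of_lt hj]
    · refine ⟨j + 5 * l, ?_, ?_⟩
      · rw [Finset.mem_filter, hQ, Finset.mem_filter, Finset.mem_range]
        refine ⟨⟨by omega, ?_⟩, by omega⟩
        have e : (((j + 5 * l : ℕ) : ℕ) : ℤ) = (j : ℤ) + 3 * l + 2 * l := by push_cast; ring
        rw [e]; exact h
      · rw [Nat.add_mul_mod_self_right, Nat.mod_eq_of_lt hj]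
    · refine ⟨j, ?_, Nat.mod_eq_of_lt hj⟩
      rw [Finset.mem_filter, hQ, Finset.mem_filter, Finset.mem_range]
      refine ⟨⟨by omega, ?_⟩, by omega⟩
      have e : (j : ℤ) + 3 * l + 3 * l = (j : ℤ) + 6 * l := by ring
      rw [e, BlkC_per] at h
      exact h
  have hsum := Finset.card_filter_add_card_filter_not (s := Q) (fun q => l ≤ q ∧ q < 4 * l)
  omega

end Pool.CSG
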