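import Pool.Agent.CSG.St

/-!
# CSG: the nonfaces are counted by the events
-/

set_option autoImplicit false

open Finset Real Pool.CS4

namespace Pool.CSG

private theorem Cnt_two (m : ℕ) : ((m : ℕ) : ZMod (2 * m)) + (m : ZMod (2 * m)) = 0 := by
  rw [← Nat.cast_add, ← two_mul]
  exact ZMod.natCast_self (2 * m)

private theorem Cnt_inj {m : ℕ} (t : ℤ) {s u : ℕ} (hs : s < 2 * m) (hu : u < 2 * m)
    (h : ((t + s : ℤ) : ZMod (2 * m)) = ((t + u : ℤ) : ZMod (2 * m))) : s = u := by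
  rw [Int.cast_add, Int.cast_add] at h
  have h1 := add_left_cancel h
  rw [Int.cast_natCast, Int.cast_natCast, ZMod.natCast_eq_natCast_iff'] at h1
  rwa [Nat.mod_eq_of_lt hs, Nat.mod_eq_of_lt hu] at h1

private theorem Cnt_shift {m : ℕ} (t : ℤ) (s : ℕ) :
    ((t + s : ℤ) : ZMod (2 * m)) + (m : ZMod (2 * m)) = ((t + (s + m : ℕ) : ℤ) : ZMod (2 * m)) := by
  push_cast
  ring

private theorem Cnt_ne {m : ℕ} (t : ℤ) {s u : ℕ} (hs : s < m) (hu : u < m) :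
    ((t + s : ℤ) : ZMod (2 * m)) ≠ ((t + u : ℤ) : ZMod (2 * m)) + (m : ZMod (2 * m)) := by
  intro h
  rw [Cnt_shift] at h
  have := Cnt_inj t (by omega) (by omega) h
  omega

private theorem Cnt_ex {m : ℕ} [NeZero m] (t : ℤ) (x : ZMod (2 * m)) :
    ∃ s < m, x = ((t + s : ℤ) : ZMod (2 * m)) ∨
      x = ((t + s : ℤ) : ZMod (2 * m)) + (m : ZMod (2 * m)) := by
  have hx : (x - (t : ZMod (2 * m))).val < 2 * m := ZMod.val_lt _
  have h0 : x = (t : ZMod (2 * m)) + (((x - (t : ZMod (2 * m))).val : ℕ) : ZMod (2 * m)) := by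
    rw [ZMod.natCast_zmod_val]
    ring
  rcases lt_or_ge (x - (t : ZMod (2 * m))).val m with h | h
  · refine ⟨(x - (t : ZMod (2 * m))).val, h, Or.inl ?_⟩
    rw [Int.cast_add, Int.cast_natCast]
    exact h0
  · refine ⟨(x - (t : ZMod (2 * m))).val - m, by omega, Or.inr ?_⟩
    rw [Cnt_shift, Nat.sub_add_cancel h, Int.cast_add, Int.cast_natCast]
    exact h0

/-- the set of a triple -/
private def Cnt_g (m : ℕ) (t : ℤ) (X Y : Finset ℕ) : Finset (ZMod (2 * m)) :=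
  X.image (fun s : ℕ => ((t + s : ℤ) : ZMod (2 * m))) ∪
    Y.image (fun s : ℕ => ((t + s : ℤ) : ZMod (2 * m)) + (m : ZMod (2 * m)))

open Classical in
/-- the second part -/
private noncomputable def Cnt_y (m : ℕ) (t : ℤ) (N : Finset (ZMod (2 * m))) : Finset ℕ :=
  (range m).filter fun s : ℕ => ((t + s : ℤ) : ZMod (2 * m)) + (m : ZMod (2 * m)) ∈ N

private theorem Cnt_mem1 {m : ℕ} {t : ℤ} {X Y : Finset ℕ} (hX : X ⊆ range m)
    (hY : Y ⊆ range m \ X) {s : ℕ} (hs : s < m) :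
    ((t + s : ℤ) : ZMod (2 * m)) ∈ Cnt_g m t X Y ↔ s ∈ X := by
  unfold Cnt_g
  rw [mem_union, mem_image, mem_image]
  constructor
  · rintro (⟨u, hu, h⟩ | ⟨u, hu, h⟩)
    · have hu' := mem_range.1 (hX hu)
      have := Cnt_inj t (by omega) (by omega) h
      rwa [← this]
    · have hu' := mem_range.1 (mem_sdiff.1 (hY hu)).1
      exact absurd h.symm (Cnt_ne t hs hu')
  · exact fun h => Or.inl ⟨s, h, rfl⟩

private theorem Cnt_mem2 {m : ℕ} {t : ℤ} {X Y : Finset ℕ} (hX : X ⊆ range m)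
    (hY : Y ⊆ range m \ X) {s : ℕ} (hs : s < m) :
    ((t + s : ℤ) : ZMod (2 * m)) + (m : ZMod (2 * m)) ∈ Cnt_g m t X Y ↔ s ∈ Y := by
  unfold Cnt_g
  rw [mem_union, mem_image, mem_image]
  constructor
  · rintro (⟨u, hu, h⟩ | ⟨u, hu, h⟩)
    · have hu' := mem_range.1 (hX hu)
      exact absurd h (Cnt_ne t hu' hs)
    · have hu' := mem_range.1 (mem_sdiff.1 (hY hu)).1
      have := Cnt_inj t (by omega) (by omega) (add_right_cancel h)
      rwa [← this]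
  · exact fun h => Or.inr ⟨s, h, rfl⟩

private theorem Cnt_xsub {m : ℕ} (t : ℤ) (N : Finset (ZMod (2 * m))) :
    Xp m N t ⊆ range m := by
  unfold Xp
  exact filter_subset _ _

private theorem Cnt_xmem {m : ℕ} (t : ℤ) (N : Finset (ZMod (2 * m))) (s : ℕ) :
    s ∈ Xp m N t ↔ s < m ∧ ((t + s : ℤ) : ZMod (2 * m)) ∈ N := by
  unfold Xp
  rw [mem_filter, mem_range]

private theorem Cnt_ymem {m : ℕ} (t : ℤ) (N : Finset (ZMod (2 * m))) (s : ℕ) :
    s ∈ Cnt_y m t N ↔ s < m ∧ ((t + s : ℤ) : ZMod (2 * m)) + (m : ZMod (2 * m)) ∈ N := by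
  unfold Cnt_y
  rw [mem_filter, mem_range]

private theorem Cnt_ysub {m : ℕ} (t : ℤ) {N : Finset (ZMod (2 * m))} (hN : AF m N) :
    Cnt_y m t N ⊆ range m \ Xp m N t := by
  intro s hs
  rw [Cnt_ymem] at hs
  rw [mem_sdiff, mem_range, Cnt_xmem]
  exact ⟨hs.1, fun h => hN _ h.2 hs.2⟩

private theorem Cnt_gf {m : ℕ} [NeZero m] (t : ℤ) {N : Finset (ZMod (2 * m))} (hN : AF m N) :
    Cnt_g m t (Xp m N t) (Cnt_y m t N) = N := by
  ext x
  obtain ⟨s, hs, rfl | rfl⟩ := Cnt_ex t x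
  · rw [Cnt_mem1 (Cnt_xsub t N) (Cnt_ysub t hN) hs, Cnt_xmem]
    exact ⟨fun h => h.2, fun h => ⟨hs, h⟩⟩
  · rw [Cnt_mem2 (Cnt_xsub t N) (Cnt_ysub t hN) hs, Cnt_ymem]
    exact ⟨fun h => h.2, fun h => ⟨hs, h⟩⟩

private theorem Cnt_xg {m : ℕ} {t : ℤ} {X Y : Finset ℕ} (hX : X ⊆ range m)
    (hY : Y ⊆ range m \ X) : Xp m (Cnt_g m t X Y) t = X := by
  ext s
  rw [Cnt_xmem]
  constructor
  · rintro ⟨hs, h⟩
    exact (Cnt_mem1 hX hY hs).1 h
  · intro h
    have hs := mem_range.1 (hX h)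
    exact ⟨hs, (Cnt_mem1 hX hY hs).2 h⟩

private theorem Cnt_yg {m : ℕ} {t : ℤ} {X Y : Finset ℕ} (hX : X ⊆ range m)
    (hY : Y ⊆ range m \ X) : Cnt_y m t (Cnt_g m t X Y) = Y := by
  ext s
  rw [Cnt_ymem]
  constructor
  · rintro ⟨hs, h⟩
    exact (Cnt_mem2 hX hY hs).1 h
  · intro h
    have hs := mem_range.1 (mem_sdiff.1 (hY h)).1
    exact ⟨hs, (Cnt_mem2 hX hY hs).2 h⟩

private theorem Cnt_card {m : ℕ} {t : ℤ} {X Y : Finset ℕ} (hX : X ⊆ range m)
    (hY : Y ⊆ range m \ X) : (Cnt_g m t X Y).card = X.card + Y.card := by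
  unfold Cnt_g
  rw [card_union_of_disjoint, card_image_of_injOn, card_image_of_injOn]
  · intro s hs u hu h
    have hs' := mem_range.1 (mem_sdiff.1 (hY (mem_coe.1 hs))).1
    have hu' := mem_range.1 (mem_sdiff.1 (hY (mem_coe.1 hu))).1
    exact Cnt_inj t (by omega) (by omega) (add_right_cancel h)
  · intro s hs u hu h
    have hs' := mem_range.1 (hX (mem_coe.1 hs))
    have hu' := mem_range.1 (hX (mem_coe.1 hu))
    exact Cnt_inj t (by omega) (by omega) h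
  · rw [disjoint_left]
    intro x hx hx'
    obtain ⟨s, hs, rfl⟩ := mem_image.1 hx
    obtain ⟨u, hu, h⟩ := mem_image.1 hx'
    exact Cnt_ne t (mem_range.1 (hX hs)) (mem_range.1 (mem_sdiff.1 (hY hu)).1) h.symm

private theorem Cnt_AF {m : ℕ} [NeZero m] {t : ℤ} {X Y : Finset ℕ} (hX : X ⊆ range m)
    (hY : Y ⊆ range m \ X) : AF m (Cnt_g m t X Y) := by
  intro x hx hx'
  obtain ⟨s, hs, rfl | rfl⟩ := Cnt_ex t x
  · exact (mem_sdiff.1 (hY ((Cnt_mem2 hX hY hs).1 hx'))).2 ((Cnt_mem1 hX hY hs).1 hx)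
  · rw [add_assoc, Cnt_two, add_zero] at hx'
    exact (mem_sdiff.1 (hY ((Cnt_mem2 hX hY hs).1 hx))).2 ((Cnt_mem1 hX hY hs).1 hx')

private theorem Cnt_le {m : ℕ} [NeZero m] (t : ℤ) {N : Finset (ZMod (2 * m))} (hN : AF m N) :
    (Xp m N t).card ≤ N.card := by
  have h := Cnt_card (t := t) (Cnt_xsub t N) (Cnt_ysub t hN)
  rw [Cnt_gf t hN] at h
  omega

open Classical in
/-- the sets with a given part in the window -/
private theorem Cnt_fib {m : ℕ} [NeZero m] (k : ℕ) (t : ℤ) (X : Finset ℕ) (hX : X ⊆ range m)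
    (hk : X.card ≤ k) :
    (univ.filter fun N : Finset (ZMod (2 * m)) => AF m N ∧ N.card = k ∧ Xp m N t = X).card =
      (m - X.card).choose (k - X.card) := by
  have key : (powersetCard (k - X.card) (range m \ X)).card =
      (m - X.card).choose (k - X.card) := by
    rw [card_powersetCard, card_sdiff_of_subset hX, card_range]
  rw [← key]
  refine card_bij' (fun N _ => Cnt_y m t N) (fun Y _ => Cnt_g m t X Y) ?_ ?_ ?_ ?_
  · intro N hN
    obtain ⟨_, h1, h2, h3⟩ := mem_filter.1 hN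
    have h4 := Cnt_card (t := t) (Cnt_xsub t N) (Cnt_ysub t h1)
    rw [Cnt_gf t h1] at h4
    have h5 := Cnt_ysub t h1
    rw [h3] at h4 h5
    rw [mem_powersetCard]
    exact ⟨h5, by omega⟩
  · intro Y hY
    rw [mem_powersetCard] at hY
    rw [mem_filter]
    exact ⟨mem_univ _, Cnt_AF hX hY.1, by rw [Cnt_card hX hY.1, hY.2]; omega, Cnt_xg hX hY.1⟩
  · intro N hN
    obtain ⟨_, h1, _, h3⟩ := mem_filter.1 hN
    have h4 := Cnt_gf t h1
    rw [h3] at h4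
    exact h4
  · intro Y hY
    rw [mem_powersetCard] at hY
    exact Cnt_yg hX hY.1

private theorem Cnt_up (hW : St_Win) {m : ℕ} [NeZero m] {r θ : ℤ → ℝ} (hC : Cf m r θ)
    {N : Finset (ZMod (2 * m))} (hN : AF m N) (t : ℤ) :
    Up m r θ t (Xp m N t) ↔ 0 < D m r θ N (θ t) ∧ D m r θ N (θ (t - 1)) ≤ 0 := by
  have hmono : θ (t - 1) ≤ θ t := hC.mono (by omega)
  have h1 := (hW m r θ hC N hN t (θ t) hmono le_rfl).2
  have h2 := (hW m r θ hC N hN t (θ (t - 1)) le_rfl hmono).2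
  unfold Up
  rw [h1, h2]
  constructor
  · rintro ⟨h3, h4⟩
    exact ⟨by linarith, by linarith⟩
  · rintro ⟨h3, h4⟩
    exact ⟨by linarith, by linarith⟩

theorem thm_Cnt (hW : St_Win) (hS : St_Sta) : St_Cnt := by
  classical
  intro m _ r θ hC k
  have hex : ∀ N : Finset (ZMod (2 * m)), ∃ t : ℕ, (AF m N ∧ ∃ α, 0 < D m r θ N α) →
      t < 2 * m ∧ 0 < D m r θ N (θ (t : ℤ)) ∧ D m r θ N (θ ((t : ℤ) - 1)) ≤ 0 := by
    intro N
    by_cases h : AF m N ∧ ∃ α, 0 < D m r θ N α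
    · obtain ⟨t, ht, _⟩ := hS m r θ hC N h.1 h.2
      exact ⟨t, fun _ => ht⟩
    · exact ⟨0, fun h' => absurd h' h⟩
  choose f hf using hex
  unfold nf
  rw [card_eq_sum_card_fiberwise (f := fun N => (f N, Xp m N (f N : ℤ))) (t := ev m r θ k)]
  · refine sum_congr rfl ?_
    rintro ⟨t, X⟩ he
    unfold ev at he
    rw [mem_filter, mem_product, mem_range, mem_powerset] at he
    obtain ⟨⟨ht, hX⟩, hU, hk⟩ := he
    simp only at ht hX hU hk ⊢
    rw [← Cnt_fib k (t : ℤ) X hX hk]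
    congr 1
    ext N
    rw [mem_filter, mem_filter, mem_filter]
    constructor
    · rintro ⟨⟨_, h1, h2, h3⟩, h4⟩
      rw [Prod.mk.injEq] at h4
      refine ⟨mem_univ _, h1, h2, ?_⟩
      rw [← h4.1]
      exact h4.2
    · rintro ⟨_, h1, h2, h3⟩
      have h4 : 0 < D m r θ N (θ (t : ℤ)) ∧ D m r θ N (θ ((t : ℤ) - 1)) ≤ 0 := by
        rw [← Cnt_up hW hC h1, h3]
        exact hU
      have h5 : ∃ α, 0 < D m r θ N α := ⟨_, h4.1⟩
      obtain ⟨u, _, hu⟩ := hS m r θ hC N h1 h5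
      have e1 := hu (f N) (hf N ⟨h1, h5⟩)
      have e2 := hu t ⟨ht, h4⟩
      have e3 : f N = t := by rw [e1, e2]
      refine ⟨⟨mem_univ _, h1, h2, h5⟩, ?_⟩
      rw [e3, h3]
  · intro N hN
    rw [mem_coe, mem_filter] at hN
    obtain ⟨_, h1, h2, h3⟩ := hN
    obtain ⟨h4, h5⟩ := hf N ⟨h1, h3⟩
    rw [mem_coe]
    unfold ev
    rw [mem_filter, mem_product, mem_range, mem_powerset]
    refine ⟨⟨h4, Cnt_xsub _ N⟩, (Cnt_up hW hC h1 _).2 h5, ?_⟩
    rw [← h2]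
    exact Cnt_le _ h1

end Pool.CSG
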