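import Pool.Agent.CSG.St

set_option autoImplicit false

open Finset Real Pool.CS4

namespace Pool.CSG

/-- the weight changes its sign after half a turn -/
private theorem Cvx_w_pi (r θ : ℤ → ℝ) (j : ℤ) (a : ℝ) : w r θ j (a + π) = -w r θ j a := by
  unfold w
  rw [show θ j - (a + π) = (θ j - a) - π by ring, Real.sin_sub_pi]
  ring

private theorem Cvx_w_two (r θ : ℤ → ℝ) (j : ℤ) (a : ℝ) : w r θ j (a + 2 * π) = w r θ j a := by
  rw [show a + 2 * π = (a + π) + π by ring, Cvx_w_pi, Cvx_w_pi, neg_neg]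

private theorem Cvx_T_add (m : ℕ) (r θ : ℤ → ℝ) (N : Finset (ZMod (2 * m))) (a : ℝ) (j : ℤ) :
    T m r θ N (a + π) j + T m r θ N a j ≤ 0 := by
  unfold T
  rw [Cvx_w_pi]
  split_ifs
  · linarith
  · linarith
  · rw [abs_neg]
    have := abs_nonneg (w r θ j a)
    linarith

private theorem Cvx_T_two (m : ℕ) (r θ : ℤ → ℝ) (N : Finset (ZMod (2 * m))) (a : ℝ) (j : ℤ) :
    T m r θ N (a + 2 * π) j = T m r θ N a j := by
  unfold T
  rw [Cvx_w_two]

private theorem Cvx_sin (u a b x : ℝ) :
    sin (b - a) * sin (u - x) = sin (b - x) * sin (u - a) + sin (x - a) * sin (u - b) := by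
  simp only [Real.sin_sub]
  have h1 := Real.sin_sq_add_cos_sq a
  have h2 := Real.sin_sq_add_cos_sq b
  have h3 := Real.sin_sq_add_cos_sq x
  ring_nf

private theorem Cvx_w_lin (r θ : ℤ → ℝ) (j : ℤ) (a b x : ℝ) :
    sin (b - a) * w r θ j x = sin (b - x) * w r θ j a + sin (x - a) * w r θ j b := by
  have h := Cvx_sin (θ j) a b x
  unfold w
  linear_combination (r j) * h

private theorem Cvx_T_lin (m : ℕ) (r θ : ℤ → ℝ) (N : Finset (ZMod (2 * m))) (a b x : ℝ) (j : ℤ)
    (h1 : 0 ≤ sin (b - a)) (h2 : 0 ≤ sin (b - x)) (h3 : 0 ≤ sin (x - a)) :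
    sin (b - x) * T m r θ N a j + sin (x - a) * T m r θ N b j ≤ sin (b - a) * T m r θ N x j := by
  have h := Cvx_w_lin r θ j a b x
  unfold T
  split_ifs
  · linarith
  · linarith
  · have h4 : |sin (b - a) * w r θ j x| ≤
        |sin (b - x) * w r θ j a| + |sin (x - a) * w r θ j b| := by
      rw [h]
      exact abs_add_le _ _
    rw [abs_mul, abs_mul, abs_mul, abs_of_nonneg h1, abs_of_nonneg h2, abs_of_nonneg h3] at h4
    linarith

theorem thm_Cvx : St_Cvx := by
  intro m r θ N a b x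
  refine ⟨?_, ?_, ?_⟩
  · unfold D
    rw [← Finset.sum_add_distrib]
    exact Finset.sum_nonpos fun s _ => Cvx_T_add m r θ N a s
  · unfold D
    exact Finset.sum_congr rfl fun s _ => Cvx_T_two m r θ N a s
  · intro hax hxb hba ha hb
    rcases eq_or_lt_of_le hax with h | hax'
    · rw [← h]
      exact ha
    rcases eq_or_lt_of_le hxb with h | hxb'
    · rw [h]
      exact hb
    have h1 : 0 < sin (b - a) := Real.sin_pos_of_pos_of_lt_pi (by linarith) (by linarith)
    have h2 : 0 < sin (b - x) := Real.sin_pos_of_pos_of_lt_pi (by linarith) (by linarith)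
    have h3 : 0 < sin (x - a) := Real.sin_pos_of_pos_of_lt_pi (by linarith) (by linarith)
    have key : sin (b - x) * D m r θ N a + sin (x - a) * D m r θ N b ≤
        sin (b - a) * D m r θ N x := by
      unfold D
      rw [Finset.mul_sum, Finset.mul_sum, Finset.mul_sum, ← Finset.sum_add_distrib]
      exact Finset.sum_le_sum fun s _ => Cvx_T_lin m r θ N a b x s h1.le h2.le h3.le
    have h4 : 0 < sin (b - a) * D m r θ N x :=
      lt_of_lt_of_le (add_pos (mul_pos h2 ha) (mul_pos h3 hb)) key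
    exact (mul_pos_iff_of_pos_left h1).1 h4

end Pool.CSG
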