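import Pool.Agent.CS4.Gap

/-!
# CSG: centrally symmetric simplicial `d`-polytopes with `2 d + 4` vertices (MP_54ed1a_co)

Planar centrally symmetric Gale diagrams, as sequences of lengths `r` and of sorted angles `θ`.
The vertices of the polytope are indexed by `ZMod (2 * m)`, `m = d + 2`; the antipode of `x` is `x + m`.
Paper: /team-store/CS_gl_page.md
-/

set_option autoImplicit false

open Finset Real

noncomputable section

namespace Pool.CSG

open Pool.CS4

/-- `N` contains no antipodal pair -/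
def AF (m : ℕ) (N : Finset (ZMod (2 * m))) : Prop := ∀ x ∈ N, x + (m : ZMod (2 * m)) ∉ N

/-- a sorted planar configuration of `m` vectors `r j * (cos (θ j), sin (θ j))`, continued by
`θ (j + m) = θ j + π`; the vectors span the plane -/
structure Cf (m : ℕ) (r θ : ℤ → ℝ) : Prop where
  rn : ∀ j, 0 ≤ r j
  rp : ∀ j, r (j + m) = r j
  mono : Monotone θ
  tp : ∀ j, θ (j + m) = θ j + π
  sp : ∀ α : ℝ, ∃ j : ℤ, r j * sin (θ j - α) ≠ 0

/-- the value of the vector number `j` in the direction `α` -/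
def w (r θ : ℤ → ℝ) (j : ℤ) (α : ℝ) : ℝ := r j * sin (θ j - α)

open Classical in
/-- the contribution of the pair `j`, `j + m` -/
def T (m : ℕ) (r θ : ℤ → ℝ) (N : Finset (ZMod (2 * m))) (α : ℝ) (j : ℤ) : ℝ :=
  if ((j : ℤ) : ZMod (2 * m)) ∈ N then w r θ j α
  else if ((j + m : ℤ) : ZMod (2 * m)) ∈ N then -w r θ j α
  else -|w r θ j α|

/-- the excess of `N` in the direction `α`; `N` is not a face iff it is somewhere positive -/
def D (m : ℕ) (r θ : ℤ → ℝ) (N : Finset (ZMod (2 * m))) (α : ℝ) : ℝ :=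
  ∑ s ∈ range m, T m r θ N α (s : ℤ)

open Classical in
/-- the part of `N` in the window `t, …, t + m - 1`, shifted to `0, …, m - 1` -/
def Xp (m : ℕ) (N : Finset (ZMod (2 * m))) (t : ℤ) : Finset ℕ :=
  (range m).filter fun s => ((t + s : ℤ) : ZMod (2 * m)) ∈ N

/-- an event: the part `X` of the window `t, …, t + m - 1` has more than half of the weight at the
ray `t` and not more than half of the weight at the ray `t - 1` -/
def Up (m : ℕ) (r θ : ℤ → ℝ) (t : ℤ) (X : Finset ℕ) : Prop :=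
  ∑ s ∈ range m, w r θ (t + s) (θ t) < 2 * ∑ s ∈ X, w r θ (t + s) (θ t) ∧
  2 * ∑ s ∈ X, w r θ (t + s) (θ (t - 1)) ≤ ∑ s ∈ range m, w r θ (t + s) (θ (t - 1))

open Classical in
/-- the block `q, …, q + l - 1` -/
def Blk (m l : ℕ) (q : ℤ) : Finset (ZMod (2 * m)) :=
  (range l).image fun s : ℕ => ((q + s : ℤ) : ZMod (2 * m))

/-- every set without antipodal pairs is a face or has a strictly separating direction -/
def Dich (m : ℕ) (r θ : ℤ → ℝ) : Prop :=
  ∀ N : Finset (ZMod (2 * m)), AF m N → (∃ α, 0 < D m r θ N α) ∨ ∀ α, D m r θ N α < 0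

open Classical in
/-- the number of the sets with `k` elements, without antipodal pairs, which are not faces -/
def nf (m : ℕ) [NeZero m] (r θ : ℤ → ℝ) (k : ℕ) : ℕ :=
  (univ.filter fun N : Finset (ZMod (2 * m)) => AF m N ∧ N.card = k ∧ ∃ α, 0 < D m r θ N α).card

open Classical in
/-- the events with at most `k` elements -/
def ev (m : ℕ) (r θ : ℤ → ℝ) (k : ℕ) : Finset (ℕ × Finset ℕ) :=
  ((range (2 * m)) ×ˢ (range m).powerset).filter fun e =>
    Up m r θ (e.1 : ℤ) e.2 ∧ e.2.card ≤ k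

/-- `v` lists the vertices of the polytope `V`, with antipode `v (j + m) = -v j`, and `r`, `θ` is
its planar diagram -/
structure Rep (d m : ℕ) (V : Finset (E d)) (v : ℤ → E d) (r θ : ℤ → ℝ) : Prop where
  cf : Cf m r θ
  neg : ∀ j, v (j + m) = -v j
  mem : ∀ u, u ∈ V ↔ ∃ j : ℕ, j < 2 * m ∧ v (j : ℤ) = u
  inj : ∀ i j : ℕ, i < 2 * m → j < 2 * m → v (i : ℤ) = v (j : ℤ) → i = j
  dep : ∀ c : ℕ → ℝ, ∑ s ∈ range m, c s • v (s : ℤ) = 0 ↔
    ∃ ρ α : ℝ, ∀ s < m, c s = ρ * w r θ (s : ℤ) α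

/-- the vertex with the index `x` -/
def vz {d : ℕ} (m : ℕ) (v : ℤ → E d) (x : ZMod (2 * m)) : E d := v ((x.val : ℕ) : ℤ)

/-- `h_i` of a sequence of face numbers, `f k = f_{k-1}` -/
def hh (d : ℕ) (f : ℕ → ℤ) (i : ℕ) : ℤ :=
  ∑ j ∈ range (i + 1), (-1 : ℤ) ^ (i - j) * ((d - j).choose (i - j) : ℤ) * f j

end Pool.CSG
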