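import Pool.Agent.CSG.St

/-!
# CSG: the two halves of the module Fac
-/

set_option autoImplicit false

open Finset Real Pool.CS4

noncomputable section

namespace Pool.CSG

/-- [Fac1] (uses [Zon]) first half, see `St_Fac` -/
def St_Fac1 : Prop := ∀ (d m : ℕ) [NeZero m] (V : Finset (E d)) (v : ℤ → E d) (r θ : ℤ → ℝ),
  1 ≤ d → IsCSSimplicial d V → Rep d m V v r θ → ∀ N : Finset (ZMod (2 * m)), AF m N →
  (∀ α, D m r θ N α ≤ 0) → IsFace V (N.image (vz m v)) ∧ N.image (vz m v) ≠ V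

/-- [Fac2] second half, see `St_Fac` -/
def St_Fac2 : Prop := ∀ (d m : ℕ) [NeZero m] (V : Finset (E d)) (v : ℤ → E d) (r θ : ℤ → ℝ),
  1 ≤ d → IsCSSimplicial d V → Rep d m V v r θ → ∀ N : Finset (ZMod (2 * m)), AF m N →
  IsFace V (N.image (vz m v)) → N.image (vz m v) ≠ V → ∀ α, D m r θ N α < 0

theorem fac_of (h1 : St_Fac1) (h2 : St_Fac2) : St_Fac := by
  intro d m _ V v r θ hd hV hR N hN
  exact ⟨h1 d m V v r θ hd hV hR N hN, h2 d m V v r θ hd hV hR N hN⟩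

end Pool.CSG
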