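import Pool.Agent.CSG.FSt
import Pool.Agent.CS4.GConf

/-!
# CSG, module Fac2
-/

set_option autoImplicit false

open Finset Real Pool.CS4

noncomputable section

namespace Pool.CSG

private theorem Fac2_w {m : ℕ} {r θ : ℤ → ℝ} (h : Cf m r θ) (j : ℤ) (α : ℝ) :
    w r θ (j + m) α = -w r θ j α := by
  unfold w
  rw [h.rp, h.tp]
  have : θ j + π - α = θ j - α + π := by ring
  rw [this, sin_add_pi]
  ring

private theorem Fac2_all {m : ℕ} {r θ : ℤ → ℝ} (h : Cf m r θ) (hm : 0 < m) (α : ℝ)
    (h0 : ∀ s < m, w r θ ((s : ℕ) : ℤ) α = 0) : False := by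
  obtain ⟨j, hj⟩ := h.sp α
  apply hj
  change w r θ j α = 0
  have hm0 : (0 : ℤ) < m := by exact_mod_cast hm
  have key : ∀ (q : ℤ) (s : ℤ), w r θ s α = 0 → w r θ (s + q * m) α = 0 := by
    intro q
    induction q using Int.induction_on with
    | zero => intro s hs; rw [zero_mul, add_zero]; exact hs
    | succ n ih =>
      intro s hs
      have e : s + ((n : ℤ) + 1) * m = (s + n * m) + m := by ring
      rw [e, Fac2_w h, ih s hs, neg_zero]
    | pred n ih =>
      intro s hs
      have e : (s + (-(n : ℤ) - 1) * m) + m = s + -(n : ℤ) * m := by ring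
      have h1 := Fac2_w h (s + (-(n : ℤ) - 1) * m) α
      rw [e, ih s hs] at h1
      linarith
  have h1 := Int.emod_nonneg j hm0.ne'
  have h2 := Int.emod_lt_of_pos j hm0
  have h3 := key (j / m) (j % m) (by
    have := h0 (j % m).toNat (by omega)
    rw [Int.toNat_of_nonneg h1] at this
    exact this)
  have e : j % (m : ℤ) + j / m * m = j := by
    have := Int.emod_add_mul_ediv j m
    linarith
  rw [e] at h3
  exact h3

private theorem Fac2_inj {d m : ℕ} [NeZero m] {V : Finset (E d)} {v : ℤ → E d} {r θ : ℤ → ℝ}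
    (h : Rep d m V v r θ) : Function.Injective (vz m v) := by
  intro x y hxy
  have h1 := h.inj x.val y.val (ZMod.val_lt x) (ZMod.val_lt y) hxy
  exact ZMod.val_injective _ h1

private theorem Fac2_vz {d m : ℕ} (v : ℤ → E d) (s : ℕ) (hs : s < 2 * m) :
    vz m v ((s : ℤ) : ZMod (2 * m)) = v (s : ℤ) := by
  unfold vz
  rw [Int.cast_natCast, ZMod.val_natCast, Nat.mod_eq_of_lt hs]

private theorem Fac2_val {m : ℕ} (s : ℕ) (hs : s < 2 * m) :
    ((s : ℤ) : ZMod (2 * m)).val = s := by
  rw [Int.cast_natCast, ZMod.val_natCast, Nat.mod_eq_of_lt hs]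

open Classical in
private theorem Fac2_sum {M : Type} [AddCommMonoid M] {m : ℕ} [NeZero m]
    (N : Finset (ZMod (2 * m))) (F : ℕ → M) :
    ∑ x ∈ N, F x.val = ∑ s ∈ range m, ((if ((s : ℤ) : ZMod (2 * m)) ∈ N then F s else 0) +
      (if ((s + m : ℤ) : ZMod (2 * m)) ∈ N then F (s + m) else 0)) := by
  have e1 : ∑ x ∈ N, F x.val = ∑ x : ZMod (2 * m), if x ∈ N then F x.val else 0 := by
    rw [← Finset.sum_filter]
    apply Finset.sum_congr _ (fun _ _ => rfl)
    ext x
    simp
  have e2 : ∑ x : ZMod (2 * m), (if x ∈ N then F x.val else 0) =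
      ∑ j ∈ range (2 * m), if ((j : ℤ) : ZMod (2 * m)) ∈ N then F j else 0 := by
    apply Finset.sum_nbij' (i := ZMod.val) (j := fun j : ℕ => ((j : ℤ) : ZMod (2 * m)))
    · intro x _
      exact mem_range.2 (ZMod.val_lt x)
    · intro j _
      exact mem_univ _
    · intro x _
      rw [Int.cast_natCast, ZMod.natCast_zmod_val]
    · intro j hj
      exact Fac2_val j (mem_range.1 hj)
    · intro x _
      rw [Int.cast_natCast, ZMod.natCast_zmod_val]
  have e4 : ∀ G : ℕ → M, ∑ j ∈ range (2 * m), G j = ∑ s ∈ range m, (G s + G (m + s)) := by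
    intro G
    rw [two_mul, Finset.sum_range_add, ← Finset.sum_add_distrib]
  rw [e1, e2, e4]
  apply Finset.sum_congr rfl
  intro s _
  have e3 : (((m + s : ℕ) : ℤ) : ZMod (2 * m)) = ((s + m : ℤ) : ZMod (2 * m)) := by
    push_cast
    ring
  rw [e3, Nat.add_comm m s]

theorem thm_Fac2 : St_Fac2 := by
  classical
  intro d m _ V v r θ hd hV hR N hN hf hne α
  have hm : 0 < m := Nat.pos_of_ne_zero (NeZero.ne m)
  have hface := hf
  obtain ⟨hsub, l, c, h1, h2⟩ := hf
  have hc := gconf_pos hV.symm hsub l c h1 h2 hne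
  have hinj := Fac2_inj hR
  have hdep0 : ∑ s ∈ range m, w r θ (s : ℤ) α • v (s : ℤ) = 0 :=
    (hR.dep (fun s => w r θ (s : ℤ) α)).2 ⟨1, α, fun s _ => by rw [one_mul]⟩
  have hdep : ∑ s ∈ range m, w r θ (s : ℤ) α * l (v (s : ℤ)) = 0 := by
    have := congrArg l hdep0
    rw [map_sum, map_zero] at this
    rw [← this]
    apply Finset.sum_congr rfl
    intro s _
    rw [map_smul, smul_eq_mul]
  have hval : ∀ x ∈ N, l (vz m v x) = c := fun x hx => h1 _ (mem_image_of_mem _ hx)
  have hlt : ∀ x, x ∉ N → l (vz m v x) < c := by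
    intro x hx
    apply h2
    · rw [hR.mem]
      exact ⟨x.val, ZMod.val_lt x, rfl⟩
    · intro hx2
      rw [mem_image] at hx2
      obtain ⟨y, hy, hyx⟩ := hx2
      rw [hinj hyx] at hy
      exact hx hy
  have hzm : ∀ s : ℕ, s < m → vz m v ((s + m : ℤ) : ZMod (2 * m)) = -v (s : ℤ) := by
    intro s hs
    have := Fac2_vz (m := m) v (s + m) (by omega)
    rw [← hR.neg]
    push_cast at this ⊢
    exact this
  -- the single terms
  have hterm : ∀ s ∈ range m, T m r θ N α (s : ℤ) * c - w r θ (s : ℤ) α * l (v (s : ℤ)) ≤ 0 := by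
    intro s hs
    rw [mem_range] at hs
    unfold T
    split_ifs with ha hb
    · have := hval _ ha
      rw [Fac2_vz v s (by omega)] at this
      rw [this, sub_self]
    · have := hval _ hb
      rw [hzm s hs, map_neg] at this
      have h3 : l (v (s : ℤ)) = -c := by linarith
      rw [h3]
      exact le_of_eq (by ring)
    · have ha' := hlt _ ha
      have hb' := hlt _ hb
      rw [Fac2_vz v s (by omega)] at ha'
      rw [hzm s hs, map_neg] at hb'
      have h3 : |l (v (s : ℤ))| ≤ c := by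
        rw [abs_le]
        constructor <;> linarith
      have h4 : -(w r θ (s : ℤ) α * l (v (s : ℤ))) ≤ |w r θ (s : ℤ) α| * c := by
        refine (neg_le_abs _).trans ?_
        rw [abs_mul]
        exact mul_le_mul_of_nonneg_left h3 (abs_nonneg _)
      linarith
  have hsum : D m r θ N α * c =
      ∑ s ∈ range m, (T m r θ N α (s : ℤ) * c - w r θ (s : ℤ) α * l (v (s : ℤ))) := by
    rw [Finset.sum_sub_distrib, hdep, sub_zero]
    unfold D
    rw [Finset.sum_mul]
  by_contra hcon
  push Not at hcon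
  have h3 : 0 ≤ D m r θ N α * c := mul_nonneg hcon hc.le
  have h4 := Finset.sum_nonpos hterm
  have h5 : ∑ s ∈ range m, (T m r θ N α (s : ℤ) * c - w r θ (s : ℤ) α * l (v (s : ℤ))) = 0 :=
    le_antisymm h4 (by rw [← hsum]; exact h3)
  have h6 := (Finset.sum_eq_zero_iff_of_nonpos hterm).1 h5
  have hoff : ∀ s < m, ((s : ℤ) : ZMod (2 * m)) ∉ N → ((s + m : ℤ) : ZMod (2 * m)) ∉ N →
      w r θ (s : ℤ) α = 0 := by
    intro s hs ha hb
    have h7 := h6 s (mem_range.2 hs)
    unfold T at h7
    rw [if_neg ha, if_neg hb] at h7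
    have ha' := hlt _ ha
    have hb' := hlt _ hb
    rw [Fac2_vz v s (by omega)] at ha'
    rw [hzm s hs, map_neg] at hb'
    have h8 : |l (v (s : ℤ))| < c := by
      rw [abs_lt]
      constructor <;> linarith
    have h9 : -(w r θ (s : ℤ) α * l (v (s : ℤ))) ≤ |w r θ (s : ℤ) α| * |l (v (s : ℤ))| := by
      rw [← abs_mul]
      exact neg_le_abs _
    by_contra h0
    have h10 : 0 < |w r θ (s : ℤ) α| := abs_pos.2 h0
    have h11 := mul_lt_mul_of_pos_left h8 h10
    linarith
  -- the dependency of the vertices of the face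
  have hg1 : ∑ x ∈ N, w r θ (x.val : ℤ) α • vz m v x = 0 := by
    have e := Fac2_sum N (fun j : ℕ => w r θ (j : ℤ) α • v (j : ℤ))
    have e' : ∑ x ∈ N, w r θ (x.val : ℤ) α • vz m v x =
        ∑ x ∈ N, (fun j : ℕ => w r θ (j : ℤ) α • v (j : ℤ)) x.val := rfl
    rw [e', e]
    refine Eq.trans ?_ hdep0
    apply Finset.sum_congr rfl
    intro s hs
    rw [mem_range] at hs
    have e3 : w r θ ((s + m : ℕ) : ℤ) α • v ((s + m : ℕ) : ℤ) = w r θ (s : ℤ) α • v (s : ℤ) := by
      push_cast
      rw [Fac2_w hR.cf, hR.neg, smul_neg, neg_smul, neg_neg]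
    by_cases ha : ((s : ℤ) : ZMod (2 * m)) ∈ N
    · have hb : ((s + m : ℤ) : ZMod (2 * m)) ∉ N := by
        have := hN _ ha
        push_cast at this ⊢
        exact this
      rw [if_pos ha, if_neg hb, add_zero]
    · by_cases hb : ((s + m : ℤ) : ZMod (2 * m)) ∈ N
      · rw [if_neg ha, if_pos hb, zero_add]
        exact e3
      · rw [if_neg ha, if_neg hb, hoff s hs ha hb, zero_smul, zero_add]
  have hg2 : ∑ x ∈ N, w r θ (x.val : ℤ) α = 0 := by
    have := congrArg l hg1
    rw [map_sum, map_zero] at this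
    have e : ∑ x ∈ N, l (w r θ (x.val : ℤ) α • vz m v x) = (∑ x ∈ N, w r θ (x.val : ℤ) α) * c := by
      rw [Finset.sum_mul]
      apply Finset.sum_congr rfl
      intro x hx
      rw [map_smul, smul_eq_mul, hval x hx]
    rw [e] at this
    rcases mul_eq_zero.1 this with h | h
    · exact h
    · exact absurd h hc.ne'
  have haff := hV.simplicial _ hface hne
  have haff2 : AffineIndependent ℝ (fun x : {x // x ∈ N} => vz m v (x : ZMod (2 * m))) :=
    haff.comp_embedding ⟨fun x : {x // x ∈ N} =>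
      (⟨vz m v x, mem_image_of_mem _ x.2⟩ : {y // y ∈ N.image (vz m v)}), by
        intro x y hxy
        apply Subtype.ext
        exact hinj (congrArg Subtype.val hxy)⟩
  rw [affineIndependent_iff] at haff2
  have h7 := haff2 univ (fun x => w r θ ((x : ZMod (2 * m)).val : ℤ) α)
    (by
      rw [← hg2]
      exact Finset.sum_coe_sort N (fun x => w r θ (x.val : ℤ) α))
    (by
      rw [← hg1]
      exact Finset.sum_coe_sort N (fun x => w r θ (x.val : ℤ) α • vz m v x))
  apply Fac2_all hR.cf hm α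
  intro s hs
  by_cases ha : ((s : ℤ) : ZMod (2 * m)) ∈ N
  · have := h7 ⟨_, ha⟩ (mem_univ _)
    simp only [Fac2_val s (show s < 2 * m by omega)] at this
    exact this
  · by_cases hb : ((s + m : ℤ) : ZMod (2 * m)) ∈ N
    · have := h7 ⟨_, hb⟩ (mem_univ _)
      have e : ((s + m : ℤ) : ZMod (2 * m)).val = s + m := by
        have := Fac2_val (m := m) (s + m) (by omega)
        push_cast at this ⊢
        exact this
      simp only [e] at this
      push_cast at this
      rw [Fac2_w hR.cf] at this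
      linarith
    · exact hoff s hs ha hb

end Pool.CSG
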