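import Pool.Agent.CSG.Fac1
import Pool.Agent.CSG.Fac2

/-!
# CSG, module Fac
-/

set_option autoImplicit false

namespace Pool.CSG

theorem thm_Fac (hZ : St_Zon) : St_Fac := fac_of (thm_Fac1 hZ) thm_Fac2

end Pool.CSG
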