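import Pool.Agent.CSG.FSt

/-!
# CSG, module Fac1: a set without a separating direction is a proper face
-/

set_option autoImplicit false

open Finset Real Pool.CS4

noncomputable section

namespace Pool.CSG

private theorem Fac1_wpi {r θ : ℤ → ℝ} (j : ℤ) (α : ℝ) :
    w r θ j (α + π) = -w r θ j α := by
  unfold w
  rw [show θ j - (α + π) = θ j - α - π by ring, sin_sub_pi]
  ring

private theorem Fac1_fun {d m : ℕ} {r θ : ℤ → ℝ} {v : ℤ → E d}
    (hdep : ∀ c : ℕ → ℝ, ∑ s ∈ range m, c s • v (s : ℤ) = 0 ↔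
      ∃ ρ α : ℝ, ∀ s < m, c s = ρ * w r θ (s : ℤ) α)
    {c : ℕ → ℝ} (hc : ∀ α, ∑ s ∈ range m, c s * w r θ (s : ℤ) α = 0) :
    ∃ l : E d →ₗ[ℝ] ℝ, ∀ s < m, l (v (s : ℤ)) = c s := by
  classical
  obtain ⟨A, hA⟩ : ∃ A : (Fin m → ℝ) →ₗ[ℝ] E d, ∀ b, A b = ∑ s, b s • v ((s : ℕ) : ℤ) :=
    ⟨Fintype.linearCombination ℝ (fun s : Fin m => v ((s : ℕ) : ℤ)),
      fun b => Fintype.linearCombination_apply ℝ _ b⟩
  obtain ⟨φ, hφ⟩ : ∃ φ : (Fin m → ℝ) →ₗ[ℝ] ℝ, ∀ b, φ b = ∑ s, b s • c (s : ℕ) :=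
    ⟨Fintype.linearCombination ℝ (fun s : Fin m => c (s : ℕ)),
      fun b => Fintype.linearCombination_apply ℝ _ b⟩
  have hker : φ ∈ (LinearMap.ker A).dualAnnihilator := by
    rw [Submodule.mem_dualAnnihilator]
    intro b hb
    rw [LinearMap.mem_ker, hA] at hb
    obtain ⟨f, hf⟩ : ∃ f : ℕ → ℝ, ∀ s : Fin m, f (s : ℕ) = b s :=
      ⟨fun s => if hs : s < m then b ⟨s, hs⟩ else 0, fun s => by simp⟩
    have h1 : ∑ s ∈ range m, f s • v (s : ℤ) = 0 := by
      rw [Finset.sum_range, ← hb]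
      exact Finset.sum_congr rfl fun s _ => by rw [hf]
    obtain ⟨ρ, α, h2⟩ := (hdep f).1 h1
    have h3 : φ b = ∑ s ∈ range m, f s * c s := by
      rw [hφ, Finset.sum_range]
      exact Finset.sum_congr rfl fun s _ => by rw [hf, smul_eq_mul]
    rw [h3]
    have h4 : ∑ s ∈ range m, f s * c s = ρ * ∑ s ∈ range m, c s * w r θ (s : ℤ) α := by
      rw [Finset.mul_sum]
      refine Finset.sum_congr rfl fun s hs => ?_
      rw [h2 s (mem_range.1 hs)]
      ring
    rw [h4, hc, mul_zero]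
  rw [← LinearMap.range_dualMap_eq_dualAnnihilator_ker] at hker
  obtain ⟨l, hl⟩ := hker
  refine ⟨l, fun s hs => ?_⟩
  have h1 := LinearMap.congr_fun hl (Pi.single ⟨s, hs⟩ 1)
  rw [LinearMap.dualMap_apply, hA, hφ] at h1
  rw [Finset.sum_eq_single_of_mem (⟨s, hs⟩ : Fin m) (mem_univ _),
    Finset.sum_eq_single_of_mem (⟨s, hs⟩ : Fin m) (mem_univ _)] at h1
  · simpa using h1
  · intro b _ hb
    rw [Pi.single_eq_of_ne hb, zero_smul]
  · intro b _ hb
    rw [Pi.single_eq_of_ne hb, zero_smul]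

/-- the coefficients of the functional -/
private theorem Fac1_coef (hZ : St_Zon) {m : ℕ} {r θ : ℤ → ℝ} {N : Finset (ZMod (2 * m))}
    (hD : ∀ α, D m r θ N α ≤ 0) (hN : AF m N) :
    ∃ c : ℕ → ℝ, (∀ s, |c s| ≤ 1) ∧ (∀ s : ℕ, ((s : ℤ) : ZMod (2 * m)) ∈ N → c s = 1) ∧
      (∀ s : ℕ, ((s + m : ℤ) : ZMod (2 * m)) ∈ N → c s = -1) ∧
      ∀ α, ∑ s ∈ range m, c s * w r θ (s : ℤ) α = 0 := by
  classical
  obtain ⟨e, he⟩ : ∃ e : ℕ → ℝ, ∀ s : ℕ, e s = if ((s : ℤ) : ZMod (2 * m)) ∈ N then 1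
      else if ((s + m : ℤ) : ZMod (2 * m)) ∈ N then -1 else 0 := ⟨_, fun _ => rfl⟩
  obtain ⟨R, hR⟩ : ∃ R : Finset ℕ, R = (range m).filter (fun s : ℕ =>
      ¬ ((s : ℤ) : ZMod (2 * m)) ∈ N ∧ ¬ ((s + m : ℤ) : ZMod (2 * m)) ∈ N) := ⟨_, rfl⟩
  have hw : ∀ (s : ℕ) (α : ℝ), w r θ (s : ℤ) α =
      r s * sin (θ s) * cos α + (-(r s * cos (θ s))) * sin α := by
    intro s α
    unfold w
    rw [sin_sub]
    ring
  have hDe : ∀ α, D m r θ N α = ∑ s ∈ range m, e s * w r θ (s : ℤ) α -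
      ∑ s ∈ R, |w r θ (s : ℤ) α| := by
    intro α
    unfold D
    rw [hR, Finset.sum_filter, ← Finset.sum_sub_distrib]
    refine Finset.sum_congr rfl fun s _ => ?_
    unfold T
    rw [he]
    by_cases h1 : ((s : ℤ) : ZMod (2 * m)) ∈ N
    · rw [if_pos h1, if_pos h1, if_neg (fun h => h.1 h1)]
      ring
    · by_cases h2 : ((s + m : ℤ) : ZMod (2 * m)) ∈ N
      · rw [if_neg h1, if_pos h2, if_neg h1, if_pos h2, if_neg (fun h => h.2 h2)]
        ring
      · rw [if_neg h1, if_neg h2, if_neg h1, if_neg h2, if_pos ⟨h1, h2⟩]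
        ring
  have hEw : ∀ α, ∑ s ∈ range m, e s * w r θ (s : ℤ) α =
      (∑ s ∈ range m, e s * (r s * sin (θ s))) * cos α +
        (∑ s ∈ range m, e s * (-(r s * cos (θ s)))) * sin α := by
    intro α
    rw [Finset.sum_mul, Finset.sum_mul, ← Finset.sum_add_distrib]
    refine Finset.sum_congr rfl fun s _ => ?_
    rw [hw]
    ring
  obtain ⟨c', hc1, hc2, hc3⟩ := hZ ℕ R (fun s => r s * sin (θ s)) (fun s => -(r s * cos (θ s)))
    (-(∑ s ∈ range m, e s * (r s * sin (θ s))))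
    (-(∑ s ∈ range m, e s * (-(r s * cos (θ s))))) (by
      intro α
      have h1 := hD (α + π)
      rw [hDe] at h1
      have h2 : ∑ s ∈ range m, e s * w r θ (s : ℤ) (α + π) =
          -∑ s ∈ range m, e s * w r θ (s : ℤ) α := by
        rw [← Finset.sum_neg_distrib]
        refine Finset.sum_congr rfl fun s _ => ?_
        rw [Fac1_wpi]
        ring
      have h3 : ∑ s ∈ R, |w r θ (s : ℤ) (α + π)| =
          ∑ s ∈ R, |r s * sin (θ s) * cos α + (-(r s * cos (θ s))) * sin α| := by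
        refine Finset.sum_congr rfl fun s _ => ?_
        rw [Fac1_wpi, abs_neg, hw]
      rw [h2, h3, hEw] at h1
      linarith)
  have hdisj : ∀ s : ℕ, ((s : ℤ) : ZMod (2 * m)) ∈ N → ((s + m : ℤ) : ZMod (2 * m)) ∉ N := by
    intro s h1 h2
    refine hN _ h1 ?_
    push_cast at h2 ⊢
    exact h2
  refine ⟨fun s => if ((s : ℤ) : ZMod (2 * m)) ∈ N then 1
      else if ((s + m : ℤ) : ZMod (2 * m)) ∈ N then -1 else c' s, ?_, ?_, ?_, ?_⟩
  · intro s
    simp only
    split_ifs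
    · norm_num
    · norm_num
    · exact hc1 s
  · intro s h1
    simp only
    rw [if_pos h1]
  · intro s h1
    simp only
    rw [if_neg (fun h => hdisj s h h1), if_pos h1]
  · intro α
    have h1 : ∑ s ∈ range m, (if ((s : ℤ) : ZMod (2 * m)) ∈ N then 1
        else if ((s + m : ℤ) : ZMod (2 * m)) ∈ N then -1 else c' s) * w r θ (s : ℤ) α =
        ∑ s ∈ range m, e s * w r θ (s : ℤ) α + ∑ s ∈ R, c' s * w r θ (s : ℤ) α := by
      rw [hR, Finset.sum_filter, ← Finset.sum_add_distrib]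
      refine Finset.sum_congr rfl fun s _ => ?_
      rw [he]
      by_cases h1 : ((s : ℤ) : ZMod (2 * m)) ∈ N
      · rw [if_pos h1, if_pos h1, if_neg (fun h => h.1 h1)]
        ring
      · by_cases h2 : ((s + m : ℤ) : ZMod (2 * m)) ∈ N
        · rw [if_neg h1, if_pos h2, if_neg h1, if_pos h2, if_neg (fun h => h.2 h2)]
          ring
        · rw [if_neg h1, if_neg h2, if_neg h1, if_neg h2, if_pos ⟨h1, h2⟩]
          ring
    have h2 : ∑ s ∈ R, c' s * w r θ (s : ℤ) α =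
        (∑ s ∈ R, c' s * (r s * sin (θ s))) * cos α +
          (∑ s ∈ R, c' s * (-(r s * cos (θ s)))) * sin α := by
      rw [Finset.sum_mul, Finset.sum_mul, ← Finset.sum_add_distrib]
      refine Finset.sum_congr rfl fun s _ => ?_
      rw [hw]
      ring
    rw [h1, h2, hc2, hc3, hEw]
    ring

/-- prescribed values on an affinely independent set on which a functional is `1` -/
private theorem Fac1_ext {d : ℕ} {F : Finset (E d)} {l : E d →ₗ[ℝ] ℝ} (hl : ∀ u ∈ F, l u = 1)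
    (hF : AffineIndependent ℝ (fun u : {x // x ∈ F} => (u : E d))) (g : E d → ℝ) :
    ∃ f : E d →ₗ[ℝ] ℝ, ∀ u ∈ F, f u = g u := by
  classical
  have hli : LinearIndependent ℝ (fun u : {x // x ∈ F} => (u : E d)) := by
    rw [Fintype.linearIndependent_iff]
    intro c hc
    have h1 : ∑ u : {x // x ∈ F}, c u = 0 := by
      have h2 := congrArg l hc
      rw [map_sum, map_zero] at h2
      rw [← h2]
      refine Finset.sum_congr rfl fun u _ => ?_
      rw [map_smul, hl _ u.2, smul_eq_mul, mul_one]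
    rw [affineIndependent_iff_of_fintype] at hF
    refine hF c h1 ?_
    rw [Finset.weightedVSub_eq_linear_combination _ h1]
    exact hc
  obtain ⟨f, hf⟩ := LinearMap.exists_extend
    ((Finsupp.linearCombination ℝ (fun u : {x // x ∈ F} => g u)).comp hli.repr)
  refine ⟨f, fun u hu => ?_⟩
  have hmem : u ∈ Submodule.span ℝ (Set.range (fun u : {x // x ∈ F} => (u : E d))) :=
    Submodule.subset_span ⟨⟨u, hu⟩, rfl⟩
  have h1 := LinearMap.congr_fun hf ⟨u, hmem⟩
  rw [LinearMap.comp_apply, Submodule.subtype_apply] at h1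
  rw [h1, LinearMap.comp_apply]
  have h2 : hli.repr ⟨u, hmem⟩ = Finsupp.single (⟨u, hu⟩ : {x // x ∈ F}) 1 :=
    hli.repr_eq_single ⟨u, hu⟩ ⟨u, hmem⟩ rfl
  rw [h2, Finsupp.linearCombination_single, one_smul]

theorem thm_Fac1 (hZ : St_Zon) : St_Fac1 := by
  classical
  intro d m _ V v r θ hd hV hR N hN hD
  have hm : 0 < m := Nat.pos_of_ne_zero (NeZero.ne m)
  obtain ⟨c, hc1, hc2, hc3, hc4⟩ := Fac1_coef hZ hD hN
  obtain ⟨l, hl⟩ := Fac1_fun hR.dep hc4
  have hval : ∀ j : ℕ, j < 2 * m → |l (v (j : ℤ))| ≤ 1 := by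
    intro j hj
    rcases Nat.lt_or_ge j m with h1 | h1
    · rw [hl j h1]
      exact hc1 j
    · have h2 : (j : ℤ) = ((j - m : ℕ) : ℤ) + m := by
        push_cast [Nat.cast_sub h1]
        ring
      rw [h2, hR.neg, map_neg, abs_neg, hl _ (by omega)]
      exact hc1 _
  have hlV : ∀ u ∈ V, l u ≤ 1 := by
    intro u hu
    obtain ⟨j, hj, rfl⟩ := (hR.mem u).1 hu
    exact (abs_le.1 (hval j hj)).2
  have hmemV : ∀ x : ZMod (2 * m), vz m v x ∈ V := by
    intro x
    have : NeZero (2 * m) := ⟨by omega⟩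
    exact (hR.mem _).2 ⟨x.val, ZMod.val_lt x, rfl⟩
  have hlN : ∀ x ∈ N, l (vz m v x) = 1 := by
    intro x hx
    have : NeZero (2 * m) := ⟨by omega⟩
    have hx2 := ZMod.val_lt x
    have hx3 : ((x.val : ℕ) : ZMod (2 * m)) = x := ZMod.natCast_zmod_val x
    unfold vz
    rcases Nat.lt_or_ge x.val m with h1 | h1
    · rw [hl _ h1]
      apply hc2
      rw [Int.cast_natCast, hx3]
      exact hx
    · have h2 : ((x.val : ℕ) : ℤ) = ((x.val - m : ℕ) : ℤ) + m := by
        push_cast [Nat.cast_sub h1]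
        ring
      rw [h2, hR.neg, map_neg, hl _ (by omega)]
      rw [hc3 (x.val - m), neg_neg]
      rw [← h2, Int.cast_natCast, hx3]
      exact hx
  have hneg : ∀ u ∈ V, l u = 1 → l (-u) = 1 → False := by
    intro u _ h1 h2
    rw [map_neg, h1] at h2
    norm_num at h2
  have hne : V.Nonempty := ⟨_, hmemV 0⟩
  have hlI : ∀ u ∈ N.image (vz m v), l u = 1 := by
    intro u hu
    obtain ⟨x, hx, rfl⟩ := Finset.mem_image.1 hu
    exact hlN x hx
  refine ⟨?_, ?_⟩
  · obtain ⟨F, hF⟩ : ∃ F : Finset (E d), F = V.filter (fun u => l u = 1) := ⟨_, rfl⟩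
    have hF1 : ∀ u ∈ F, l u = 1 := by
      intro u hu
      rw [hF, mem_filter] at hu
      exact hu.2
    have hFface : IsFace V F := by
      refine ⟨by rw [hF]; exact filter_subset _ _, l, 1, hF1, fun u hu hu' => ?_⟩
      refine lt_of_le_of_ne (hlV u hu) fun h1 => hu' ?_
      rw [hF, mem_filter]
      exact ⟨hu, h1⟩
    have hFV : F ≠ V := by
      intro h1
      obtain ⟨u, hu⟩ := hne
      refine hneg u hu (hF1 u (by rw [h1]; exact hu)) (hF1 _ (by rw [h1]; exact hV.symm u hu))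
    obtain ⟨f, hf⟩ := Fac1_ext hF1 (hV.simplicial F hFface hFV)
      (fun u => if u ∈ N.image (vz m v) then 0 else -1)
    have hev : ∀ᶠ ε : ℝ in nhdsWithin 0 (Set.Ioi 0), ∀ u ∈ V, u ∉ F → l u + ε * f u < 1 := by
      rw [Filter.eventually_all_finset]
      intro u hu
      by_cases huF : u ∈ F
      · exact Filter.Eventually.of_forall fun ε h => absurd huF h
      · have h1 : l u < 1 := by
          refine lt_of_le_of_ne (hlV u hu) fun h1 => huF ?_
          rw [hF, mem_filter]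
          exact ⟨hu, h1⟩
        have hcont : Continuous fun ε : ℝ => l u + ε * f u := by fun_prop
        have h2 : ∀ᶠ ε : ℝ in nhds 0, l u + ε * f u < 1 := by
          refine (hcont.tendsto 0).eventually_lt_const ?_
          rw [zero_mul, add_zero]
          exact h1
        filter_upwards [nhdsWithin_le_nhds h2] with ε hε _
        exact hε
    obtain ⟨ε, hε1, hε2⟩ := (hev.and self_mem_nhdsWithin).exists
    have hε : 0 < ε := hε2
    have hsub : N.image (vz m v) ⊆ V := by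
      intro u hu
      obtain ⟨x, _, rfl⟩ := Finset.mem_image.1 hu
      exact hmemV x
    have hIF : N.image (vz m v) ⊆ F := by
      intro u hu
      rw [hF, mem_filter]
      exact ⟨hsub hu, hlI u hu⟩
    refine ⟨hsub, l + ε • f, 1, ?_, ?_⟩
    · intro u hu
      rw [LinearMap.add_apply, LinearMap.smul_apply, hlI u hu, hf u (hIF hu), if_pos hu]
      simp
    · intro u hu hu'
      rw [LinearMap.add_apply, LinearMap.smul_apply, smul_eq_mul]
      by_cases huF : u ∈ F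
      · rw [hF1 u huF, hf u huF, if_neg hu']
        linarith
      · exact hε1 u hu huF
  · intro h1
    obtain ⟨u, hu⟩ := hne
    refine hneg u hu (hlI u (by rw [h1]; exact hu)) (hlI _ (by rw [h1]; exact hV.symm u hu))

end Pool.CSG
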