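import Pool.Agent.CSG.St
import Pool.Agent.CS4.GConf

/-! Module Fv of the MP_54ed1a_co project (CSG): the face numbers are `2 ^ k * C(m, k)` minus the
number of the nonfaces. -/

set_option autoImplicit false

open Finset Real Pool.CS4

noncomputable section

namespace Pool.CSG

private theorem Fv_inj {d m : ℕ} [NeZero m] {V : Finset (E d)} {v : ℤ → E d} {r θ : ℤ → ℝ}
    (h : Rep d m V v r θ) : Function.Injective (vz m v) := by
  intro x y hxy
  have h1 := h.inj x.val y.val (ZMod.val_lt x) (ZMod.val_lt y) hxy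
  exact ZMod.val_injective _ h1

private theorem Fv_mem {d m : ℕ} [NeZero m] {V : Finset (E d)} {v : ℤ → E d} {r θ : ℤ → ℝ}
    (h : Rep d m V v r θ) (u : E d) : u ∈ V ↔ ∃ x : ZMod (2 * m), vz m v x = u := by
  rw [h.mem]
  constructor
  · rintro ⟨j, hj, hu⟩
    refine ⟨(j : ZMod (2 * m)), ?_⟩
    unfold vz
    rw [ZMod.val_natCast, Nat.mod_eq_of_lt hj]
    exact hu
  · rintro ⟨x, hx⟩
    exact ⟨x.val, ZMod.val_lt x, hx⟩

private theorem Fv_neg {d m : ℕ} [NeZero m] {V : Finset (E d)} {v : ℤ → E d} {r θ : ℤ → ℝ}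
    (h : Rep d m V v r θ) (x : ZMod (2 * m)) :
    vz m v (x + (m : ZMod (2 * m))) = -vz m v x := by
  have hm : 0 < m := Nat.pos_of_ne_zero (NeZero.ne m)
  have hx := ZMod.val_lt x
  have hmv : ((m : ℕ) : ZMod (2 * m)).val = m := by
    rw [ZMod.val_natCast, Nat.mod_eq_of_lt (by omega)]
  unfold vz
  rw [ZMod.val_add, hmv]
  rcases lt_or_ge (x.val + m) (2 * m) with h1 | h1
  · rw [Nat.mod_eq_of_lt h1]
    have := h.neg (x.val : ℤ)
    push_cast
    exact this
  · have e : (x.val + m) % (2 * m) = x.val - m := by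
      rw [Nat.mod_eq_sub_mod h1, Nat.mod_eq_of_lt (by omega)]
      omega
    rw [e]
    have h2 := h.neg ((x.val - m : ℕ) : ℤ)
    have e2 : (((x.val - m : ℕ) : ℤ) + (m : ℤ)) = (x.val : ℤ) := by
      rw [← Nat.cast_add]
      congr 1
      omega
    rw [e2] at h2
    rw [h2, neg_neg]

private theorem Fv_AF {d m : ℕ} [NeZero m] {V : Finset (E d)} {v : ℤ → E d} {r θ : ℤ → ℝ}
    (hV : IsCSSimplicial d V) (h : Rep d m V v r θ) (N : Finset (ZMod (2 * m)))
    (hf : IsFace V (N.image (vz m v))) (hne : N.image (vz m v) ≠ V) : AF m N := by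
  obtain ⟨hsub, l, c, h1, h2⟩ := hf
  have hc := gconf_pos hV.symm hsub l c h1 h2 hne
  intro x hx hx2
  have a1 := h1 _ (mem_image_of_mem (vz m v) hx)
  have a2 := h1 _ (mem_image_of_mem (vz m v) hx2)
  rw [Fv_neg h, map_neg] at a2
  linarith

theorem thm_Fv (hF : St_Fac) (hA : St_AFc) : St_Fv := by
  intro d m _ V v r θ hd hV h
  have hdich : Dich m r θ := by
    intro N hN
    by_cases hex : ∃ α, 0 < D m r θ N α
    · exact Or.inl hex
    · right
      push Not at hex
      obtain ⟨f1, f2⟩ := hF d m V v r θ hd hV h N hN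
      obtain ⟨g1, g2⟩ := f1 hex
      exact f2 g1 g2
  refine ⟨hdich, fun k => ?_⟩
  classical
  have hcard : fv V k = (univ.filter fun N : Finset (ZMod (2 * m)) =>
      (AF m N ∧ N.card = k) ∧ ¬ ∃ α, 0 < D m r θ N α).card := by
    unfold fv
    symm
    apply Finset.card_bij (fun N _ => N.image (vz m v))
    · intro N hN
      rw [mem_filter] at hN
      obtain ⟨-, ⟨hN1, hN2⟩, hN3⟩ := hN
      push Not at hN3
      obtain ⟨f1, f2⟩ := hF d m V v r θ hd hV h N hN1
      obtain ⟨g1, g2⟩ := f1 hN3
      rw [mem_filter, mem_powerset]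
      refine ⟨?_, g1, g2, ?_⟩
      · intro u hu
        rw [mem_image] at hu
        obtain ⟨x, -, hx⟩ := hu
        exact (Fv_mem h u).2 ⟨x, hx⟩
      · rw [card_image_of_injective N (Fv_inj h)]
        exact hN2
    · intro N1 _ N2 _ he
      exact Finset.image_injective (Fv_inj h) he
    · intro F hFF
      rw [mem_filter, mem_powerset] at hFF
      obtain ⟨hF1, hF2, hF3, hF4⟩ := hFF
      have him : (univ.filter fun x : ZMod (2 * m) => vz m v x ∈ F).image (vz m v) = F := by
        ext u
        rw [mem_image]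
        constructor
        · rintro ⟨x, hx, rfl⟩
          exact (mem_filter.1 hx).2
        · intro hu
          obtain ⟨x, hx⟩ := (Fv_mem h u).1 (hF1 hu)
          refine ⟨x, ?_, hx⟩
          rw [mem_filter, hx]
          exact ⟨mem_univ _, hu⟩
      refine ⟨univ.filter fun x : ZMod (2 * m) => vz m v x ∈ F, ?_, him⟩
      have hAF : AF m (univ.filter fun x : ZMod (2 * m) => vz m v x ∈ F) := by
        apply Fv_AF hV h
        · rw [him]
          exact hF2
        · rw [him]
          exact hF3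
      rw [mem_filter]
      refine ⟨mem_univ _, ⟨hAF, ?_⟩, ?_⟩
      · rw [← card_image_of_injective _ (Fv_inj h), him]
        exact hF4
      · push Not
        intro α
        have := (hF d m V v r θ hd hV h _ hAF).2 (by rw [him]; exact hF2) (by rw [him]; exact hF3) α
        exact this.le
  have hsplit : (univ.filter fun N : Finset (ZMod (2 * m)) => AF m N ∧ N.card = k).card =
      nf m r θ k + fv V k := by
    rw [hcard]
    unfold nf
    rw [← Finset.card_filter_add_card_filter_not (s := univ.filter fun N : Finset (ZMod (2 * m)) =>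
      AF m N ∧ N.card = k) (fun N => ∃ α, 0 < D m r θ N α)]
    rw [filter_filter, filter_filter]
    congr 2
    apply filter_congr
    intro N _
    tauto
  have h3 := hA m k
  have h4 : nf m r θ k + fv V k = 2 ^ k * m.choose k := by
    rw [← hsplit, ← h3]
  have h5 : (nf m r θ k : ℤ) + (fv V k : ℤ) = 2 ^ k * (m.choose k : ℤ) := by
    exact_mod_cast h4
  linarith

end Pool.CSG
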