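import Pool.Agent.CSG.St
import Pool.Agent.CS4.Cls
import Pool.Agent.CS4.GBase

set_option autoImplicit false

open Finset Real Pool.CS4

noncomputable section

namespace Pool.CSG

/-- polar coordinates with an angle in `[0, π)` and a sign -/
lemma Gale_polar (x y : ℝ) : ∃ e ρ φ : ℝ, (e = 1 ∨ e = -1) ∧ 0 ≤ ρ ∧ 0 ≤ φ ∧ φ < π ∧
    x = e * (ρ * cos φ) ∧ y = e * (ρ * sin φ) := by
  set z : ℂ := ⟨x, y⟩ with hz
  have hx : x = ‖z‖ * cos (Complex.arg z) := by
    rw [Complex.norm_mul_cos_arg]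
  have hy : y = ‖z‖ * sin (Complex.arg z) := by
    rw [Complex.norm_mul_sin_arg]
  have h1 := Complex.neg_pi_lt_arg z
  have h2 := Complex.arg_le_pi z
  have hp := Real.pi_pos
  rcases lt_or_ge (Complex.arg z) 0 with h | h
  · refine ⟨-1, ‖z‖, Complex.arg z + π, Or.inr rfl, norm_nonneg _, by linarith, by linarith, ?_, ?_⟩
    · rw [cos_add_pi]; linarith
    · rw [sin_add_pi]; linarith
  · rcases lt_or_eq_of_le h2 with h3 | h3
    · exact ⟨1, ‖z‖, Complex.arg z, Or.inl rfl, norm_nonneg _, h, h3, by linarith, by linarith⟩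
    · refine ⟨-1, ‖z‖, 0, Or.inr rfl, norm_nonneg _, le_rfl, hp, ?_, ?_⟩
      · rw [h3, cos_pi] at hx
        rw [cos_zero]; linarith
      · rw [h3, sin_pi] at hy
        rw [sin_zero]; linarith

/-- polar coordinates -/
lemma Gale_polar' (x y : ℝ) : ∃ ρ α : ℝ, x = -(ρ * sin α) ∧ y = ρ * cos α := by
  set z : ℂ := ⟨y, -x⟩ with hz
  refine ⟨‖z‖, Complex.arg z, ?_, ?_⟩
  · rw [Complex.norm_mul_sin_arg]
    simp [hz]
  · rw [Complex.norm_mul_cos_arg]

/-- the linear algebra: `m = d + 2` spanning vectors have two independent dependencies -/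
lemma Gale_ker {d : ℕ} (u : Fin (d + 2) → E d) (hu : Submodule.span ℝ (Set.range u) = ⊤) :
    ∃ k₁ k₂ : Fin (d + 2) → ℝ,
      (∀ y₁ y₂ : ℝ, (∀ i, y₁ * k₁ i + y₂ * k₂ i = 0) → y₁ = 0 ∧ y₂ = 0) ∧
      ∀ c : Fin (d + 2) → ℝ, ∑ i, c i • u i = 0 ↔ ∃ y₁ y₂ : ℝ, ∀ i, c i = y₁ * k₁ i + y₂ * k₂ i := by
  set L : (Fin (d + 2) → ℝ) →ₗ[ℝ] E d := Fintype.linearCombination ℝ u with hL
  have hLa : ∀ c, L c = ∑ i, c i • u i := fun c => by
    rw [hL, Fintype.linearCombination_apply]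
  have hrange : LinearMap.range L = ⊤ := by
    rw [hL, Fintype.range_linearCombination, hu]
  have hfr : Module.finrank ℝ (LinearMap.ker L) = 2 := by
    have h1 := LinearMap.finrank_range_add_finrank_ker L
    rw [hrange, finrank_top, Module.finrank_fin_fun, Module.finrank_fin_fun] at h1
    omega
  let b := Module.finBasisOfFinrankEq ℝ (LinearMap.ker L) hfr
  refine ⟨(b 0 : Fin (d + 2) → ℝ), (b 1 : Fin (d + 2) → ℝ), ?_, ?_⟩
  · intro y₁ y₂ h
    have h1 : y₁ • b 0 + y₂ • b 1 = 0 := by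
      apply Subtype.ext
      funext i
      have := h i
      simpa using this
    have h2 := Fintype.linearIndependent_iff.1 b.linearIndependent ![y₁, y₂] (by
      rw [Fin.sum_univ_two]
      simpa using h1)
    exact ⟨by simpa using h2 0, by simpa using h2 1⟩
  · intro c
    rw [← hLa]
    constructor
    · intro h
      have hc : c ∈ LinearMap.ker L := LinearMap.mem_ker.2 h
      have h3 := b.sum_repr ⟨c, hc⟩
      rw [Fin.sum_univ_two] at h3
      refine ⟨b.repr ⟨c, hc⟩ 0, b.repr ⟨c, hc⟩ 1, fun i => ?_⟩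
      have h4 := congrArg (fun z : LinearMap.ker L => (z : Fin (d + 2) → ℝ) i) h3
      simp only [Submodule.coe_add, Submodule.coe_smul, Pi.add_apply, Pi.smul_apply,
        smul_eq_mul] at h4
      exact h4.symm
    · rintro ⟨y₁, y₂, h⟩
      have h5 : c = y₁ • (b 0 : Fin (d + 2) → ℝ) + y₂ • (b 1 : Fin (d + 2) → ℝ) := by
        funext i
        simpa using h i
      rw [h5, map_add, map_smul, map_smul, LinearMap.mem_ker.1 (b 0).2,
        LinearMap.mem_ker.1 (b 1).2, smul_zero, smul_zero, add_zero]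


/-- one vertex of each antipodal pair -/
lemma Gale_half {d : ℕ} {V : Finset (E d)} (hd : 1 ≤ d) (hV : IsCSSimplicial d V)
    (hc : V.card = 2 * (d + 2)) :
    ∃ u : Fin (d + 2) → E d, Submodule.span ℝ (Set.range u) = ⊤ ∧
      (∀ i, u i ∈ V) ∧ (∀ x ∈ V, ∃ i, x = u i ∨ x = -u i) ∧
      (∀ i j, u i = u j → i = j) ∧ (∀ i j, u i ≠ -u j) := by
  have h0 : (0 : E d) ∉ V := cls_zero hV (by omega)
  have hcard := card_halfGBase hV.symm h0
  have hcH : (halfGBase V).card = d + 2 := by omega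
  have hsp : Submodule.span ℝ (V : Set (E d)) = ⊤ := by
    have h1 := hV.full
    rw [interior_convexHull_nonempty_iff_affineSpan_eq_top] at h1
    rw [eq_top_iff]
    intro x _
    have h2 : x ∈ affineSpan ℝ (V : Set (E d)) := by rw [h1]; trivial
    exact affineSpan_subset_span h2
  have hspH := span_halfGBase hV.symm h0 hsp
  let f := (halfGBase V).equivFinOfCardEq hcH
  refine ⟨fun i => (f.symm i : E d), ?_, ?_, ?_, ?_, ?_⟩
  · rw [← hspH]
    congr 1
    ext x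
    constructor
    · rintro ⟨i, rfl⟩
      exact (f.symm i).2
    · intro hx
      exact ⟨f ⟨x, hx⟩, by simp⟩
  · intro i
    exact (mem_halfGBase.1 (f.symm i).2).1
  · intro x hx
    rcases cover_halfGBase hV.symm h0 hx with h | h
    · exact ⟨f ⟨x, h⟩, Or.inl (by simp)⟩
    · exact ⟨f ⟨-x, h⟩, Or.inr (by simp)⟩
  · intro i j h
    exact f.symm.injective (Subtype.ext h)
  · intro i j h
    have h1 := (f.symm i).2
    have h2 := (f.symm j).2
    have h3 := noAnti_halfGBase h0 (f.symm j : E d) h2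
    apply h3
    rw [← h]
    exact h1

/-- the place of `j` modulo `m` -/
def Gale_ix (m : ℕ) [NeZero m] (j : ℤ) : Fin m :=
  ⟨(j % (m : ℤ)).toNat, by
    have h : (0 : ℤ) < m := by exact_mod_cast Nat.pos_of_ne_zero (NeZero.ne m)
    have h1 := Int.emod_nonneg j h.ne'
    have h2 := Int.emod_lt_of_pos j h
    omega⟩

lemma Gale_ix_val (m : ℕ) [NeZero m] (j : ℤ) : ((Gale_ix m j : ℕ) : ℤ) = j % (m : ℤ) := by
  have h : (0 : ℤ) < m := by exact_mod_cast Nat.pos_of_ne_zero (NeZero.ne m)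
  have h1 := Int.emod_nonneg j h.ne'
  unfold Gale_ix
  simp only
  omega

lemma Gale_ix_add (m : ℕ) [NeZero m] (j : ℤ) : Gale_ix m (j + m) = Gale_ix m j := by
  apply Fin.ext
  have h1 := Gale_ix_val m (j + m)
  have h2 := Gale_ix_val m j
  rw [Int.add_emod_right] at h1
  omega

lemma Gale_div_add (m : ℕ) [NeZero m] (j : ℤ) : (j + m) / (m : ℤ) = j / m + 1 := by
  have h : (m : ℤ) ≠ 0 := by exact_mod_cast NeZero.ne m
  rw [Int.add_ediv_of_dvd_right (dvd_refl _), Int.ediv_self h]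

lemma Gale_small (m : ℕ) [NeZero m] (j : ℕ) (hj : j < m) :
    Gale_ix m (j : ℤ) = ⟨j, hj⟩ ∧ (j : ℤ) / (m : ℤ) = 0 := by
  constructor
  · apply Fin.ext
    have h1 := Gale_ix_val m (j : ℤ)
    rw [Int.emod_eq_of_lt (by omega) (by omega)] at h1
    simpa using h1
  · exact Int.ediv_eq_zero_of_lt (by omega) (by omega)

/-- the step from `j` to `j + 1` -/
lemma Gale_step (m : ℕ) [NeZero m] (j : ℤ) :
    ((Gale_ix m (j + 1) : ℕ) = (Gale_ix m j : ℕ) + 1 ∧ (j + 1) / (m : ℤ) = j / m) ∨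
    (j + 1) / (m : ℤ) = j / m + 1 := by
  have h : (0 : ℤ) < m := by exact_mod_cast Nat.pos_of_ne_zero (NeZero.ne m)
  have h1 := Gale_ix_val m (j + 1)
  have h2 := Gale_ix_val m j
  have e1 := Int.mul_ediv_add_emod j m
  have e2 := Int.mul_ediv_add_emod (j + 1) m
  have p1 := Int.emod_nonneg j h.ne'
  have p2 := Int.emod_lt_of_pos j h
  have q1 := Int.emod_nonneg (j + 1) h.ne'
  have q2 := Int.emod_lt_of_pos (j + 1) h
  have hlt : j / (m : ℤ) ≤ (j + 1) / m := Int.ediv_le_ediv h (by omega)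
  have hle : (j + 1) / (m : ℤ) ≤ j / m + 1 := by
    rw [← Gale_div_add m j]
    exact Int.ediv_le_ediv h (by omega)
  rcases eq_or_lt_of_le hlt with h3 | h3
  · left
    refine ⟨?_, h3.symm⟩
    rw [← h3] at e2
    omega
  · right
    omega


/-- the sign of the place `j` -/
def Gale_sg (m : ℕ) (j : ℤ) : ℝ := by
  classical
  exact if Even (j / (m : ℤ)) then 1 else -1

lemma Gale_sg_or (m : ℕ) (j : ℤ) : Gale_sg m j = 1 ∨ Gale_sg m j = -1 := by
  unfold Gale_sg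
  split_ifs
  · exact Or.inl rfl
  · exact Or.inr rfl

lemma Gale_sg_even {m : ℕ} {j : ℤ} (h : Even (j / (m : ℤ))) : Gale_sg m j = 1 := by
  unfold Gale_sg
  rw [if_pos h]

lemma Gale_sg_odd {m : ℕ} {j : ℤ} (h : ¬ Even (j / (m : ℤ))) : Gale_sg m j = -1 := by
  unfold Gale_sg
  rw [if_neg h]

lemma Gale_sg_add (m : ℕ) [NeZero m] (j : ℤ) : Gale_sg m (j + m) = -Gale_sg m j := by
  by_cases h : Even (j / (m : ℤ))
  · rw [Gale_sg_even h, Gale_sg_odd]
    rw [Gale_div_add, Int.even_add_one]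
    exact fun h' => h' h
  · rw [Gale_sg_odd h, Gale_sg_even, neg_neg]
    rw [Gale_div_add, Int.even_add_one]
    exact h

lemma Gale_smul {d n : ℕ} {u : Fin n → E d} (h1 : ∀ i j, u i = u j → i = j)
    (h2 : ∀ i j, u i ≠ -u j) {s t : ℝ} (hs : s = 1 ∨ s = -1) (ht : t = 1 ∨ t = -1)
    {i j : Fin n} (h : s • u i = t • u j) : i = j ∧ s = t := by
  rcases hs with rfl | rfl <;> rcases ht with rfl | rfl
  · rw [one_smul, one_smul] at h
    exact ⟨h1 _ _ h, rfl⟩
  · rw [one_smul, neg_one_smul] at h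
    exact absurd h (h2 _ _)
  · rw [one_smul, neg_one_smul] at h
    exact absurd h.symm (h2 _ _)
  · rw [neg_one_smul, neg_one_smul] at h
    exact ⟨h1 _ _ (neg_injective h), rfl⟩

/-- the construction, for a general number `m` of pairs -/
lemma Gale_core {d m : ℕ} [NeZero m] {V : Finset (E d)} (hV : IsCSSimplicial d V)
    (u : Fin m → E d) (huV : ∀ i, u i ∈ V) (hcov : ∀ x ∈ V, ∃ i, x = u i ∨ x = -u i)
    (hinj : ∀ i j, u i = u j → i = j) (hanti : ∀ i j, u i ≠ -u j)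
    (k₁ k₂ : Fin m → ℝ)
    (hind : ∀ y₁ y₂ : ℝ, (∀ i, y₁ * k₁ i + y₂ * k₂ i = 0) → y₁ = 0 ∧ y₂ = 0)
    (hker : ∀ c : Fin m → ℝ, ∑ i, c i • u i = 0 ↔ ∃ y₁ y₂ : ℝ, ∀ i, c i = y₁ * k₁ i + y₂ * k₂ i) :
    ∃ (v : ℤ → E d) (r θ : ℤ → ℝ), Rep d m V v r θ := by
  have hm1 : 1 ≤ m := Nat.one_le_iff_ne_zero.2 (NeZero.ne m)
  choose e ρ φ he hρ hφ0 hφπ hk1 hk2 using fun i => Gale_polar (k₁ i) (k₂ i)
  have hee : ∀ i, e i * e i = 1 := by
    intro i
    rcases he i with h | h <;> rw [h] <;> norm_num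
  have hπ := Real.pi_pos
  let σ : Equiv.Perm (Fin m) := Tuple.sort φ
  have hσ : Monotone (φ ∘ σ) := Tuple.monotone_sort φ
  let τ : ℤ → Fin m := fun j => σ (Gale_ix m j)
  have hτadd : ∀ j, τ (j + m) = τ j := fun j => by
    show σ (Gale_ix m (j + m)) = σ (Gale_ix m j)
    rw [Gale_ix_add]
  let θ : ℤ → ℝ := fun j => φ (τ j) + π * ((j / (m : ℤ) : ℤ) : ℝ)
  let r : ℤ → ℝ := fun j => ρ (τ j)
  let v : ℤ → E d := fun j => (Gale_sg m j * e (τ j)) • u (τ j)
  have hτs : ∀ (s : ℕ) (hs : s < m), τ (s : ℤ) = σ ⟨s, hs⟩ := fun s hs => by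
    show σ (Gale_ix m (s : ℤ)) = σ ⟨s, hs⟩
    rw [(Gale_small m s hs).1]
  have hθs : ∀ (s : ℕ) (hs : s < m), θ (s : ℤ) = φ (σ ⟨s, hs⟩) := fun s hs => by
    show φ (τ (s : ℤ)) + π * ((((s : ℤ) / (m : ℤ) : ℤ)) : ℝ) = _
    rw [hτs s hs, (Gale_small m s hs).2]
    simp
  have hrs : ∀ (s : ℕ) (hs : s < m), r (s : ℤ) = ρ (σ ⟨s, hs⟩) := fun s hs => by
    show ρ (τ (s : ℤ)) = _
    rw [hτs s hs]
  have hsgs : ∀ (s : ℕ) (_ : s < m), Gale_sg m (s : ℤ) = 1 := fun s hs => by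
    apply Gale_sg_even
    rw [(Gale_small m s hs).2]
    exact Even.zero
  have hvs : ∀ (s : ℕ) (hs : s < m), v (s : ℤ) = e (σ ⟨s, hs⟩) • u (σ ⟨s, hs⟩) := fun s hs => by
    show (Gale_sg m (s : ℤ) * e (τ (s : ℤ))) • u (τ (s : ℤ)) = _
    rw [hτs s hs, hsgs s hs, one_mul]
  have hneg : ∀ j, v (j + m) = -v j := fun j => by
    show (Gale_sg m (j + m) * e (τ (j + m))) • u (τ (j + m)) = -((Gale_sg m j * e (τ j)) • u (τ j))
    rw [hτadd, Gale_sg_add, neg_mul, neg_smul]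
  have hmul : ∀ a b : ℝ, (a = 1 ∨ a = -1) → (b = 1 ∨ b = -1) → (a * b = 1 ∨ a * b = -1) := by
    rintro a b (rfl | rfl) (rfl | rfl) <;> norm_num
  have hcf : Cf m r θ := by
    refine ⟨fun j => hρ _, fun j => ?_, ?_, fun j => ?_, fun α => ?_⟩
    · show ρ (τ (j + m)) = ρ (τ j)
      rw [hτadd]
    · refine monotone_int_of_le_succ fun j => ?_
      show φ (τ j) + π * ((j / (m : ℤ) : ℤ) : ℝ) ≤ φ (τ (j + 1)) + π * (((j + 1) / (m : ℤ) : ℤ) : ℝ)
      rcases Gale_step m j with ⟨h1, h2⟩ | h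
      · rw [h2]
        have h3 : φ (τ j) ≤ φ (τ (j + 1)) := by
          apply hσ
          rw [Fin.le_def]
          omega
        linarith
      · rw [h]
        push_cast
        have h1 := hφπ (τ j)
        have h2 := hφ0 (τ (j + 1))
        nlinarith
    · show φ (τ (j + m)) + π * (((j + m) / (m : ℤ) : ℤ) : ℝ) = φ (τ j) + π * ((j / (m : ℤ) : ℤ) : ℝ) + π
      rw [hτadd, Gale_div_add]
      push_cast
      ring
    · by_contra hcon
      push Not at hcon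
      have h1 := hind (-sin α) (cos α) (fun i => by
        have h2 := hcon ((σ.symm i : ℕ) : ℤ)
        rw [hrs _ (σ.symm i).2, hθs _ (σ.symm i).2] at h2
        have h3 : σ ⟨(σ.symm i : ℕ), (σ.symm i).2⟩ = i := by simp
        rw [h3, sin_sub] at h2
        rw [hk1, hk2]
        have h4 : -sin α * (e i * (ρ i * cos (φ i))) + cos α * (e i * (ρ i * sin (φ i))) =
          e i * (ρ i * (sin (φ i) * cos α - cos (φ i) * sin α)) := by ring
        rw [h4, h2, mul_zero])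
      have h5 := sin_sq_add_cos_sq α
      rw [h1.2, neg_eq_zero.1 h1.1] at h5
      norm_num at h5
  refine ⟨v, r, θ, hcf, hneg, ?_, ?_, ?_⟩
  · intro x
    constructor
    · intro hx
      obtain ⟨i, hi⟩ := hcov x hx
      have h1 : σ ⟨(σ.symm i : ℕ), (σ.symm i).2⟩ = i := by simp
      have h2 := hvs _ (σ.symm i).2
      rw [h1] at h2
      have h3 := hneg ((σ.symm i : ℕ) : ℤ)
      rw [h2] at h3
      have h4 : (x = e i • u i) ∨ (x = -(e i • u i)) := by
        rcases he i with h | h <;> rcases hi with h' | h' <;> rw [h, h']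
        · left; rw [one_smul]
        · right; rw [one_smul]
        · right; rw [neg_one_smul, neg_neg]
        · left; rw [neg_one_smul]
      rcases h4 with h4 | h4
      · refine ⟨(σ.symm i : ℕ), by have := (σ.symm i).2; omega, ?_⟩
        rw [h2, h4]
      · refine ⟨(σ.symm i : ℕ) + m, by have := (σ.symm i).2; omega, ?_⟩
        push_cast
        rw [h3, h4]
    · rintro ⟨j, _, rfl⟩
      show (Gale_sg m (j : ℤ) * e (τ (j : ℤ))) • u (τ (j : ℤ)) ∈ V
      rcases hmul _ _ (Gale_sg_or m (j : ℤ)) (he (τ (j : ℤ))) with h | h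
      · rw [h, one_smul]
        exact huV _
      · rw [h, neg_one_smul]
        exact hV.symm _ (huV _)
  · intro i j hi hj hij
    have key := Gale_smul hinj hanti (hmul _ _ (Gale_sg_or m (i : ℤ)) (he (τ (i : ℤ))))
      (hmul _ _ (Gale_sg_or m (j : ℤ)) (he (τ (j : ℤ)))) hij
    obtain ⟨h1, h2⟩ := key
    rw [h1] at h2
    have h3 : Gale_sg m (i : ℤ) = Gale_sg m (j : ℤ) := by
      have h4 := congrArg (fun z => z * e (τ (j : ℤ))) h2
      simp only [mul_assoc, hee, mul_one] at h4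
      exact h4
    have h5 : Gale_ix m (i : ℤ) = Gale_ix m (j : ℤ) := σ.injective h1
    have h6 := Gale_ix_val m (i : ℤ)
    have h7 := Gale_ix_val m (j : ℤ)
    rw [h5, h7] at h6
    have e1 := Int.mul_ediv_add_emod (i : ℤ) m
    have e2 := Int.mul_ediv_add_emod (j : ℤ) m
    have hm0 : (0 : ℤ) < m := by omega
    have b1 : (i : ℤ) / (m : ℤ) = 0 ∨ (i : ℤ) / (m : ℤ) = 1 := by
      have a1 : 0 ≤ (i : ℤ) / (m : ℤ) := Int.ediv_nonneg (by omega) (by omega)
      have a2 : (i : ℤ) / (m : ℤ) < 2 := Int.ediv_lt_of_lt_mul hm0 (by omega)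
      omega
    have b2 : (j : ℤ) / (m : ℤ) = 0 ∨ (j : ℤ) / (m : ℤ) = 1 := by
      have a1 : 0 ≤ (j : ℤ) / (m : ℤ) := Int.ediv_nonneg (by omega) (by omega)
      have a2 : (j : ℤ) / (m : ℤ) < 2 := Int.ediv_lt_of_lt_mul hm0 (by omega)
      omega
    have h01 : ¬ Even (1 : ℤ) := by decide
    have h00 : Even (0 : ℤ) := Even.zero
    rcases b1 with b1 | b1 <;> rcases b2 with b2 | b2
    · rw [b1] at e1; rw [b2] at e2; omega
    · exfalso
      rw [Gale_sg_even (by rw [b1]; exact h00), Gale_sg_odd (by rw [b2]; exact h01)] at h3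
      norm_num at h3
    · exfalso
      rw [Gale_sg_odd (by rw [b1]; exact h01), Gale_sg_even (by rw [b2]; exact h00)] at h3
      norm_num at h3
    · rw [b1] at e1; rw [b2] at e2; omega
  · intro c
    have hsum : ∑ s ∈ range m, c s • v (s : ℤ) =
        ∑ i : Fin m, (c (σ.symm i : ℕ) * e i) • u i := by
      rw [Finset.sum_range, ← Equiv.sum_comp σ (fun i : Fin m => (c (σ.symm i : ℕ) * e i) • u i)]
      refine Finset.sum_congr rfl fun i _ => ?_
      rw [hvs _ i.2, smul_smul]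
      simp
    rw [hsum, hker (fun i => c (σ.symm i : ℕ) * e i)]
    constructor
    · rintro ⟨y₁, y₂, h⟩
      obtain ⟨R, α, h1, h2⟩ := Gale_polar' y₁ y₂
      refine ⟨R, α, fun s hs => ?_⟩
      have h3 := h (σ ⟨s, hs⟩)
      simp only [Equiv.symm_apply_apply] at h3
      unfold w
      rw [hrs s hs, hθs s hs, sin_sub]
      rw [hk1, hk2, h1, h2] at h3
      have h4 := congrArg (fun z => z * e (σ ⟨s, hs⟩)) h3
      simp only [mul_assoc, hee, mul_one] at h4
      have h5 : (-(R * sin α) * (e (σ ⟨s, hs⟩) * (ρ (σ ⟨s, hs⟩) * cos (φ (σ ⟨s, hs⟩)))) +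
          R * cos α * (e (σ ⟨s, hs⟩) * (ρ (σ ⟨s, hs⟩) * sin (φ (σ ⟨s, hs⟩))))) * e (σ ⟨s, hs⟩) =
          (e (σ ⟨s, hs⟩) * e (σ ⟨s, hs⟩)) * (R * (ρ (σ ⟨s, hs⟩) *
            (sin (φ (σ ⟨s, hs⟩)) * cos α - cos (φ (σ ⟨s, hs⟩)) * sin α))) := by ring
      rw [hee, one_mul] at h5
      have h6 := h4.trans (by ring : _ = (-(R * sin α) * (e (σ ⟨s, hs⟩) * (ρ (σ ⟨s, hs⟩) * cos (φ (σ ⟨s, hs⟩)))) +
          R * cos α * (e (σ ⟨s, hs⟩) * (ρ (σ ⟨s, hs⟩) * sin (φ (σ ⟨s, hs⟩))))) * e (σ ⟨s, hs⟩))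
      rw [h6, h5]
    · rintro ⟨R, α, h⟩
      refine ⟨-(R * sin α), R * cos α, fun i => ?_⟩
      have h1 := h (σ.symm i : ℕ) (σ.symm i).2
      have h2 : σ ⟨(σ.symm i : ℕ), (σ.symm i).2⟩ = i := by simp
      unfold w at h1
      rw [hrs _ (σ.symm i).2, hθs _ (σ.symm i).2, h2, sin_sub] at h1
      show c (σ.symm i : ℕ) * e i = _
      rw [h1, hk1, hk2]
      ring


theorem thm_Gale : St_Gale := by
  intro d V hd hV hc
  obtain ⟨u, hsp, huV, hcov, hinj, hanti⟩ := Gale_half hd hV hc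
  obtain ⟨k₁, k₂, hind, hker⟩ := Gale_ker u hsp
  exact Gale_core hV u huV hcov hinj hanti k₁ k₂ hind hker

end Pool.CSG
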