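import Pool.Agent.CSG.St

/-!
# CSG [Low]: assembly of the example (MP_54ed1a_co, captain helper81)
-/

set_option autoImplicit false

open Finset Real Pool.CS4

noncomputable section

namespace Pool.CSG

private lemma Low_ne (m : ℕ) [NeZero m] : ((m : ℕ) : ZMod (2 * m)) ≠ 0 := by
  intro h
  rw [ZMod.natCast_eq_zero_iff] at h
  have hm : 0 < m := Nat.pos_of_ne_zero (NeZero.ne m)
  have := Nat.le_of_dvd hm h
  omega

private lemma Low_D (m : ℕ) [NeZero m] (r θ : ℤ → ℝ) (h : nf m r θ 1 = 0) :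
    ∀ (x : ZMod (2 * m)) (α : ℝ), D m r θ {x} α ≤ 0 := by
  classical
  intro x α
  by_contra hc
  push Not at hc
  unfold nf at h
  rw [Finset.card_eq_zero, Finset.filter_eq_empty_iff] at h
  refine h (Finset.mem_univ ({x} : Finset (ZMod (2 * m)))) ⟨?_, by simp, α, hc⟩
  intro y hy
  rw [Finset.mem_singleton] at hy
  subst hy
  rw [Finset.mem_singleton]
  intro h2
  exact Low_ne m (by simpa using h2)

private lemma Low_aux (hR : St_RegB) (hL : St_RealB) (hF : St_Fv) (hB : St_Bin) (l d : ℕ)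
    (hl : 2 ≤ l) (hd : d + 2 = 3 * l) : ∃ V : Finset (E d),
      IsCSSimplicial d V ∧ V.card = 6 * l ∧
      ∑ j ∈ range (l + 1), ((3 * l).choose j : ℤ) - 2 * l ≤ gv d V l := by
  classical
  haveI : NeZero l := ⟨by omega⟩
  haveI : NeZero (d + 2) := ⟨by omega⟩
  obtain ⟨r, θ, G⟩ := hR l hl
  have hsm : ∀ (m : ℕ) [NeZero m], m = 3 * l → ∀ k, k < l → nf m r θ k = 0 := by
    intro m _ h
    subst h
    exact G.small
  have htop : ∀ (m : ℕ) [NeZero m], m = 3 * l → nf m r θ l ≤ 2 * l := by
    intro m _ h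
    subst h
    exact G.top
  have hcf : Cf (d + 2) r θ := by
    rw [hd]
    exact G.cf
  have hgp : ∀ i j : ℤ, i < j → j < i + (d + 2) → 0 < r i * sin (θ j - θ i) := by
    intro i j h1 h2
    exact G.gp i j h1 (by
      have : (d : ℤ) + 2 = 3 * l := by exact_mod_cast hd
      rw [← this]
      exact h2)
  obtain ⟨V, v, hV, hc, hrep⟩ := hL d r θ (by omega) hcf hgp
    (by rw [hd]; exact G.tie)
    (Low_D (d + 2) r θ (hsm (d + 2) hd 1 (by omega)))
  obtain ⟨_, hfv⟩ := hF d (d + 2) V v r θ (by omega) hV hrep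
  refine ⟨V, hV, by omega, ?_⟩
  have key := hB d l ℕ (range (nf (d + 2) r θ l)) (fun _ => l) (fun k => (fv V k : ℤ))
    (by omega) (by omega) (fun _ _ => le_refl l) (by
      intro k hk
      have h0 := hfv k
      rcases Nat.lt_or_ge k l with h | h
      · rw [Finset.filter_false_of_mem (fun _ _ => by omega), Finset.sum_empty]
        rw [hsm (d + 2) hd k h] at h0
        simpa using h0
      · have hkl : k = l := le_antisymm hk h
        subst hkl
        rw [Finset.filter_true_of_mem (fun _ _ => le_refl _)]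
        simpa using h0)
  have e1 : gv d V l = hh d (fun k => (fv V k : ℤ)) l - hh d (fun k => (fv V k : ℤ)) (l - 1) := rfl
  rw [Finset.card_range] at key
  generalize hN : nf (d + 2) r θ l = N at key
  have := htop (d + 2) hd
  rw [hN] at this
  rw [hd] at key
  have h3 : ((N : ℕ) : ℤ) ≤ 2 * (l : ℤ) := by exact_mod_cast this
  rw [e1, key]
  linarith

theorem thm_Low (hR : St_RegB) (hL : St_RealB) (hF : St_Fv) (hB : St_Bin) : St_Low := by
  intro l hl
  exact Low_aux hR hL hF hB l (3 * l - 2) hl (by omega)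

end Pool.CSG
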