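import Pool.Agent.CSG.St

/-!
# CSG: the maximum from the two bounds
-/

set_option autoImplicit false

open Finset Real Pool.CS4

namespace Pool.CSG

theorem main (hU : St_Upp) (hL : St_Low) (l : ℕ) (hl : 2 ≤ l) :
    IsGreatest {g : ℤ | ∃ V : Finset (E (3 * l - 2)), IsCSSimplicial (3 * l - 2) V ∧
      V.card = 6 * l ∧ gv (3 * l - 2) V l = g}
      (∑ j ∈ Finset.range (l + 1), ((3 * l).choose j : ℤ) - 2 * l) := by
  constructor
  · obtain ⟨V, h1, h2, h3⟩ := hL l hl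
    exact ⟨V, h1, h2, le_antisymm (hU l hl V h1 h2) h3⟩
  · rintro g ⟨V, h1, h2, rfl⟩
    exact hU l hl V h1 h2

end Pool.CSG
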