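import Pool.Agent.CSG.St

/-!
# CSG: module Ray (MP_54ed1a_co)

If the excess `D` of an antipode free set is positive in some direction then it is positive in the
direction of some ray `θ t` of the diagram.
-/

set_option autoImplicit false

open Finset Real Pool.CS4

noncomputable section

namespace Pool.CSG

/-- the angles are continued by `π` for every full period -/
private theorem Ray_per {m : ℕ} {θ : ℤ → ℝ} (h : ∀ j : ℤ, θ (j + m) = θ j + π) (a : ℤ) :
    ∀ j : ℤ, θ (j + a * m) = θ j + a * π := by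
  induction a using Int.induction_on with
  | zero => intro j; simp
  | succ i ih =>
    intro j
    have e : j + ((i : ℤ) + 1) * (m : ℤ) = (j + (i : ℤ) * m) + m := by ring
    rw [e, h, ih]
    push_cast
    ring
  | pred i ih =>
    intro j
    have e : j + (-(i : ℤ)) * (m : ℤ) = (j + (-(i : ℤ) - 1) * m) + m := by ring
    have h1 := ih j
    rw [e, h] at h1
    push_cast at h1 ⊢
    linarith

/-- every direction lies between two consecutive rays -/
private theorem Ray_loc {m : ℕ} {r θ : ℤ → ℝ} (hC : Cf m r θ) (α : ℝ) :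
    ∃ t : ℤ, θ (t - 1) ≤ α ∧ α ≤ θ t := by
  have hper := Ray_per hC.tp
  have hpi := Real.pi_pos
  obtain ⟨k, hk⟩ : ∃ k : ℕ, (α - θ 0) / π < k := exists_nat_gt _
  obtain ⟨k', hk'⟩ : ∃ k' : ℕ, (θ 0 - α) / π < k' := exists_nat_gt _
  have hup : α ≤ θ (0 + (k : ℤ) * m) := by
    rw [hper]
    rw [div_lt_iff₀ hpi] at hk
    push_cast
    linarith
  have hlo : θ (0 + (-(k' : ℤ)) * m) < α := by
    rw [hper]
    rw [div_lt_iff₀ hpi] at hk'
    push_cast
    linarith
  obtain ⟨t, ht, hmin⟩ := Int.exists_least_of_bdd (P := fun z : ℤ => α ≤ θ z)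
    ⟨0 + (-(k' : ℤ)) * m, fun z hz => by
      by_contra hlt
      have hle : z ≤ 0 + (-(k' : ℤ)) * m := by omega
      have := hC.mono hle
      have hz' : α ≤ θ z := hz
      linarith⟩ ⟨_, hup⟩
  refine ⟨t, ?_, ht⟩
  by_contra hlt
  have := hmin (t - 1) (le_of_lt (not_le.mp hlt))
  omega

/-- the sum of the window as one sum of sines -/
private theorem Ray_sum (m : ℕ) (r θ : ℤ → ℝ) (X : Finset ℕ) (hX : X ⊆ range m) (t : ℤ) (x : ℝ) :
    2 * ∑ s ∈ X, w r θ (t + s) x - ∑ s ∈ range m, w r θ (t + s) x =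
      ∑ s ∈ range m, ((if s ∈ X then 2 * r (t + s) else 0) - r (t + s)) * sin (θ (t + s) - x) := by
  classical
  have h1 : ∑ s ∈ X, w r θ (t + s) x = ∑ s ∈ range m, if s ∈ X then w r θ (t + s) x else 0 := by
    rw [← Finset.sum_filter]
    congr 1
    ext s
    simp only [Finset.mem_filter]
    exact ⟨fun h => ⟨hX h, h⟩, fun h => h.2⟩
  rw [h1, Finset.mul_sum, ← Finset.sum_sub_distrib]
  refine Finset.sum_congr rfl fun s _ => ?_
  unfold w
  by_cases hs : s ∈ X
  · simp only [hs, if_true]; ring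
  · simp only [hs, if_false]; ring

/-- two consecutive rays differ by less than `π` -/
private theorem Ray_lt {m : ℕ} [NeZero m] {r θ : ℤ → ℝ} (hC : Cf m r θ) (t : ℤ) :
    θ t < θ (t - 1) + π := by
  by_contra hge
  have hge' : θ (t - 1) + π ≤ θ t := not_lt.mp hge
  have hm : (0 : ℤ) < m := by exact_mod_cast Nat.pos_of_ne_zero (NeZero.ne m)
  have hper := Ray_per hC.tp
  obtain ⟨j, hj⟩ := hC.sp (θ t)
  apply hj
  have hdec : t + (j - t) % m + (j - t) / m * m = j := by
    have := Int.emod_add_mul_ediv (j - t) m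
    have e : (j - t) / (m : ℤ) * m = m * ((j - t) / m) := by ring
    rw [e]
    omega
  have hs0 : 0 ≤ (j - t) % (m : ℤ) := Int.emod_nonneg _ hm.ne'
  have hs1 : (j - t) % (m : ℤ) < m := Int.emod_lt_of_pos _ hm
  have hA : θ t ≤ θ (t + (j - t) % m) := hC.mono (by omega)
  have hB : θ (t + (j - t) % m) ≤ θ (t - 1 + m) := hC.mono (by omega)
  rw [hC.tp] at hB
  have hE : θ (t + (j - t) % m) = θ t := by linarith
  have hθ : θ j = θ t + ((j - t) / m : ℤ) * π := by
    have h2 := hper ((j - t) / m) (t + (j - t) % m)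
    rw [hdec, hE] at h2
    exact h2
  have hz : sin (θ j - θ t) = 0 := by
    rw [hθ, add_sub_cancel_left]
    exact Real.sin_int_mul_pi _
  rw [hz, mul_zero]

/-- a positive value of the excess implies a positive value at some ray -/
theorem thm_Ray (hS : St_Sin) (hW : St_Win) : St_Ray := by
  intro m _ r θ hC N hN hpos
  by_contra hno
  have hno' : ∀ t : ℤ, D m r θ N (θ t) ≤ 0 := fun t => not_lt.mp fun h => hno ⟨t, h⟩
  obtain ⟨α, hα⟩ := hpos
  obtain ⟨t, h1, h2⟩ := Ray_loc hC α
  have hlt := Ray_lt hC t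
  have hX : Xp m N t ⊆ range m := by
    unfold Xp
    exact Finset.filter_subset _ _
  have hD : ∀ x : ℝ, θ (t - 1) ≤ x → x ≤ θ t → D m r θ N x =
      ∑ s ∈ range m, ((if s ∈ Xp m N t then 2 * r (t + s) else 0) - r (t + s)) *
        sin (θ (t + s) - x) := by
    intro x hx1 hx2
    rw [(hW m r θ hC N hN t x hx1 hx2).2]
    exact Ray_sum m r θ _ hX t x
  have hle : θ (t - 1) ≤ θ t := h1.trans h2
  have k1 := hno' (t - 1)
  have k2 := hno' t
  rw [hD _ le_rfl hle] at k1
  rw [hD _ hle le_rfl] at k2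
  have k3 := hS ℕ (range m) (fun s => (if s ∈ Xp m N t then 2 * r (t + s) else 0) - r (t + s))
    (fun s => θ (t + s)) (θ (t - 1)) (θ t) α h1 h2 hlt k1 k2
  rw [hD α h1 h2] at hα
  exact absurd hα (not_lt.mpr k3)

end Pool.CSG
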