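import Pool.Agent.CSG.St

set_option autoImplicit false

open Finset Real Pool.CS4

namespace Pool.CSG

/-- polar coordinates -/
private lemma RealA_polar (a b : ℝ) : ∃ ρ α : ℝ, ρ * cos α = a ∧ ρ * sin α = b :=
  ⟨‖(⟨a, b⟩ : ℂ)‖, Complex.arg ⟨a, b⟩, Complex.norm_mul_cos_arg _, Complex.norm_mul_sin_arg _⟩

theorem thm_RealA : St_RealA := by
  classical
  intro d r θ hd hcf hgp
  set m : ℕ := d + 2 with hm
  set p : Fin m → ℝ := fun s => r ((s : ℕ) : ℤ) * sin (θ ((s : ℕ) : ℤ)) with hp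
  set q : Fin m → ℝ := fun s => r ((s : ℕ) : ℤ) * cos (θ ((s : ℕ) : ℤ)) with hq
  have hw : ∀ (s : Fin m) (α : ℝ), w r θ ((s : ℕ) : ℤ) α = cos α * p s - sin α * q s := by
    intro s α
    simp only [w, hp, hq, sin_sub]
    ring
  -- independence
  have hli : LinearIndependent ℝ ![p, q] := by
    rw [LinearIndependent.pair_iff]
    intro a b hab
    have h01 := hgp 0 1 (by norm_num) (by omega)
    have h12 := hgp 1 2 (by norm_num) (by omega)
    have hr1 : r 1 ≠ 0 := by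
      intro h
      rw [h, zero_mul] at h12
      exact lt_irrefl _ h12
    have e0 := congrFun hab (⟨0, by omega⟩ : Fin m)
    have e1 := congrFun hab (⟨1, by omega⟩ : Fin m)
    simp only [Pi.add_apply, Pi.smul_apply, smul_eq_mul, Pi.zero_apply, hp, hq, Nat.cast_zero,
      Nat.cast_one] at e0 e1
    rw [sin_sub] at h01
    have ha : a * (r 0 * (sin (θ 1) * cos (θ 0) - cos (θ 1) * sin (θ 0)) * r 1) = 0 := by
      linear_combination (r 0 * cos (θ 0)) * e1 - (r 1 * cos (θ 1)) * e0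
    have hb : b * (r 0 * (sin (θ 1) * cos (θ 0) - cos (θ 1) * sin (θ 0)) * r 1) = 0 := by
      linear_combination (r 1 * sin (θ 1)) * e0 - (r 0 * sin (θ 0)) * e1
    have hne : r 0 * (sin (θ 1) * cos (θ 0) - cos (θ 1) * sin (θ 0)) * r 1 ≠ 0 :=
      mul_ne_zero h01.ne' hr1
    exact ⟨(mul_eq_zero.1 ha).resolve_right hne, (mul_eq_zero.1 hb).resolve_right hne⟩
  set U : Submodule ℝ (Fin m → ℝ) := Submodule.span ℝ (Set.range ![p, q]) with hU
  have hfU : Module.finrank ℝ U = 2 := by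
    rw [hU, finrank_span_eq_card hli, Fintype.card_fin]
  have hfQ : Module.finrank ℝ ((Fin m → ℝ) ⧸ U) = Module.finrank ℝ (E d) := by
    have h1 := U.finrank_quotient_add_finrank
    rw [hfU, Module.finrank_fin_fun] at h1
    have h2 : Module.finrank ℝ (E d) = d := Module.finrank_fin_fun ℝ
    omega
  let φ : ((Fin m → ℝ) ⧸ U) ≃ₗ[ℝ] E d := LinearEquiv.ofFinrankEq _ _ hfQ
  let ψ : (Fin m → ℝ) →ₗ[ℝ] E d := φ.toLinearMap ∘ₗ U.mkQ
  have hψ : ∀ x, ψ x = 0 ↔ x ∈ U := by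
    intro x
    show φ (U.mkQ x) = 0 ↔ _
    rw [φ.map_eq_zero_iff, Submodule.mkQ_apply, Submodule.Quotient.mk_eq_zero]
  have hsurj : Function.Surjective ψ := φ.surjective.comp U.mkQ_surjective
  have hm0 : (0 : ℤ) < m := by omega
  let idx : ℤ → Fin m := fun j => ⟨(j % (m : ℤ)).toNat, by
    have h1 := Int.emod_nonneg j hm0.ne'
    have h2 := Int.emod_lt_of_pos j hm0
    omega⟩
  let v : ℤ → E d := fun j => ((-1 : ℝ) ^ (j / (m : ℤ))) • ψ (Pi.single (idx j) 1)
  have hv : ∀ s : Fin m, v ((s : ℕ) : ℤ) = ψ (Pi.single s 1) := by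
    intro s
    have h1 : ((s : ℕ) : ℤ) / (m : ℤ) = 0 :=
      Int.ediv_eq_zero_of_lt (by omega) (by exact_mod_cast s.2)
    have h2 : idx ((s : ℕ) : ℤ) = s := by
      apply Fin.ext
      show ((((s : ℕ) : ℤ) % (m : ℤ)).toNat : ℕ) = s
      rw [Int.emod_eq_of_lt (by omega) (by exact_mod_cast s.2)]
      exact Int.toNat_natCast _
    show ((-1 : ℝ) ^ (((s : ℕ) : ℤ) / (m : ℤ))) • ψ (Pi.single (idx ((s : ℕ) : ℤ)) 1) = _
    rw [h1, h2, zpow_zero, one_smul]
  refine ⟨v, ?_, ?_, ?_⟩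
  · intro j
    have h1 : (j + (m : ℕ)) / (m : ℤ) = j / (m : ℤ) + 1 := Int.add_ediv_of_dvd_right
      (dvd_refl _) |>.trans (by rw [Int.ediv_self hm0.ne'])
    have h2 : idx (j + (m : ℕ)) = idx j := by
      apply Fin.ext
      show ((j + (m : ℕ)) % (m : ℤ)).toNat = (j % (m : ℤ)).toNat
      rw [Int.add_emod_right]
    show ((-1 : ℝ) ^ ((j + (m : ℕ)) / (m : ℤ))) • ψ (Pi.single (idx (j + (m : ℕ))) 1) =
      -(((-1 : ℝ) ^ (j / (m : ℤ))) • ψ (Pi.single (idx j) 1))
    rw [h1, h2, zpow_add_one₀ (by norm_num), mul_neg_one, neg_smul]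
  · rw [eq_top_iff]
    intro y _
    obtain ⟨x, rfl⟩ := hsurj y
    have h1 : x = ∑ s : Fin m, x s • (Pi.single s (1 : ℝ) : Fin m → ℝ) := by
      conv_lhs => rw [pi_eq_sum_univ' x]
    rw [h1, map_sum]
    refine Submodule.sum_mem _ fun s _ => ?_
    rw [map_smul]
    exact Submodule.smul_mem _ _ (Submodule.subset_span ⟨((s : ℕ) : ℤ), hv s⟩)
  · intro c
    have h1 : ∑ s ∈ range (d + 2), c s • v (s : ℤ) = ψ (fun s : Fin m => c s) := by
      have h2 : (fun s : Fin m => c s) = ∑ s : Fin m, c s • (Pi.single s (1 : ℝ) : Fin m → ℝ) := by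
        conv_lhs => rw [pi_eq_sum_univ' (fun s : Fin m => c s)]
      rw [h2, map_sum, ← hm, Finset.sum_range (fun s : ℕ => c s • v (s : ℤ))]
      refine Finset.sum_congr rfl fun s _ => ?_
      rw [map_smul, hv s]
    rw [h1, hψ]
    constructor
    · intro h
      rw [hU, Matrix.range_cons, Matrix.range_cons, Matrix.range_empty, Set.union_empty,
        Set.singleton_union, Submodule.mem_span_pair] at h
      obtain ⟨a, b, hab⟩ := h
      obtain ⟨ρ, α, h3, h4⟩ := RealA_polar a (-b)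
      refine ⟨ρ, α, fun s hs => ?_⟩
      have h5 := congrFun hab (⟨s, hs⟩ : Fin m)
      have h6 := hw ⟨s, hs⟩ α
      simp only [Pi.add_apply, Pi.smul_apply, smul_eq_mul] at h5 h6
      rw [h6, ← h5]
      linear_combination -(p ⟨s, hs⟩) * h3 + (q ⟨s, hs⟩) * h4
    · rintro ⟨ρ, α, h⟩
      have h2 : (fun s : Fin m => c s) = (ρ * cos α) • p + (-(ρ * sin α)) • q := by
        funext s
        rw [h s s.2, hw s α]
        simp only [Pi.add_apply, Pi.smul_apply, smul_eq_mul]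
        ring
      rw [h2]
      refine Submodule.add_mem _ (Submodule.smul_mem _ _ (Submodule.subset_span ⟨0, rfl⟩))
        (Submodule.smul_mem _ _ (Submodule.subset_span ⟨1, rfl⟩))

end Pool.CSG
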