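import Pool.Agent.CSG.St
import Pool.Agent.CS4.GConf

/-!
# CSG, module RealB: the polytope of a diagram
-/

set_option autoImplicit false

open Finset Real Pool.CS4

noncomputable section

namespace Pool.CSG

private theorem RealB_w {m : ℕ} {r θ : ℤ → ℝ} (h : Cf m r θ) (j : ℤ) (α : ℝ) :
    w r θ (j + m) α = -w r θ j α := by
  unfold w
  rw [h.rp, h.tp, show θ j + π - α = θ j - α + π by ring, sin_add_pi]
  ring

private theorem RealB_wpi {r θ : ℤ → ℝ} (j : ℤ) (α : ℝ) :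
    w r θ j (α + π) = -w r θ j α := by
  unfold w
  rw [show θ j - (α + π) = θ j - α - π by ring, sin_sub_pi]
  ring

private theorem RealB_shift (m : ℕ) (f : ℤ → ℝ) (hf : ∀ j, f (j + m) = f j) (t : ℤ) :
    ∑ s ∈ range m, f (t + s) = ∑ s ∈ range m, f (s : ℤ) := by
  have step : ∀ t : ℤ, ∑ s ∈ range m, f (t + 1 + s) = ∑ s ∈ range m, f (t + s) := by
    intro t
    have h1 := Finset.sum_range_succ (fun s : ℕ => f (t + s)) m
    have h2 := Finset.sum_range_succ' (fun s : ℕ => f (t + s)) m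
    have h3 : ∑ s ∈ range m, f (t + 1 + s) = ∑ s ∈ range m, f (t + ((s + 1 : ℕ) : ℤ)) := by
      refine Finset.sum_congr rfl fun s _ => ?_
      congr 1
      push_cast
      ring
    have h4 := hf t
    simp only [Nat.cast_zero, add_zero] at h2
    rw [h3]
    linarith
  induction t using Int.induction_on with
  | zero => simp
  | succ i ih => rw [step, ih]
  | pred i ih =>
    have h1 := step (-(i : ℤ) - 1)
    rw [sub_add_cancel] at h1
    rw [← h1, ih]

/-- the hypotheses on the diagram -/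
private structure RealB_H (m : ℕ) (r θ : ℤ → ℝ) : Prop where
  cf : Cf m r θ
  m4 : 4 ≤ m
  gp : ∀ i j : ℤ, i < j → j < i + m → 0 < r i * sin (θ j - θ i)
  tie : ∀ (t : ℤ) (X : Finset ℕ), X ⊆ range m →
    2 * ∑ s ∈ X, w r θ (t + s) (θ t) ≠ ∑ s ∈ range m, w r θ (t + s) (θ t)

private theorem RealB_rpos {m : ℕ} {r θ : ℤ → ℝ} (h : RealB_H m r θ) (i : ℤ) : 0 < r i := by
  have h0 := h.m4
  have h1 := h.gp i (i + 1) (by omega) (by omega)
  rcases (h.cf.rn i).eq_or_lt with h2 | h2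
  · rw [← h2, zero_mul] at h1
    exact absurd h1 (lt_irrefl _)
  · exact h2

private theorem RealB_ne {m : ℕ} {r θ : ℤ → ℝ} (h : RealB_H m r θ) {i j : ℤ} (hij : i < j)
    (hj : j < i + m) {α : ℝ} (h1 : w r θ i α = 0) (h2 : w r θ j α = 0) : False := by
  have hi := RealB_rpos h i
  have hj' := RealB_rpos h j
  unfold w at h1 h2
  have e1 : sin (θ i - α) = 0 := by
    rcases mul_eq_zero.1 h1 with h3 | h3
    · exact absurd h3 hi.ne'
    · exact h3
  have e2 : sin (θ j - α) = 0 := by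
    rcases mul_eq_zero.1 h2 with h3 | h3
    · exact absurd h3 hj'.ne'
    · exact h3
  have h3 := h.gp i j hij hj
  rw [show θ j - θ i = (θ j - α) - (θ i - α) by ring, sin_sub, e1, e2] at h3
  simp at h3

private theorem RealB_ne' {m : ℕ} {r θ : ℤ → ℝ} (h : RealB_H m r θ) {i j : ℕ} (hi : i < m)
    (hj : j < m) (hij : i ≠ j) {α : ℝ} (h1 : w r θ (i : ℤ) α = 0) (h2 : w r θ (j : ℤ) α = 0) :
    False := by
  rcases lt_or_gt_of_ne hij with h3 | h3
  · exact RealB_ne h (by exact_mod_cast h3) (by omega) h1 h2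
  · exact RealB_ne h (by exact_mod_cast h3) (by omega) h2 h1

section dep

variable {d m : ℕ} {r θ : ℤ → ℝ} {v : ℤ → E d}

/-- a dependency with two zeros vanishes -/
private theorem RealB_zero2 (h : RealB_H m r θ)
    (hdep : ∀ c : ℕ → ℝ, ∑ s ∈ range m, c s • v (s : ℤ) = 0 ↔
      ∃ ρ α : ℝ, ∀ s < m, c s = ρ * w r θ (s : ℤ) α)
    {c : ℕ → ℝ} (hc : ∑ s ∈ range m, c s • v (s : ℤ) = 0) {a b : ℕ} (ha : a < m) (hb : b < m)
    (hab : a ≠ b) (h1 : c a = 0) (h2 : c b = 0) : ∀ s < m, c s = 0 := by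
  obtain ⟨ρ, α, h3⟩ := (hdep c).1 hc
  by_cases hρ : ρ = 0
  · intro s hs
    rw [h3 s hs, hρ, zero_mul]
  · exfalso
    have e1 := h3 a ha
    have e2 := h3 b hb
    rw [h1] at e1
    rw [h2] at e2
    have e1' := (mul_eq_zero.1 e1.symm).resolve_left hρ
    have e2' := (mul_eq_zero.1 e2.symm).resolve_left hρ
    exact RealB_ne' h ha hb hab e1' e2'

/-- a dependency with one zero and with vanishing signed sum vanishes -/
private theorem RealB_zero1 (h : RealB_H m r θ)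
    (hdep : ∀ c : ℕ → ℝ, ∑ s ∈ range m, c s • v (s : ℤ) = 0 ↔
      ∃ ρ α : ℝ, ∀ s < m, c s = ρ * w r θ (s : ℤ) α)
    {c : ℕ → ℝ} (hc : ∑ s ∈ range m, c s • v (s : ℤ) = 0) {e : ℤ → ℝ}
    (he : ∀ j, e (j + m) = -e j) (he1 : ∀ s < m, c s ≠ 0 → e (s : ℤ) = 1 ∨ e (s : ℤ) = -1)
    {k : ℕ} (hk : k < m) (hck : c k = 0) (hsum : ∑ s ∈ range m, e (s : ℤ) * c s = 0) :
    ∀ s < m, c s = 0 := by
  obtain ⟨ρ, α, h3⟩ := (hdep c).1 hc
  by_cases hρ : ρ = 0
  · intro s hs
    rw [h3 s hs, hρ, zero_mul]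
  exfalso
  have e1 := h3 k hk
  rw [hck] at e1
  have e2 := (mul_eq_zero.1 e1.symm).resolve_left hρ
  have hs0 : sin (θ k - α) = 0 := by
    unfold w at e2
    exact (mul_eq_zero.1 e2).resolve_left (RealB_rpos h k).ne'
  obtain ⟨n, hn⟩ := Real.sin_eq_zero_iff.1 hs0
  have hw : ∀ j : ℤ, w r θ j α = (-1) ^ n * w r θ j (θ k) := by
    intro j
    unfold w
    have h4 : θ j - α = θ j - θ k + n * π := by
      rw [hn]
      ring
    rw [h4, Real.sin_add_int_mul_pi]
    ring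
  have hσ : ((-1 : ℝ) ^ n) ≠ 0 := zpow_ne_zero _ (by norm_num)
  have hsum' : ∑ s ∈ range m, e (s : ℤ) * w r θ (s : ℤ) (θ k) = 0 := by
    have h4 : ∑ s ∈ range m, e (s : ℤ) * c s =
        (ρ * (-1) ^ n) * ∑ s ∈ range m, e (s : ℤ) * w r θ (s : ℤ) (θ k) := by
      rw [Finset.mul_sum]
      refine Finset.sum_congr rfl fun s hs => ?_
      rw [h3 s (mem_range.1 hs), hw]
      ring
    rw [h4] at hsum
    exact (mul_eq_zero.1 hsum).resolve_left (mul_ne_zero hρ hσ)
  have hsh : ∑ s ∈ range m, e ((k : ℤ) + (s : ℤ)) * w r θ ((k : ℤ) + (s : ℤ)) (θ k) = 0 := by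
    rw [← hsum']
    refine RealB_shift m (fun j => e j * w r θ j (θ k)) (fun j => ?_) k
    rw [he, RealB_w h.cf]
    ring
  have hcase : ∀ s : ℕ, s < m → e ((k : ℤ) + (s : ℤ)) = 1 ∨ e ((k : ℤ) + (s : ℤ)) = -1 ∨
      w r θ ((k : ℤ) + (s : ℤ)) (θ k) = 0 := by
    intro s hs
    rcases Nat.eq_zero_or_pos s with h0 | h0
    · right; right
      rw [h0]
      unfold w
      simp
    · have hcn : ∀ s' < m, s' ≠ k → c s' ≠ 0 := by
        intro s' hs' hne h5
        rw [h3 s' hs'] at h5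
        exact RealB_ne' h hs' hk hne ((mul_eq_zero.1 h5).resolve_left hρ) e2
      rcases Nat.lt_or_ge (k + s) m with h5 | h5
      · have h6 := he1 (k + s) h5 (hcn _ h5 (by omega))
        push_cast at h6
        rcases h6 with h6 | h6
        · exact Or.inl h6
        · exact Or.inr (Or.inl h6)
      · have h6 := he1 (k + s - m) (by omega) (hcn _ (by omega) (by omega))
        have h7 : (k : ℤ) + (s : ℤ) = ((k + s - m : ℕ) : ℤ) + m := by
          push_cast [Nat.cast_sub h5]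
          ring
        rw [h7, he]
        rcases h6 with h6 | h6
        · right; left
          rw [h6]
        · left
          rw [h6]
          norm_num
  obtain ⟨X, hX⟩ : ∃ X : Finset ℕ,
      X = (range m).filter (fun s : ℕ => e ((k : ℤ) + (s : ℤ)) = 1) := ⟨_, rfl⟩
  refine h.tie k X (by rw [hX]; exact filter_subset _ _) ?_
  have h8 : ∑ s ∈ range m, e ((k : ℤ) + (s : ℤ)) * w r θ ((k : ℤ) + (s : ℤ)) (θ k) =
      2 * (∑ s ∈ X, w r θ ((k : ℤ) + (s : ℤ)) (θ k)) -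
        ∑ s ∈ range m, w r θ ((k : ℤ) + (s : ℤ)) (θ k) := by
    rw [hX, Finset.sum_filter, Finset.mul_sum, ← Finset.sum_sub_distrib]
    refine Finset.sum_congr rfl fun s hs => ?_
    by_cases h9 : e ((k : ℤ) + (s : ℤ)) = 1
    · rw [if_pos h9, h9]
      ring
    · rw [if_neg h9]
      rcases hcase s (mem_range.1 hs) with h10 | h10 | h10
      · exact absurd h10 h9
      · rw [h10]
        ring
      · rw [h10]
        ring
  rw [hsh] at h8
  linarith

/-- two indices outside of a small set -/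
private theorem RealB_two {m : ℕ} (B : Finset ℕ) (hB : B.card + 2 ≤ m) :
    ∃ a b : ℕ, a < m ∧ b < m ∧ a ≠ b ∧ a ∉ B ∧ b ∉ B := by
  have h1 : m - B.card ≤ (range m \ B).card := by
    have := Finset.le_card_sdiff B (range m)
    rwa [card_range] at this
  have h2 : 1 < (range m \ B).card := by omega
  obtain ⟨a, ha, b, hb, hab⟩ := Finset.one_lt_card.1 h2
  rw [mem_sdiff, mem_range] at ha hb
  exact ⟨a, b, ha.1, hb.1, hab, ha.2, hb.2⟩

private theorem RealB_fold (hneg : ∀ j, v (j + m) = -v j) {i : ℕ} (hi : i < 2 * m) :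
    ∃ i' : ℕ, ∃ σ : ℝ, i' < m ∧ v (i : ℤ) = σ • v (i' : ℤ) ∧
      ((i = i' ∧ σ = 1) ∨ (i = i' + m ∧ σ = -1)) := by
  rcases Nat.lt_or_ge i m with h1 | h1
  · exact ⟨i, 1, h1, by rw [one_smul], Or.inl ⟨rfl, rfl⟩⟩
  · refine ⟨i - m, -1, by omega, ?_, Or.inr ⟨by omega, rfl⟩⟩
    have h2 : (i : ℤ) = ((i - m : ℕ) : ℤ) + m := by
      push_cast [Nat.cast_sub h1]
      ring
    rw [neg_one_smul]
    conv_lhs => rw [h2]
    exact hneg _

private theorem RealB_inj (h : RealB_H m r θ) (hneg : ∀ j, v (j + m) = -v j)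
    (hdep : ∀ c : ℕ → ℝ, ∑ s ∈ range m, c s • v (s : ℤ) = 0 ↔
      ∃ ρ α : ℝ, ∀ s < m, c s = ρ * w r θ (s : ℤ) α) :
    ∀ i j : ℕ, i < 2 * m → j < 2 * m → v (i : ℤ) = v (j : ℤ) → i = j := by
  intro i j hi hj hij
  obtain ⟨i', σ, hi', h1, h2⟩ := RealB_fold hneg hi
  obtain ⟨j', τ, hj', h3, h4⟩ := RealB_fold hneg hj
  rw [h1, h3] at hij
  have hc : ∑ s ∈ range m, ((if s = i' then σ else 0) - (if s = j' then τ else 0) : ℝ) •
      v (s : ℤ) = 0 := by
    simp only [sub_smul, ite_smul, zero_smul, Finset.sum_sub_distrib]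
    rw [Finset.sum_ite_eq', Finset.sum_ite_eq', if_pos (mem_range.2 hi'),
      if_pos (mem_range.2 hj'), hij, sub_self]
  obtain ⟨a, b, ha, hb, hab, ha', hb'⟩ := RealB_two (m := m) ({i', j'} : Finset ℕ) (by
    have := h.m4
    have := Finset.card_le_two (a := i') (b := j')
    omega)
  rw [mem_insert, mem_singleton, not_or] at ha' hb'
  have h5 := RealB_zero2 h hdep hc ha hb hab (by
    rw [if_neg ha'.1, if_neg ha'.2, sub_self]) (by
    rw [if_neg hb'.1, if_neg hb'.2, sub_self]) i' hi'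
  simp only [if_true] at h5
  have hσ : σ ≠ 0 := by
    rcases h2 with h2 | h2
    · rw [h2.2]
      norm_num
    · rw [h2.2]
      norm_num
  by_cases h6 : i' = j'
  · rw [if_pos h6] at h5
    rcases h2 with h2 | h2
    · rcases h4 with h4 | h4
      · omega
      · rw [h2.2, h4.2] at h5
        norm_num at h5
    · rcases h4 with h4 | h4
      · rw [h2.2, h4.2] at h5
        norm_num at h5
      · omega
  · rw [if_neg h6, sub_zero] at h5
    exact absurd h5 hσ

private def RealB_V {d : ℕ} (m : ℕ) (v : ℤ → E d) : Finset (E d) := by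
  classical
  exact (range (2 * m)).image fun j : ℕ => v (j : ℤ)

private theorem RealB_mem {u : E d} : u ∈ RealB_V m v ↔ ∃ j : ℕ, j < 2 * m ∧ v (j : ℤ) = u := by
  classical
  unfold RealB_V
  rw [Finset.mem_image]
  simp only [mem_range]

private theorem RealB_card (hinj : ∀ i j : ℕ, i < 2 * m → j < 2 * m → v (i : ℤ) = v (j : ℤ) → i = j) :
    (RealB_V m v).card = 2 * m := by
  classical
  unfold RealB_V
  rw [Finset.card_image_of_injOn, card_range]
  intro i hi j hj hij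
  rw [Finset.mem_coe, mem_range] at hi hj
  exact hinj i j hi hj hij

private theorem RealB_sum (hneg : ∀ j, v (j + m) = -v j)
    (hinj : ∀ i j : ℕ, i < 2 * m → j < 2 * m → v (i : ℤ) = v (j : ℤ) → i = j)
    {A : Type*} [AddCommMonoid A] (F : E d → A) :
    ∑ u ∈ RealB_V m v, F u = ∑ s ∈ range m, (F (v (s : ℤ)) + F (-v (s : ℤ))) := by
  classical
  unfold RealB_V
  rw [Finset.sum_image (fun i hi j hj hij => hinj i j (by simpa using hi) (by simpa using hj) hij),
    two_mul, Finset.sum_range_add, Finset.sum_add_distrib]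
  congr 1
  refine Finset.sum_congr rfl fun s _ => ?_
  rw [← hneg]
  congr 2
  push_cast
  ring

private theorem RealB_lin (h : RealB_H m r θ) (hneg : ∀ j, v (j + m) = -v j)
    (hdep : ∀ c : ℕ → ℝ, ∑ s ∈ range m, c s • v (s : ℤ) = 0 ↔
      ∃ ρ α : ℝ, ∀ s < m, c s = ρ * w r θ (s : ℤ) α)
    {S : Finset (E d)} (hS : S ⊆ RealB_V m v) (hN : NoAnti S) {g : E d → ℝ}
    (hg0 : ∀ u, u ∉ S → g u = 0) (hg : ∑ u ∈ S, g u • u = 0)
    (hcase : S.card + 2 ≤ m ∨ (S.card + 1 ≤ m ∧ ∑ u ∈ S, g u = 0)) : ∀ u ∈ S, g u = 0 := by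
  classical
  have hinj := RealB_inj h hneg hdep
  have hgV : ∑ s ∈ range m, (g (v (s : ℤ)) - g (-v (s : ℤ))) • v (s : ℤ) = 0 := by
    have h1 := RealB_sum hneg hinj (fun u => g u • u)
    have h2 : ∑ u ∈ RealB_V m v, g u • u = ∑ u ∈ S, g u • u := by
      symm
      refine Finset.sum_subset hS fun u _ hu => ?_
      rw [hg0 u hu, zero_smul]
    rw [h2, hg] at h1
    rw [h1]
    refine Finset.sum_congr rfl fun s _ => ?_
    rw [sub_smul, smul_neg, sub_eq_add_neg]
  -- the set of the covered indices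
  obtain ⟨B, hB⟩ : ∃ B : Finset ℕ,
      B = (range m).filter (fun s : ℕ => v (s : ℤ) ∈ S ∨ -v (s : ℤ) ∈ S) := ⟨_, rfl⟩
  have hBS : B.card ≤ S.card := by
    refine Finset.card_le_card_of_injOn
      (fun s : ℕ => if v (s : ℤ) ∈ S then v (s : ℤ) else -v (s : ℤ)) ?_ ?_
    · intro s hs
      rw [Finset.mem_coe, hB, mem_filter] at hs
      simp only
      split_ifs with h1
      · exact h1
      · exact hs.2.resolve_left h1
    · intro s hs t ht hst
      rw [Finset.mem_coe, hB, mem_filter, mem_range] at hs ht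
      have e1 : ∀ s : ℕ, -v (s : ℤ) = v ((s + m : ℕ) : ℤ) := by
        intro s
        push_cast
        rw [hneg]
      simp only at hst
      split_ifs at hst with h1 h2 h2
      · exact hinj s t (by omega) (by omega) hst
      · rw [e1] at hst
        have := hinj s (t + m) (by omega) (by omega) hst
        omega
      · rw [e1] at hst
        have := hinj (s + m) t (by omega) (by omega) hst
        omega
      · rw [neg_inj] at hst
        exact hinj s t (by omega) (by omega) hst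
  have hout : ∀ s < m, s ∉ B → g (v (s : ℤ)) - g (-v (s : ℤ)) = 0 := by
    intro s hs hsB
    rw [hB, mem_filter, mem_range] at hsB
    have h1 : ¬(v (s : ℤ) ∈ S ∨ -v (s : ℤ) ∈ S) := fun h2 => hsB ⟨hs, h2⟩
    rw [not_or] at h1
    rw [hg0 _ h1.1, hg0 _ h1.2, sub_self]
  have hall : ∀ s < m, g (v (s : ℤ)) - g (-v (s : ℤ)) = 0 := by
    rcases hcase with h1 | ⟨h1, h2⟩
    · obtain ⟨a, b, ha, hb, hab, ha', hb'⟩ := RealB_two B (m := m) (by omega)
      exact RealB_zero2 h hdep (c := fun s => g (v (s : ℤ)) - g (-v (s : ℤ))) hgV ha hb hab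
        (hout a ha ha') (hout b hb hb')
    · obtain ⟨k, hk⟩ : (range m \ B).Nonempty := by
        rw [← card_pos]
        have := Finset.le_card_sdiff B (range m)
        rw [card_range] at this
        omega
      rw [mem_sdiff, mem_range] at hk
      have hNN : ∀ u, u ∈ S → -u ∉ S := hN
      refine RealB_zero1 h hdep (c := fun s => g (v (s : ℤ)) - g (-v (s : ℤ))) hgV
        (e := fun j => if v j ∈ S then 1 else if -v j ∈ S then -1 else 0) ?_ ?_ hk.1
        (hout k hk.1 hk.2) ?_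
      · intro j
        rw [hneg, neg_neg]
        by_cases h3 : v j ∈ S
        · rw [if_neg (hNN _ h3), if_pos h3, if_pos h3]
        · by_cases h4 : -v j ∈ S
          · rw [if_pos h4, if_neg h3, if_pos h4, neg_neg]
          · rw [if_neg h4, if_neg h3, if_neg h3, if_neg h4, neg_zero]
      · intro s _ hs
        by_cases h3 : v (s : ℤ) ∈ S
        · left
          rw [if_pos h3]
        · by_cases h4 : -v (s : ℤ) ∈ S
          · right
            rw [if_neg h3, if_pos h4]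
          · exfalso
            apply hs
            rw [hg0 _ h3, hg0 _ h4, sub_self]
      · have h5 := RealB_sum hneg hinj g
        have h6 : ∑ u ∈ RealB_V m v, g u = ∑ u ∈ S, g u := by
          symm
          exact Finset.sum_subset hS fun u _ hu => hg0 u hu
        rw [h6, h2] at h5
        rw [h5]
        refine Finset.sum_congr rfl fun s _ => ?_
        by_cases h3 : v (s : ℤ) ∈ S
        · rw [if_pos h3, hg0 _ (hNN _ h3)]
          ring
        · by_cases h4 : -v (s : ℤ) ∈ S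
          · rw [if_neg h3, if_pos h4, hg0 _ h3]
            ring
          · rw [if_neg h3, if_neg h4, hg0 _ h3, hg0 _ h4]
            ring
  intro u hu
  obtain ⟨j, hj, rfl⟩ := RealB_mem.1 (hS hu)
  obtain ⟨i', σ, hi', h1, h2⟩ := RealB_fold hneg hj
  have h3 := hall i' hi'
  rcases h2 with ⟨_, h2⟩ | ⟨_, h2⟩
  · rw [h2, one_smul] at h1
    rw [h1] at hu ⊢
    rw [hg0 _ (hN _ hu), sub_zero] at h3
    exact h3
  · rw [h2, neg_one_smul] at h1
    rw [h1] at hu ⊢
    have h4 := hN _ hu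
    rw [neg_neg] at h4
    rw [hg0 _ h4, zero_sub, neg_eq_zero] at h3
    exact h3

private theorem RealB_gp (h : RealB_H m r θ) (hm : m = d + 2) (hneg : ∀ j, v (j + m) = -v j)
    (hdep : ∀ c : ℕ → ℝ, ∑ s ∈ range m, c s • v (s : ℤ) = 0 ↔
      ∃ ρ α : ℝ, ∀ s < m, c s = ρ * w r θ (s : ℤ) α) : GP (RealB_V m v) := by
  classical
  intro S hS hN
  have hext : ∀ f : {x // x ∈ S} → ℝ, ∃ g : E d → ℝ, (∀ u, u ∉ S → g u = 0) ∧
      (∀ x : {x // x ∈ S}, g x = f x) := by
    intro f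
    refine ⟨fun u => if hu : u ∈ S then f ⟨u, hu⟩ else 0, ?_, ?_⟩
    · intro u hu
      simp only [dif_neg hu]
    · intro x
      simp only [dif_pos x.2]
  constructor
  · intro hc
    rw [Fintype.linearIndependent_iff]
    intro f hf x
    obtain ⟨g, hg0, hg⟩ := hext f
    rw [← hg x]
    refine RealB_lin h hneg hdep hS hN hg0 ?_ (Or.inl (by omega)) x x.2
    rw [← Finset.sum_coe_sort S (fun u => g u • u), ← hf]
    exact Finset.sum_congr rfl fun y _ => by rw [hg]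
  · intro hc
    rw [affineIndependent_iff_of_fintype]
    intro f hf1 hf x
    obtain ⟨g, hg0, hg⟩ := hext f
    rw [Finset.weightedVSub_eq_linear_combination _ hf1] at hf
    rw [← hg x]
    refine RealB_lin h hneg hdep hS hN hg0 ?_ (Or.inr ⟨by omega, ?_⟩) x x.2
    · rw [← Finset.sum_coe_sort S (fun u => g u • u), ← hf]
      exact Finset.sum_congr rfl fun y _ => by rw [hg]
    · rw [← Finset.sum_coe_sort S g, ← hf1]
      exact Finset.sum_congr rfl fun y _ => by rw [hg]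

private theorem RealB_loc (h : Cf m r θ) (α : ℝ) : ∃ t : ℤ, θ (t - 1) ≤ α ∧ α ≤ θ t := by
  have h1 : ∀ n : ℕ, θ (0 + (n : ℤ) * m) = θ 0 + n * π := by
    intro n
    induction n with
    | zero => simp
    | succ n ih =>
      have h3 : (0 : ℤ) + ((n + 1 : ℕ) : ℤ) * m = (0 + (n : ℤ) * m) + m := by
        push_cast
        ring
      rw [h3, h.tp, ih]
      push_cast
      ring
  have h2 : ∀ n : ℕ, θ (0 - (n : ℤ) * m) = θ 0 - n * π := by
    intro n
    induction n with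
    | zero => simp
    | succ n ih =>
      have h3 := h.tp (0 - ((n + 1 : ℕ) : ℤ) * m)
      have h4 : (0 : ℤ) - ((n + 1 : ℕ) : ℤ) * m + m = 0 - (n : ℤ) * m := by
        push_cast
        ring
      rw [h4, ih] at h3
      rw [eq_sub_of_add_eq h3.symm]
      push_cast
      ring
  obtain ⟨n, hn⟩ := exists_nat_gt ((α - θ 0) / π)
  obtain ⟨n', hn'⟩ := exists_nat_gt ((θ 0 - α) / π)
  rw [div_lt_iff₀ pi_pos] at hn hn'
  have hbd : ∀ z : ℤ, α ≤ θ z → 0 - (n' : ℤ) * m ≤ z := by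
    intro z hz
    by_contra hcon
    push Not at hcon
    have h3 := h.mono hcon.le
    rw [h2] at h3
    linarith
  have hin : α ≤ θ (0 + (n : ℤ) * m) := by
    rw [h1]
    linarith
  obtain ⟨t, ht, ht'⟩ := Int.exists_least_of_bdd (P := fun z : ℤ => α ≤ θ z) ⟨_, hbd⟩ ⟨_, hin⟩
  refine ⟨t, ?_, ht⟩
  by_contra hcon
  push Not at hcon
  have := ht' (t - 1) hcon.le
  omega

private theorem RealB_D (hWin : St_Win) [NeZero m] (h : RealB_H m r θ)
    {N : Finset (ZMod (2 * m))} (hN : AF m N) (t : ℤ) : D m r θ N (θ t) ≠ 0 := by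
  classical
  have h1 := (hWin m r θ h.cf N hN t (θ t) (h.cf.mono (by omega)) le_rfl).2
  rw [h1]
  intro h2
  refine h.tie t (Xp m N t) ?_ (by linarith)
  unfold Xp
  exact filter_subset _ _

private theorem RealB_neg (hWin : St_Win) [NeZero m] (h : RealB_H m r θ)
    {N : Finset (ZMod (2 * m))} (hN : AF m N) (h1 : ∀ α, D m r θ N α ≤ 0) (α : ℝ) :
    D m r θ N α < 0 := by
  have hm := h.m4
  obtain ⟨t, ht1, ht2⟩ := RealB_loc h.cf α
  have ha : D m r θ N (θ (t - 1)) < 0 := lt_of_le_of_ne (h1 _) (RealB_D hWin h hN _)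
  have hb : D m r θ N (θ t) < 0 := lt_of_le_of_ne (h1 _) (RealB_D hWin h hN _)
  have hW : ∀ β, θ (t - 1) ≤ β → β ≤ θ t → D m r θ N β =
      2 * ∑ s ∈ Xp m N t, w r θ (t + s) β - ∑ s ∈ range m, w r θ (t + s) β :=
    fun β h2 h3 => (hWin m r θ h.cf N hN t β h2 h3).2
  have hw : ∀ j : ℤ, sin (θ t - θ (t - 1)) * w r θ j α =
      sin (θ t - α) * w r θ j (θ (t - 1)) + sin (α - θ (t - 1)) * w r θ j (θ t) := by
    intro j
    unfold w
    have h2 : sin (θ t - θ (t - 1)) * sin (θ j - α) =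
        sin (θ t - α) * sin (θ j - θ (t - 1)) + sin (α - θ (t - 1)) * sin (θ j - θ t) := by
      rw [sin_sub, sin_sub, sin_sub, sin_sub, sin_sub, sin_sub]
      ring
    linear_combination (r j) * h2
  have hgap : 0 < sin (θ t - θ (t - 1)) := by
    have h2 := h.gp (t - 1) t (by omega) (by omega)
    exact (mul_pos_iff_of_pos_left (RealB_rpos h _)).1 h2
  have hle : θ t ≤ θ (t - 1) + π := by
    rw [← h.cf.tp]
    exact h.cf.mono (by omega)
  have key : sin (θ t - θ (t - 1)) * D m r θ N α =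
      sin (θ t - α) * D m r θ N (θ (t - 1)) + sin (α - θ (t - 1)) * D m r θ N (θ t) := by
    rw [hW α ht1 ht2, hW _ le_rfl (ht1.trans ht2), hW _ (ht1.trans ht2) le_rfl]
    have e : ∀ X : Finset ℕ, sin (θ t - θ (t - 1)) * ∑ s ∈ X, w r θ (t + s) α =
        sin (θ t - α) * ∑ s ∈ X, w r θ (t + s) (θ (t - 1)) +
          sin (α - θ (t - 1)) * ∑ s ∈ X, w r θ (t + s) (θ t) := by
      intro X
      rw [Finset.mul_sum, Finset.mul_sum, Finset.mul_sum, ← Finset.sum_add_distrib]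
      exact Finset.sum_congr rfl fun s _ => hw _
    linear_combination 2 * e (Xp m N t) - e (range m)
  by_contra hcon
  push Not at hcon
  have hs1 : 0 ≤ sin (θ t - α) := sin_nonneg_of_nonneg_of_le_pi (by linarith) (by linarith)
  have hs2 : 0 ≤ sin (α - θ (t - 1)) :=
    sin_nonneg_of_nonneg_of_le_pi (by linarith) (by linarith)
  have h5 := mul_nonneg hgap.le hcon
  rw [key] at h5
  have p1 := mul_nonpos_of_nonneg_of_nonpos hs1 ha.le
  have p2 := mul_nonpos_of_nonneg_of_nonpos hs2 hb.le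
  have q1 : sin (θ t - α) * D m r θ N (θ (t - 1)) = 0 := le_antisymm p1 (by linarith)
  have q2 : sin (α - θ (t - 1)) * D m r θ N (θ t) = 0 := le_antisymm p2 (by linarith)
  have q1' := (mul_eq_zero.1 q1).resolve_right ha.ne
  have q2' := (mul_eq_zero.1 q2).resolve_right hb.ne
  have h6 : sin (θ t - θ (t - 1)) = 0 := by
    rw [show θ t - θ (t - 1) = (θ t - α) + (α - θ (t - 1)) by ring, sin_add, q1', q2']
    ring
  exact hgap.ne' h6

private theorem RealB_cast {a b : ℕ} (ha : a < 2 * m) (hb : b < 2 * m)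
    (h : (a : ZMod (2 * m)) = (b : ZMod (2 * m))) : a = b := by
  rw [ZMod.natCast_eq_natCast_iff', Nat.mod_eq_of_lt ha, Nat.mod_eq_of_lt hb] at h
  exact h

private theorem RealB_single {x0 : ℕ} (hx : x0 < m) (α : ℝ) :
    D m r θ {((x0 : ℤ) : ZMod (2 * m))} α =
      w r θ x0 α - ∑ s ∈ (range m).erase x0, |w r θ (s : ℤ) α| := by
  classical
  unfold D
  rw [← Finset.add_sum_erase _ _ (mem_range.2 hx)]
  have e1 : T m r θ {((x0 : ℤ) : ZMod (2 * m))} α ((x0 : ℕ) : ℤ) = w r θ x0 α := by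
    unfold T
    rw [if_pos (mem_singleton_self _)]
  rw [e1, sub_eq_add_neg, ← Finset.sum_neg_distrib]
  congr 1
  refine Finset.sum_congr rfl fun s hs => ?_
  rw [mem_erase, mem_range] at hs
  unfold T
  rw [if_neg, if_neg]
  · rw [mem_singleton]
    intro h1
    have h2 : ((s + m : ℕ) : ZMod (2 * m)) = ((x0 : ℕ) : ZMod (2 * m)) := by
      push_cast at h1 ⊢
      exact h1
    have := RealB_cast (by omega) (by omega) h2
    omega
  · rw [mem_singleton]
    intro h1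
    have h2 : ((s : ℕ) : ZMod (2 * m)) = ((x0 : ℕ) : ZMod (2 * m)) := by
      push_cast at h1 ⊢
      exact h1
    have := RealB_cast (by omega) (by omega) h2
    omega

private theorem RealB_fun
    (hdep : ∀ c : ℕ → ℝ, ∑ s ∈ range m, c s • v (s : ℤ) = 0 ↔
      ∃ ρ α : ℝ, ∀ s < m, c s = ρ * w r θ (s : ℤ) α)
    {c : ℕ → ℝ} (hc : ∀ α, ∑ s ∈ range m, c s * w r θ (s : ℤ) α = 0) :
    ∃ l : E d →ₗ[ℝ] ℝ, ∀ s < m, l (v (s : ℤ)) = c s := by
  classical
  obtain ⟨A, hA⟩ : ∃ A : (Fin m → ℝ) →ₗ[ℝ] E d, ∀ b, A b = ∑ s, b s • v ((s : ℕ) : ℤ) :=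
    ⟨Fintype.linearCombination ℝ (fun s : Fin m => v ((s : ℕ) : ℤ)),
      fun b => Fintype.linearCombination_apply ℝ _ b⟩
  obtain ⟨φ, hφ⟩ : ∃ φ : (Fin m → ℝ) →ₗ[ℝ] ℝ, ∀ b, φ b = ∑ s, b s • c (s : ℕ) :=
    ⟨Fintype.linearCombination ℝ (fun s : Fin m => c (s : ℕ)),
      fun b => Fintype.linearCombination_apply ℝ _ b⟩
  have hker : φ ∈ (LinearMap.ker A).dualAnnihilator := by
    rw [Submodule.mem_dualAnnihilator]
    intro b hb
    rw [LinearMap.mem_ker, hA] at hb
    obtain ⟨f, hf⟩ : ∃ f : ℕ → ℝ, ∀ s : Fin m, f (s : ℕ) = b s :=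
      ⟨fun s => if hs : s < m then b ⟨s, hs⟩ else 0, fun s => by simp⟩
    have h1 : ∑ s ∈ range m, f s • v (s : ℤ) = 0 := by
      rw [Finset.sum_range, ← hb]
      exact Finset.sum_congr rfl fun s _ => by rw [hf]
    obtain ⟨ρ, α, h2⟩ := (hdep f).1 h1
    have h3 : φ b = ∑ s ∈ range m, f s * c s := by
      rw [hφ, Finset.sum_range]
      exact Finset.sum_congr rfl fun s _ => by rw [hf, smul_eq_mul]
    rw [h3]
    have h4 : ∑ s ∈ range m, f s * c s = ρ * ∑ s ∈ range m, c s * w r θ (s : ℤ) α := by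
      rw [Finset.mul_sum]
      refine Finset.sum_congr rfl fun s hs => ?_
      rw [h2 s (mem_range.1 hs)]
      ring
    rw [h4, hc, mul_zero]
  rw [← LinearMap.range_dualMap_eq_dualAnnihilator_ker] at hker
  obtain ⟨l, hl⟩ := hker
  refine ⟨l, fun s hs => ?_⟩
  have h1 := LinearMap.congr_fun hl (Pi.single ⟨s, hs⟩ 1)
  rw [LinearMap.dualMap_apply, hA, hφ] at h1
  rw [Finset.sum_eq_single_of_mem (⟨s, hs⟩ : Fin m) (mem_univ _),
    Finset.sum_eq_single_of_mem (⟨s, hs⟩ : Fin m) (mem_univ _)] at h1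
  · simpa using h1
  · intro b _ hb
    rw [Pi.single_eq_of_ne hb, zero_smul]
  · intro b _ hb
    rw [Pi.single_eq_of_ne hb, zero_smul]

/-- the functional of one point -/
private theorem RealB_exp (hZ : St_Zon) (hWin : St_Win) [NeZero m] (h : RealB_H m r θ)
    (hdep : ∀ c : ℕ → ℝ, ∑ s ∈ range m, c s • v (s : ℤ) = 0 ↔
      ∃ ρ α : ℝ, ∀ s < m, c s = ρ * w r θ (s : ℤ) α)
    (h1 : ∀ (x : ZMod (2 * m)) (α : ℝ), D m r θ {x} α ≤ 0) {x0 : ℕ} (hx0 : x0 < m) :
    ∃ l : E d →ₗ[ℝ] ℝ, l (v (x0 : ℤ)) = 1 ∧ ∀ s < m, s ≠ x0 → |l (v (s : ℤ))| < 1 := by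
  classical
  have hm := h.m4
  have hAF : AF m {((x0 : ℤ) : ZMod (2 * m))} := by
    intro x hx hx'
    rw [mem_singleton] at hx hx'
    rw [hx] at hx'
    have h2 : ((m : ℕ) : ZMod (2 * m)) = ((0 : ℕ) : ZMod (2 * m)) := by
      rw [Nat.cast_zero]
      exact add_eq_left.1 hx'
    have := RealB_cast (by omega) (by omega) h2
    omega
  have hD := RealB_neg hWin h hAF (h1 _)
  obtain ⟨W, hW⟩ : ∃ W : ℝ → ℝ, ∀ α, W α = ∑ s ∈ (range m).erase x0, |w r θ (s : ℤ) α| :=
    ⟨_, fun _ => rfl⟩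
  have hWpi : ∀ α, W (α + π) = W α := by
    intro α
    rw [hW, hW]
    exact Finset.sum_congr rfl fun s _ => by rw [RealB_wpi, abs_neg]
  have hg : ∀ α, 0 < W α + w r θ x0 α := by
    intro α
    have h2 := hD (α + π)
    rw [RealB_single hx0, RealB_wpi, ← hW, hWpi] at h2
    linarith
  have hWc : Continuous W := by
    have h2 : W = fun α => ∑ s ∈ (range m).erase x0, |w r θ (s : ℤ) α| := funext hW
    rw [h2]
    unfold w
    fun_prop
  obtain ⟨μ, hμ, hμ'⟩ : ∃ μ : ℝ, 0 < μ ∧ ∀ α, μ ≤ W α + w r θ x0 α := by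
    have hcont : Continuous fun α => W α + w r θ x0 α := by
      refine hWc.add ?_
      unfold w
      fun_prop
    have hper : Function.Periodic (fun α => W α + w r θ x0 α) (2 * π) := by
      intro α
      have e1 : α + 2 * π = α + π + π := by ring
      change W (α + 2 * π) + w r θ x0 (α + 2 * π) = W α + w r θ x0 α
      rw [e1, hWpi, hWpi, RealB_wpi, RealB_wpi, neg_neg]
    obtain ⟨μ, hμ1, hμ2⟩ := (hper.compact_of_continuous (by positivity) hcont).exists_isLeast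
      (Set.range_nonempty _)
    obtain ⟨α0, hα0⟩ := hμ1
    refine ⟨μ, ?_, fun α => hμ2 ⟨α, rfl⟩⟩
    rw [← hα0]
    exact hg α0
  obtain ⟨M, hM1, hM⟩ : ∃ M : ℝ, 1 ≤ M ∧ ∀ α, W α ≤ M := by
    refine ⟨∑ s ∈ (range m).erase x0, r s + 1, ?_, fun α => ?_⟩
    · have : 0 ≤ ∑ s ∈ (range m).erase x0, r (s : ℤ) :=
        Finset.sum_nonneg fun s _ => (RealB_rpos h _).le
      linarith
    · rw [hW]
      have : ∑ s ∈ (range m).erase x0, |w r θ (s : ℤ) α| ≤
          ∑ s ∈ (range m).erase x0, r (s : ℤ) := by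
        refine Finset.sum_le_sum fun s _ => ?_
        unfold w
        rw [abs_mul, abs_of_pos (RealB_rpos h _)]
        exact mul_le_of_le_one_right (RealB_rpos h _).le (abs_sin_le_one _)
      linarith
  obtain ⟨δ, hδ0, hδ1, hδM⟩ : ∃ δ : ℝ, 0 < δ ∧ δ ≤ 1 ∧ δ * M ≤ μ := by
    have hM0 : 0 < M := by linarith
    refine ⟨min μ 1 / M, div_pos (lt_min hμ one_pos) hM0, ?_, ?_⟩
    · rw [div_le_one hM0]
      exact (min_le_right _ _).trans hM1
    · rw [div_mul_cancel₀ _ hM0.ne']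
      exact min_le_left _ _
  have hexp : ∀ (j : ℤ) (α : ℝ), w r θ j α = r j * sin (θ j) * cos α - r j * cos (θ j) * sin α := by
    intro j α
    unfold w
    rw [sin_sub]
    ring
  obtain ⟨c', hc1, hc2, hc3⟩ := hZ ℕ ((range m).erase x0)
    (fun s => (1 - δ) * (r (s : ℤ) * sin (θ (s : ℤ))))
    (fun s => -((1 - δ) * (r (s : ℤ) * cos (θ (s : ℤ)))))
    (-(r (x0 : ℤ) * sin (θ (x0 : ℤ)))) (r (x0 : ℤ) * cos (θ (x0 : ℤ))) (by
      intro α
      have e1 : -(r (x0 : ℤ) * sin (θ (x0 : ℤ))) * cos α + r (x0 : ℤ) * cos (θ (x0 : ℤ)) * sin α =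
          -w r θ x0 α := by
        rw [hexp]
        ring
      have e2 : ∑ s ∈ (range m).erase x0, |(1 - δ) * (r (s : ℤ) * sin (θ (s : ℤ))) * cos α +
          -((1 - δ) * (r (s : ℤ) * cos (θ (s : ℤ)))) * sin α| = (1 - δ) * W α := by
        rw [hW, Finset.mul_sum]
        refine Finset.sum_congr rfl fun s _ => ?_
        have e3 : (1 - δ) * (r (s : ℤ) * sin (θ (s : ℤ))) * cos α +
          -((1 - δ) * (r (s : ℤ) * cos (θ (s : ℤ)))) * sin α = (1 - δ) * w r θ (s : ℤ) α := by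
          rw [hexp]
          ring
        rw [e3, abs_mul, abs_of_nonneg (by linarith)]
      rw [e1, e2]
      have h2 := hμ' α
      have h3 : δ * W α ≤ δ * M := mul_le_mul_of_nonneg_left (hM α) hδ0.le
      linarith)
  have hc : ∀ α, ∑ s ∈ range m, (if s = x0 then (1 : ℝ) else (1 - δ) * c' s) *
      w r θ (s : ℤ) α = 0 := by
    intro α
    rw [← Finset.add_sum_erase _ _ (mem_range.2 hx0), if_pos rfl, one_mul]
    have e1 : ∑ s ∈ (range m).erase x0, (if s = x0 then (1 : ℝ) else (1 - δ) * c' s) *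
        w r θ (s : ℤ) α =
        (∑ s ∈ (range m).erase x0, c' s * ((1 - δ) * (r (s : ℤ) * sin (θ (s : ℤ))))) * cos α +
        (∑ s ∈ (range m).erase x0, c' s * (-((1 - δ) * (r (s : ℤ) * cos (θ (s : ℤ)))))) *
          sin α := by
      rw [Finset.sum_mul, Finset.sum_mul, ← Finset.sum_add_distrib]
      refine Finset.sum_congr rfl fun s hs => ?_
      rw [mem_erase] at hs
      rw [if_neg hs.1, hexp]
      ring
    rw [e1, hc2, hc3, hexp]
    ring
  obtain ⟨l, hl⟩ := RealB_fun hdep hc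
  refine ⟨l, ?_, ?_⟩
  · rw [hl x0 hx0, if_pos rfl]
  · intro s hs hs'
    rw [hl s hs, if_neg hs', abs_mul, abs_of_nonneg (by linarith : (0 : ℝ) ≤ 1 - δ)]
    have h2 := hc1 s
    have h3 : (1 - δ) * |c' s| ≤ (1 - δ) * 1 := mul_le_mul_of_nonneg_left h2 (by linarith)
    linarith

private theorem RealB_cvx (hZ : St_Zon) (hWin : St_Win) [NeZero m] (h : RealB_H m r θ)
    (hneg : ∀ j, v (j + m) = -v j)
    (hdep : ∀ c : ℕ → ℝ, ∑ s ∈ range m, c s • v (s : ℤ) = 0 ↔
      ∃ ρ α : ℝ, ∀ s < m, c s = ρ * w r θ (s : ℤ) α)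
    (h1 : ∀ (x : ZMod (2 * m)) (α : ℝ), D m r θ {x} α ≤ 0) : Cvx (RealB_V m v) := by
  intro u hu
  obtain ⟨j, hj, rfl⟩ := RealB_mem.1 hu
  obtain ⟨x0, σ, hx0, h2, h3⟩ := RealB_fold hneg hj
  obtain ⟨l, hl, hl'⟩ := RealB_exp hZ hWin h hdep h1 hx0
  have hσ : σ * σ = 1 := by
    rcases h3 with h3 | h3
    · rw [h3.2]
      norm_num
    · rw [h3.2]
      norm_num
  have hσa : |σ| = 1 := by
    rcases h3 with h3 | h3
    · rw [h3.2]
      norm_num
    · rw [h3.2]
      norm_num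
  refine ⟨σ • l, ?_, ?_⟩
  · rw [LinearMap.smul_apply, h2, map_smul, hl, smul_eq_mul, smul_eq_mul, mul_one, hσ]
  · intro u hu hne
    obtain ⟨i, hi, rfl⟩ := RealB_mem.1 hu
    obtain ⟨y0, τ, hy0, h4, h5⟩ := RealB_fold hneg hi
    have hτa : |τ| = 1 := by
      rcases h5 with h5 | h5
      · rw [h5.2]
        norm_num
      · rw [h5.2]
        norm_num
    rw [LinearMap.smul_apply, h4, map_smul, smul_eq_mul, smul_eq_mul]
    by_cases h6 : y0 = x0
    · rw [h6, hl, mul_one]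
      have h7 : σ ≠ τ := by
        intro h7
        apply hne
        rw [h4, h2, h6, h7]
      rcases h3 with ⟨_, h3⟩ | ⟨_, h3⟩
      · rcases h5 with ⟨_, h5⟩ | ⟨_, h5⟩
        · exact absurd (h3.trans h5.symm) h7
        · rw [h3, h5]
          norm_num
      · rcases h5 with ⟨_, h5⟩ | ⟨_, h5⟩
        · rw [h3, h5]
          norm_num
        · exact absurd (h3.trans h5.symm) h7
    · have h7 := hl' y0 hy0 h6
      refine lt_of_le_of_lt (le_abs_self _) ?_
      rw [abs_mul, abs_mul, hσa, hτa, one_mul, one_mul]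
      exact h7

private theorem RealB_all (hneg : ∀ j, v (j + m) = -v j) (hm : 1 ≤ m) (z : ℤ) :
    v z ∈ RealB_V m v := by
  have hper : Function.Periodic v ((2 * m : ℕ) : ℤ) := by
    intro j
    have e1 : j + ((2 * m : ℕ) : ℤ) = j + m + m := by
      push_cast
      ring
    rw [e1, hneg, hneg, neg_neg]
  have h1 := (hper.int_mul (z / ((2 * m : ℕ) : ℤ))) (z % ((2 * m : ℕ) : ℤ))
  have h2 : z % ((2 * m : ℕ) : ℤ) + z / ((2 * m : ℕ) : ℤ) * ((2 * m : ℕ) : ℤ) = z := by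
    rw [mul_comm (z / ((2 * m : ℕ) : ℤ))]
    exact Int.emod_add_mul_ediv _ _
  rw [Int.cast_id, h2] at h1
  have h3 : 0 ≤ z % ((2 * m : ℕ) : ℤ) := Int.emod_nonneg _ (by omega)
  have h4 : z % ((2 * m : ℕ) : ℤ) < ((2 * m : ℕ) : ℤ) := Int.emod_lt_of_pos _ (by omega)
  obtain ⟨j, hj⟩ := Int.eq_ofNat_of_zero_le h3
  rw [hj] at h1 h4
  rw [h1]
  exact RealB_mem.2 ⟨j, by exact_mod_cast h4, rfl⟩

end dep

theorem thm_RealB (hA : St_RealA) (hZ : St_Zon) (_hS : St_Sin) (hW : St_Win) : St_RealB := by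
  intro d _ r θ hd hcf hgp htie h1
  obtain ⟨v, hneg, hspan, hdep⟩ := hA d r θ (by omega) hcf hgp
  have H : RealB_H (d + 2) r θ := ⟨hcf, by omega, fun i j h1 h2 => hgp i j h1 (by
    push_cast at h2
    exact h2), htie⟩
  have hinj := RealB_inj H hneg hdep
  have hall := RealB_all hneg (m := d + 2) (by omega)
  refine ⟨RealB_V (d + 2) v, v, (gconf d _ hd ⟨?_, RealB_gp H rfl hneg hdep,
    RealB_cvx hZ hW H hneg hdep h1, ?_⟩).1, RealB_card hinj,
    ⟨hcf, hneg, fun u => RealB_mem, hinj, hdep⟩⟩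
  · intro u hu
    obtain ⟨j, hj, rfl⟩ := RealB_mem.1 hu
    rw [← hneg]
    exact hall _
  · rw [eq_top_iff, ← hspan, Submodule.span_le]
    rintro _ ⟨z, rfl⟩
    exact Submodule.subset_span (hall z)

end Pool.CSG
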