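import Pool.Agent.CSG.St

/-!
# CSG: the regular configuration
-/

set_option autoImplicit false

open Finset Real

namespace Pool.CSG

theorem regA_add {l : ℕ} (hl : 1 ≤ l) (s : ℕ) :
    sin (π * ((s + l : ℕ) : ℝ) / (3 * l)) =
      sin (π * s / (3 * l)) + sin (π * ((s + 2 * l : ℕ) : ℝ) / (3 * l)) := by
  have hl0 : (0 : ℝ) < l := by exact_mod_cast hl
  have h1 : π * ((s + l : ℕ) : ℝ) / (3 * l) = π * s / (3 * l) + π / 3 := by
    push_cast
    field_simp
  have h2 : π * ((s + 2 * l : ℕ) : ℝ) / (3 * l) = π * s / (3 * l) + 2 * (π / 3) := by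
    push_cast
    field_simp
  rw [h1, h2, sin_add, sin_add, sin_two_mul, cos_two_mul, cos_pi_div_three]
  ring

theorem regA_tau {l : ℕ} (hl : 1 ≤ l) : sin (π * (l : ℝ) / (3 * l)) = sin (π / 3) := by
  have hl0 : (0 : ℝ) < l := by exact_mod_cast hl
  congr 1
  field_simp

theorem regA_tau2 {l : ℕ} (hl : 1 ≤ l) :
    sin (π * ((2 * l : ℕ) : ℝ) / (3 * l)) = sin (π / 3) := by
  have hl0 : (0 : ℝ) < l := by exact_mod_cast hl
  rw [← sin_pi_sub]
  congr 1
  push_cast
  field_simp
  ring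

theorem regA_lt {l : ℕ} (hl : 1 ≤ l) {s : ℕ} (hs : s < l ∨ (2 * l < s ∧ s < 3 * l)) :
    sin (π * (s : ℝ) / (3 * l)) < sin (π / 3) := by
  have hl0 : (0 : ℝ) < l := by exact_mod_cast hl
  have hpi := pi_pos
  rcases hs with hs | ⟨h1, h2⟩
  · have h3 : (s : ℝ) < l := by exact_mod_cast hs
    have h4 : π * (s : ℝ) / (3 * l) < π / 3 := by
      rw [div_lt_div_iff₀ (by positivity) (by norm_num)]
      nlinarith
    have h5 : 0 ≤ π * (s : ℝ) / (3 * l) := by positivity
    exact sin_lt_sin_of_lt_of_le_pi_div_two (by linarith) (by linarith) h4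
  · have h3 : 2 * (l : ℝ) < s := by exact_mod_cast h1
    have h4 : (s : ℝ) < 3 * l := by exact_mod_cast h2
    have h5 : 2 * π / 3 < π * (s : ℝ) / (3 * l) := by
      rw [div_lt_div_iff₀ (by norm_num) (by positivity)]
      nlinarith
    have h6 : π * (s : ℝ) / (3 * l) < π := by
      rw [div_lt_iff₀ (by positivity)]
      nlinarith
    rw [← sin_pi_sub]
    exact sin_lt_sin_of_lt_of_le_pi_div_two (by linarith) (by linarith) (by linarith)

theorem regA_gt {l : ℕ} (hl : 1 ≤ l) {s : ℕ} (h1 : l < s) (h2 : s < 2 * l) :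
    sin (π / 3) < sin (π * (s : ℝ) / (3 * l)) := by
  have hl0 : (0 : ℝ) < l := by exact_mod_cast hl
  have hpi := pi_pos
  have h3 : (l : ℝ) < s := by exact_mod_cast h1
  have h4 : (s : ℝ) < 2 * l := by exact_mod_cast h2
  have h5 : π / 3 < π * (s : ℝ) / (3 * l) := by
    rw [div_lt_div_iff₀ (by norm_num) (by positivity)]
    nlinarith
  have h6 : π * (s : ℝ) / (3 * l) < 2 * π / 3 := by
    rw [div_lt_div_iff₀ (by positivity) (by norm_num)]
    nlinarith
  rcases le_total (π * (s : ℝ) / (3 * l)) (π / 2) with h7 | h7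
  · exact sin_lt_sin_of_lt_of_le_pi_div_two (by linarith) h7 h5
  · rw [← sin_pi_sub (π * (s : ℝ) / (3 * l))]
    exact sin_lt_sin_of_lt_of_le_pi_div_two (by linarith) (by linarith) (by linarith)

theorem regA_half {l : ℕ} (hl : 1 ≤ l) :
    2 * ∑ s ∈ Ico l (2 * l), sin (π * (s : ℝ) / (3 * l)) =
      ∑ s ∈ range (3 * l), sin (π * (s : ℝ) / (3 * l)) := by
  have h1 : ∑ s ∈ Ico l (2 * l), sin (π * (s : ℝ) / (3 * l)) =
      ∑ s ∈ range l, sin (π * ((s + l : ℕ) : ℝ) / (3 * l)) := by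
    rw [Finset.sum_Ico_eq_sum_range]
    have : 2 * l - l = l := by omega
    rw [this]
    exact sum_congr rfl fun s _ => by rw [add_comm l s]
  have h2 : ∑ s ∈ Ico (2 * l) (3 * l), sin (π * (s : ℝ) / (3 * l)) =
      ∑ s ∈ range l, sin (π * ((s + 2 * l : ℕ) : ℝ) / (3 * l)) := by
    rw [Finset.sum_Ico_eq_sum_range]
    have : 3 * l - 2 * l = l := by omega
    rw [this]
    exact sum_congr rfl fun s _ => by rw [add_comm (2 * l) s]
  have h3 : ∑ s ∈ range (3 * l), sin (π * (s : ℝ) / (3 * l)) =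
      ∑ s ∈ range l, sin (π * (s : ℝ) / (3 * l)) +
        ∑ s ∈ Ico l (2 * l), sin (π * (s : ℝ) / (3 * l)) +
        ∑ s ∈ Ico (2 * l) (3 * l), sin (π * (s : ℝ) / (3 * l)) := by
    rw [Finset.range_eq_Ico, Finset.range_eq_Ico,
      ← Finset.sum_Ico_consecutive _ (Nat.zero_le (2 * l)) (by omega : 2 * l ≤ 3 * l),
      ← Finset.sum_Ico_consecutive _ (Nat.zero_le l) (by omega : l ≤ 2 * l)]
  have h4 : ∑ s ∈ range l, sin (π * ((s + l : ℕ) : ℝ) / (3 * l)) =
      ∑ s ∈ range l, sin (π * (s : ℝ) / (3 * l)) +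
        ∑ s ∈ range l, sin (π * ((s + 2 * l : ℕ) : ℝ) / (3 * l)) := by
    rw [← sum_add_distrib]
    exact sum_congr rfl fun s _ => regA_add hl s
  rw [h3, h2]
  linarith [h1, h4]

theorem thm_RegA : St_RegA := by
  intro l hl
  refine ⟨regA_half hl, ?_⟩
  intro X hX hc
  rw [← regA_half hl]
  set M : Finset ℕ := Ico (l + 1) (2 * l) with hM
  have hMX : Ico l (2 * l) = insert l M := by
    ext x
    simp only [hM, mem_Ico, mem_insert]
    omega
  have hlM : l ∉ M := by
    simp [hM]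
  have hMc : M.card = l - 1 := by
    rw [hM, Nat.card_Ico]
    omega
  have hmid : ∑ s ∈ Ico l (2 * l), sin (π * (s : ℝ) / (3 * l)) =
      sin (π / 3) + ∑ s ∈ M, sin (π * (s : ℝ) / (3 * l)) := by
    rw [hMX, sum_insert hlM, regA_tau hl]
  have htau : 0 < sin (π / 3) := by
    have := pi_pos
    exact sin_pos_of_pos_of_lt_pi (by linarith) (by linarith)
  have hMgt : ∀ s ∈ M, sin (π / 3) < sin (π * (s : ℝ) / (3 * l)) := by
    intro s hs
    rw [hM, mem_Ico] at hs
    exact regA_gt hl (by omega) hs.2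
  have hout : ∀ s ∈ X, s ∉ M → sin (π * (s : ℝ) / (3 * l)) ≤ sin (π / 3) := by
    intro s hs hsM
    have h1 := mem_range.1 (hX hs)
    rw [hM, mem_Ico] at hsM
    rcases lt_trichotomy s l with h | h | h
    · exact (regA_lt hl (Or.inl h)).le
    · rw [h, regA_tau hl]
    · rcases eq_or_ne s (2 * l) with h2 | h2
      · rw [h2, regA_tau2 hl]
      · exact (regA_lt hl (Or.inr ⟨by omega, h1⟩)).le
  have hsplit : ∑ s ∈ X, sin (π * (s : ℝ) / (3 * l)) =
      ∑ s ∈ X ∩ M, sin (π * (s : ℝ) / (3 * l)) + ∑ s ∈ X \ M, sin (π * (s : ℝ) / (3 * l)) := by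
    rw [sum_inter_add_sum_sdiff]
  have hcs : (X ∩ M).card + (X \ M).card = X.card := card_inter_add_card_sdiff X M
  have hdiff : ∑ s ∈ X \ M, sin (π * (s : ℝ) / (3 * l)) ≤ ((X \ M).card : ℝ) * sin (π / 3) := by
    calc ∑ s ∈ X \ M, sin (π * (s : ℝ) / (3 * l)) ≤ ∑ s ∈ X \ M, sin (π / 3) := by
          refine sum_le_sum fun s hs => ?_
          rw [mem_sdiff] at hs
          exact hout s hs.1 hs.2
      _ = ((X \ M).card : ℝ) * sin (π / 3) := by
          rw [sum_const, nsmul_eq_mul]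
  by_cases hMs : M ⊆ X
  · have hXM : X ∩ M = M := inter_eq_right.2 hMs
    rw [hXM] at hsplit hcs
    have h1 : (X \ M).card ≤ 1 := by omega
    rcases Nat.lt_or_ge (X \ M).card 1 with h2 | h2
    · left
      have h3 : X \ M = ∅ := card_eq_zero.1 (by omega)
      rw [h3, sum_empty] at hsplit
      linarith
    · obtain ⟨a, ha⟩ := card_eq_one.1 (le_antisymm h1 h2)
      have hXe : X = insert a M := by
        rw [← union_sdiff_of_subset hMs, ha, union_comm]
        rfl
      have haX : a ∈ X \ M := by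
        rw [ha]
        exact mem_singleton_self a
      rw [mem_sdiff] at haX
      have haM : ¬ (l + 1 ≤ a ∧ a < 2 * l) := by
        have := haX.2
        rwa [hM, mem_Ico] at this
      rcases eq_or_ne a l with h3 | h3
      · right
        left
        rw [hXe, hMX, h3]
      · rcases eq_or_ne a (2 * l) with h4 | h4
        · right
          right
          rw [hXe, h4]
          ext x
          simp only [hM, mem_insert, mem_Ico]
          omega
        · left
          have h5 : sin (π * (a : ℝ) / (3 * l)) < sin (π / 3) := by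
            have h6 := mem_range.1 (hX haX.1)
            refine regA_lt hl ?_
            omega
          rw [ha, sum_singleton] at hsplit
          linarith
  · left
    have h1 : ∑ s ∈ M, (sin (π * (s : ℝ) / (3 * l)) - sin (π / 3)) =
        ∑ s ∈ X ∩ M, (sin (π * (s : ℝ) / (3 * l)) - sin (π / 3)) +
        ∑ s ∈ M \ X, (sin (π * (s : ℝ) / (3 * l)) - sin (π / 3)) := by
      rw [inter_comm, sum_inter_add_sum_sdiff]
    have h2 : 0 < ∑ s ∈ M \ X, (sin (π * (s : ℝ) / (3 * l)) - sin (π / 3)) := by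
      refine sum_pos ?_ ?_
      · intro s hs
        rw [mem_sdiff] at hs
        linarith [hMgt s hs.1]
      · obtain ⟨x, hx1, hx2⟩ := not_subset.1 hMs
        exact ⟨x, mem_sdiff.2 ⟨hx1, hx2⟩⟩
    rw [sum_sub_distrib, sum_sub_distrib, sum_const, sum_const, nsmul_eq_mul, nsmul_eq_mul] at h1
    have h3 : ((X ∩ M).card : ℝ) + ((X \ M).card : ℝ) ≤ l := by
      exact_mod_cast (by omega : (X ∩ M).card + (X \ M).card ≤ l)
    have h4 : (M.card : ℝ) = l - 1 := by
      rw [hMc, Nat.cast_sub hl]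
      norm_num
    rw [h4] at h1
    nlinarith [mul_le_mul_of_nonneg_right h3 htau.le]

end Pool.CSG
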