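import Pool.Agent.CSG.St

set_option autoImplicit false

open Finset Real Pool.CS4

namespace Pool.CSG

noncomputable section

open Filter Topology

private def RegB_th (m : ℕ) (j : ℤ) : ℝ := π * j / m

open Classical in
private def RegB_u (m : ℕ) (j : ℤ) : ℝ := if (m : ℤ) ∣ j then 1 else 0

private def RegB_r (m : ℕ) (ε : ℝ) (j : ℤ) : ℝ :=
  1 + ε * RegB_u m j + ε ^ 2 * RegB_u m (j - 1)

private def RegB_om (m s : ℕ) : ℝ := sin (π * s / m)

private def RegB_G (m : ℕ) (X : Finset ℕ) : ℝ :=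
  2 * ∑ s ∈ X, RegB_om m s - ∑ s ∈ range m, RegB_om m s

private def RegB_A (m : ℕ) (t : ℤ) (X : Finset ℕ) : ℝ :=
  2 * ∑ s ∈ X, RegB_u m (t + s) * RegB_om m s - ∑ s ∈ range m, RegB_u m (t + s) * RegB_om m s

private def RegB_lex (a b c : ℝ) : Prop := a < 0 ∨ (a = 0 ∧ b < 0) ∨ (a = 0 ∧ b = 0 ∧ c < 0)

private lemma RegB_ev0 (a b c : ℝ) (h : a < 0) :
    ∀ᶠ ε in 𝓝[>] (0 : ℝ), a + ε * b + ε ^ 2 * c < 0 := by
  have hc : Continuous (fun ε : ℝ => a + ε * b + ε ^ 2 * c) := by fun_prop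
  have h1 := (hc.tendsto 0).mono_left (nhdsWithin_le_nhds (s := Set.Ioi (0 : ℝ)))
  have h2 : a + (0 : ℝ) * b + (0 : ℝ) ^ 2 * c < 0 := by simpa using h
  exact h1.eventually (gt_mem_nhds h2)

private lemma RegB_ev (a b c : ℝ) (h : RegB_lex a b c) :
    ∀ᶠ ε in 𝓝[>] (0 : ℝ), a + ε * b + ε ^ 2 * c < 0 := by
  rcases h with h | ⟨rfl, h⟩ | ⟨rfl, rfl, h⟩
  · exact RegB_ev0 a b c h
  · filter_upwards [RegB_ev0 b c 0 h, self_mem_nhdsWithin] with ε h1 h2
    have h3 : (0 : ℝ) < ε := h2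
    have h4 : 0 + ε * b + ε ^ 2 * c = ε * (b + ε * c + ε ^ 2 * 0) := by ring
    rw [h4]
    exact mul_neg_of_pos_of_neg h3 h1
  · filter_upwards [self_mem_nhdsWithin] with ε h2
    have h3 : (0 : ℝ) < ε := h2
    have h4 : 0 + ε * 0 + ε ^ 2 * c = ε ^ 2 * c := by ring
    rw [h4]
    exact mul_neg_of_pos_of_neg (by positivity) h

private lemma RegB_u_congr (m : ℕ) (i j : ℤ) (h : (m : ℤ) ∣ i - j) : RegB_u m i = RegB_u m j := by
  have : (m : ℤ) ∣ i ↔ (m : ℤ) ∣ j := by
    constructor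
    · intro h1; have := dvd_sub h1 h; simpa using this
    · intro h1; have := dvd_add h h1; simpa using this
  unfold RegB_u
  simp only [this]

private lemma RegB_A_congr (m : ℕ) (i j : ℤ) (h : (m : ℤ) ∣ i - j) (X : Finset ℕ) :
    RegB_A m i X = RegB_A m j X := by
  have : ∀ s : ℕ, RegB_u m (i + s) = RegB_u m (j + s) := fun s =>
    RegB_u_congr m _ _ (by have e : i + (s : ℤ) - (j + s) = i - j := by ring
                           rw [e]; exact h)
  unfold RegB_A
  simp only [this]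

private lemma RegB_exists (m : ℕ) (hm : 0 < m) : ∃ ε : ℝ, 0 < ε ∧ ∀ (t : ℤ) (X : Finset ℕ),
    X ⊆ range m →
    (RegB_lex (RegB_G m X) (RegB_A m t X) (RegB_A m (t - 1) X) →
      RegB_G m X + ε * RegB_A m t X + ε ^ 2 * RegB_A m (t - 1) X < 0) ∧
    (RegB_lex (-RegB_G m X) (-RegB_A m t X) (-RegB_A m (t - 1) X) →
      -RegB_G m X + ε * -RegB_A m t X + ε ^ 2 * -RegB_A m (t - 1) X < 0) := by
  have key : ∀ᶠ ε in 𝓝[>] (0 : ℝ), ∀ e ∈ (range m) ×ˢ (range m).powerset,
      (RegB_lex (RegB_G m e.2) (RegB_A m (e.1 : ℤ) e.2) (RegB_A m ((e.1 : ℤ) - 1) e.2) →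
      RegB_G m e.2 + ε * RegB_A m (e.1 : ℤ) e.2 + ε ^ 2 * RegB_A m ((e.1 : ℤ) - 1) e.2 < 0) ∧
    (RegB_lex (-RegB_G m e.2) (-RegB_A m (e.1 : ℤ) e.2) (-RegB_A m ((e.1 : ℤ) - 1) e.2) →
      -RegB_G m e.2 + ε * -RegB_A m (e.1 : ℤ) e.2 + ε ^ 2 * -RegB_A m ((e.1 : ℤ) - 1) e.2 < 0) := by
    rw [Filter.eventually_all_finset]
    intro e _
    apply Filter.Eventually.and
    · by_cases h : RegB_lex (RegB_G m e.2) (RegB_A m (e.1 : ℤ) e.2) (RegB_A m ((e.1 : ℤ) - 1) e.2)
      · filter_upwards [RegB_ev _ _ _ h] with ε h1 _ using h1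
      · exact Filter.Eventually.of_forall fun ε h' => absurd h' h
    · by_cases h : RegB_lex (-RegB_G m e.2) (-RegB_A m (e.1 : ℤ) e.2)
          (-RegB_A m ((e.1 : ℤ) - 1) e.2)
      · filter_upwards [RegB_ev _ _ _ h] with ε h1 _ using h1
      · exact Filter.Eventually.of_forall fun ε h' => absurd h' h
  obtain ⟨ε, h1, h2⟩ := (key.and self_mem_nhdsWithin).exists
  refine ⟨ε, h2, fun t X hX => ?_⟩
  have hm' : (m : ℤ) ≠ 0 := by exact_mod_cast hm.ne'
  have h3 : 0 ≤ t % m := Int.emod_nonneg _ hm'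
  have h4 : t % m < m := Int.emod_lt_of_pos _ (by exact_mod_cast hm)
  have h5 : ((t % m).toNat : ℤ) = t % m := Int.toNat_of_nonneg h3
  have h6 : (m : ℤ) ∣ t - ((t % m).toNat : ℤ) := by
    rw [h5]; exact Int.dvd_self_sub_emod
  have h7 : (m : ℤ) ∣ (t - 1) - (((t % m).toNat : ℤ) - 1) := by
    have : (t - 1) - (((t % m).toNat : ℤ) - 1) = t - ((t % m).toNat : ℤ) := by ring
    rw [this]; exact h6
  have h8 := h1 ((t % m).toNat, X) (by
    rw [mem_product, mem_range, mem_powerset]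
    refine ⟨?_, hX⟩
    have : ((t % m).toNat : ℤ) < m := by rw [h5]; exact h4
    exact_mod_cast this)
  rw [RegB_A_congr m _ _ h6 X, RegB_A_congr m _ _ h7 X]
  exact h8

private lemma RegB_s0 (m : ℕ) (hm : 0 < m) (t : ℤ) : ∃ s : ℕ, s < m ∧ (m : ℤ) ∣ t + s ∧
    ∀ X ⊆ range m, RegB_A m t X = if s ∈ X then RegB_om m s else -RegB_om m s := by
  have hm' : (m : ℤ) ≠ 0 := by exact_mod_cast hm.ne'
  have h3 : 0 ≤ (-t) % m := Int.emod_nonneg _ hm'
  have h4 : (-t) % m < m := Int.emod_lt_of_pos _ (by exact_mod_cast hm)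
  have h5 : (((-t) % m).toNat : ℤ) = (-t) % m := Int.toNat_of_nonneg h3
  set s0 := ((-t) % m).toNat with hs0
  have hlt : s0 < m := by
    have : (s0 : ℤ) < m := by rw [h5]; exact h4
    exact_mod_cast this
  have hdv : (m : ℤ) ∣ t + s0 := by
    rw [h5]
    have : (m : ℤ) ∣ -t - (-t) % m := Int.dvd_self_sub_emod
    have h := (dvd_neg).2 this
    have e : -(-t - (-t) % (m : ℤ)) = t + (-t) % m := by ring
    rwa [e] at h
  have hu : ∀ s ∈ range m, RegB_u m (t + s) = if s = s0 then 1 else 0 := by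
    intro s hs
    rw [mem_range] at hs
    unfold RegB_u
    by_cases h : s = s0
    · rw [if_pos h, if_pos]; rw [h]; exact hdv
    · rw [if_neg h, if_neg]
      intro h1
      apply h
      have h2 := dvd_sub h1 hdv
      have e : t + (s : ℤ) - (t + s0) = (s : ℤ) - s0 := by ring
      rw [e] at h2
      obtain ⟨k, hk⟩ := h2
      have hk0 : k = 0 := by
        by_contra hk0
        rcases lt_or_gt_of_ne hk0 with h | h
        · have : (m : ℤ) * k ≤ -m := by nlinarith
          omega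
        · have : (m : ℤ) ≤ m * k := by nlinarith
          omega
      rw [hk0] at hk
      omega
  refine ⟨s0, hlt, hdv, fun X hX => ?_⟩
  unfold RegB_A
  rw [sum_congr rfl (fun s hs => by rw [hu s (hX hs)] : ∀ s ∈ X, RegB_u m (t + s) * RegB_om m s =
    (if s = s0 then 1 else 0) * RegB_om m s),
    sum_congr rfl (fun s hs => by rw [hu s hs] : ∀ s ∈ range m, RegB_u m (t + s) * RegB_om m s =
    (if s = s0 then 1 else 0) * RegB_om m s)]
  simp only [ite_mul, one_mul, zero_mul, sum_ite_eq', mem_range, hlt, if_true]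
  split_ifs <;> ring

private lemma RegB_om_pos (m s : ℕ) (h1 : 0 < s) (h2 : s < m) : 0 < RegB_om m s := by
  unfold RegB_om
  have hm : (0 : ℝ) < m := by exact_mod_cast (by omega : 0 < m)
  apply sin_pos_of_pos_of_lt_pi
  · have : (0 : ℝ) < s := by exact_mod_cast h1
    positivity
  · rw [div_lt_iff₀ hm]
    have : (s : ℝ) < m := by exact_mod_cast h2
    exact mul_lt_mul_of_pos_left this pi_pos

private lemma RegB_om_zero (m : ℕ) : RegB_om m 0 = 0 := by simp [RegB_om]

/-- the positions `s₀`, `s₁` -/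
private lemma RegB_pos (m : ℕ) (hm : 2 ≤ m) (t : ℤ) : ∃ s₀ s₁ : ℕ, s₀ < m ∧ s₁ < m ∧
    (m : ℤ) ∣ t + s₀ ∧ (0 < s₀ ∨ (s₀ = 0 ∧ s₁ = 1)) ∧
    (∀ X ⊆ range m, RegB_A m t X = if s₀ ∈ X then RegB_om m s₀ else -RegB_om m s₀) ∧
    (∀ X ⊆ range m, RegB_A m (t - 1) X = if s₁ ∈ X then RegB_om m s₁ else -RegB_om m s₁) := by
  obtain ⟨s₀, h1, h2, h3⟩ := RegB_s0 m (by omega) t
  obtain ⟨s₁, h4, h5, h6⟩ := RegB_s0 m (by omega) (t - 1)
  refine ⟨s₀, s₁, h1, h4, h2, ?_, h3, h6⟩
  rcases Nat.eq_zero_or_pos s₀ with h | h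
  · right
    refine ⟨h, ?_⟩
    subst h
    have h7 := dvd_sub h5 h2
    have e : t - 1 + (s₁ : ℤ) - (t + ((0 : ℕ) : ℤ)) = (s₁ : ℤ) - 1 := by push_cast; ring
    rw [e] at h7
    obtain ⟨k, hk⟩ := h7
    have hk0 : k = 0 := by
      by_contra hk0
      rcases lt_or_gt_of_ne hk0 with h | h
      · have : (m : ℤ) * k ≤ -m := by nlinarith
        omega
      · have : (m : ℤ) ≤ m * k := by nlinarith
        omega
    rw [hk0] at hk
    omega
  · left; exact h

private lemma RegB_w (m : ℕ) (hm : 0 < m) (ε : ℝ) (t : ℤ) (s : ℕ) :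
    w (RegB_r m ε) (RegB_th m) (t + s) (RegB_th m t) = RegB_r m ε (t + s) * RegB_om m s := by
  unfold w RegB_om RegB_th
  congr 2
  have : (m : ℝ) ≠ 0 := by exact_mod_cast hm.ne'
  push_cast
  field_simp
  ring

private lemma RegB_P (m : ℕ) (hm : 0 < m) (ε : ℝ) (t : ℤ) (X : Finset ℕ) :
    2 * ∑ s ∈ X, w (RegB_r m ε) (RegB_th m) (t + s) (RegB_th m t) -
      ∑ s ∈ range m, w (RegB_r m ε) (RegB_th m) (t + s) (RegB_th m t) =
    RegB_G m X + ε * RegB_A m t X + ε ^ 2 * RegB_A m (t - 1) X := by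
  have h : ∀ Y : Finset ℕ, ∑ s ∈ Y, w (RegB_r m ε) (RegB_th m) (t + s) (RegB_th m t) =
      ∑ s ∈ Y, RegB_om m s + ε * ∑ s ∈ Y, RegB_u m (t + s) * RegB_om m s +
      ε ^ 2 * ∑ s ∈ Y, RegB_u m (t - 1 + s) * RegB_om m s := by
    intro Y
    rw [mul_sum, mul_sum, ← sum_add_distrib, ← sum_add_distrib]
    apply sum_congr rfl
    intro s _
    rw [RegB_w m hm]
    unfold RegB_r
    have : t + (s : ℤ) - 1 = t - 1 + s := by ring
    rw [this]
    ring
  rw [h, h]
  unfold RegB_G RegB_A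
  ring

private lemma RegB_cf (m : ℕ) (hm : 2 ≤ m) (ε : ℝ) (hε : 0 < ε) :
    Cf m (RegB_r m ε) (RegB_th m) := by
  have hm0 : (0 : ℝ) < m := by exact_mod_cast (by omega : 0 < m)
  have hu : ∀ j, 0 ≤ RegB_u m j := by intro j; unfold RegB_u; split_ifs <;> norm_num
  have hrp : ∀ j, 0 < RegB_r m ε j := by
    intro j
    unfold RegB_r
    have := hu j
    have := hu (j - 1)
    positivity
  refine ⟨fun j => (hrp j).le, ?_, ?_, ?_, ?_⟩
  · intro j
    unfold RegB_r
    rw [RegB_u_congr m (j + m) j (by simp), RegB_u_congr m (j + m - 1) (j - 1) (by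
      have : j + (m : ℤ) - 1 - (j - 1) = m := by ring
      rw [this])]
  · intro i j hij
    unfold RegB_th
    have : (i : ℝ) ≤ j := by exact_mod_cast hij
    have := pi_pos
    gcongr
  · intro j
    unfold RegB_th
    push_cast
    field_simp
  · intro α
    by_contra hcon
    push Not at hcon
    have h0 := hcon 0
    have h1 := hcon 1
    have e0 : sin (RegB_th m 0 - α) = 0 := by
      rcases mul_eq_zero.1 h0 with h | h
      · exact absurd h (hrp 0).ne'
      · exact h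
    have e1 : sin (RegB_th m 1 - α) = 0 := by
      rcases mul_eq_zero.1 h1 with h | h
      · exact absurd h (hrp 1).ne'
      · exact h
    have e2 : sin (RegB_th m 1 - RegB_th m 0) = 0 := by
      have : RegB_th m 1 - RegB_th m 0 = (RegB_th m 1 - α) - (RegB_th m 0 - α) := by ring
      rw [this, sin_sub, e0, e1]; ring
    have e3 : RegB_th m 1 - RegB_th m 0 = π * (1 : ℕ) / m := by
      unfold RegB_th; push_cast; ring
    have := RegB_om_pos m 1 one_pos (by omega)
    unfold RegB_om at this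
    rw [← e3, e2] at this
    exact lt_irrefl _ this

private lemma RegB_gp (m : ℕ) (_hm : 2 ≤ m) (ε : ℝ) (hε : 0 < ε) (i j : ℤ) (h1 : i < j)
    (h2 : j < i + m) : 0 < RegB_r m ε i * sin (RegB_th m j - RegB_th m i) := by
  have hu : ∀ j, 0 ≤ RegB_u m j := by intro j; unfold RegB_u; split_ifs <;> norm_num
  apply mul_pos
  · unfold RegB_r
    have := hu i
    have := hu (i - 1)
    positivity
  · have h3 : ((j - i).toNat : ℤ) = j - i := Int.toNat_of_nonneg (by omega)
    have h4 := RegB_om_pos m (j - i).toNat (by omega) (by omega)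
    have h5 : RegB_th m j - RegB_th m i = π * ((j - i).toNat : ℝ) / m := by
      have : (((j - i).toNat : ℤ) : ℝ) = (j : ℝ) - i := by rw [h3]; push_cast; ring
      have h6 : ((j - i).toNat : ℝ) = (j : ℝ) - i := by rw [← this]; norm_cast
      rw [h6]
      unfold RegB_th
      ring
    rw [h5]
    exact h4

private lemma RegB_lex_or (a b c : ℝ) (h : a ≠ 0 ∨ b ≠ 0 ∨ c ≠ 0) :
    RegB_lex a b c ∨ RegB_lex (-a) (-b) (-c) := by
  unfold RegB_lex
  rcases lt_trichotomy a 0 with ha | ha | ha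
  · left; left; exact ha
  · rcases lt_trichotomy b 0 with hb | hb | hb
    · left; right; left; exact ⟨ha, hb⟩
    · rcases lt_trichotomy c 0 with hc | hc | hc
      · left; right; right; exact ⟨ha, hb, hc⟩
      · exfalso; rcases h with h | h | h <;> exact h ‹_›
      · right; right; right; exact ⟨by linarith, by linarith, by linarith⟩
    · right; right; left; exact ⟨by linarith, by linarith⟩
  · right; left; linarith

private lemma RegB_Blk_congr (m l : ℕ) (p q : ℤ)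
    (h : ((p : ℤ) : ZMod (2 * m)) = ((q : ℤ) : ZMod (2 * m))) : Blk m l p = Blk m l q := by
  unfold Blk
  apply Finset.image_congr
  intro s _
  simp only
  push_cast
  rw [h]

private lemma RegB_inj (m : ℕ) (t : ℤ) (s s' : ℕ) (hs : s < 2 * m) (hs' : s' < 2 * m)
    (h : ((t + s : ℤ) : ZMod (2 * m)) = ((t + s' : ℤ) : ZMod (2 * m))) : s = s' := by
  rw [ZMod.intCast_eq_intCast_iff_dvd_sub] at h
  have e : t + (s' : ℤ) - (t + s) = (s' : ℤ) - s := by ring
  rw [e] at h
  obtain ⟨k, hk⟩ := h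
  have hk0 : k = 0 := by
    by_contra hk0
    rcases lt_or_gt_of_ne hk0 with h | h
    · have : ((2 * m : ℕ) : ℤ) * k ≤ -(2 * m : ℕ) := by nlinarith
      omega
    · have : ((2 * m : ℕ) : ℤ) ≤ (2 * m : ℕ) * k := by nlinarith
      omega
  rw [hk0] at hk
  omega

private lemma RegB_zm (m : ℕ) (j : ℤ) (h : (m : ℤ) ∣ j) :
    ((j : ℤ) : ZMod (2 * m)) = 0 ∨ ((j : ℤ) : ZMod (2 * m)) = ((m : ℤ) : ZMod (2 * m)) := by
  obtain ⟨k, rfl⟩ := h
  rcases Int.even_or_odd' k with ⟨i, rfl | rfl⟩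
  · left
    have : (0 : ZMod (2 * m)) = ((0 : ℤ) : ZMod (2 * m)) := by simp
    rw [this, ZMod.intCast_eq_intCast_iff_dvd_sub]
    exact ⟨-i, by push_cast; ring⟩
  · right
    rw [ZMod.intCast_eq_intCast_iff_dvd_sub]
    exact ⟨-i, by push_cast; ring⟩

private lemma RegB_K (hA : St_RegA) (hW : St_Win) (hR : St_Ray) (m l : ℕ) [NeZero m]
    (hl : 2 ≤ l) (hm : m = 3 * l) (ε : ℝ) (hε : 0 < ε)
    (hkey : ∀ (t : ℤ) (X : Finset ℕ), X ⊆ range m →
    (RegB_lex (RegB_G m X) (RegB_A m t X) (RegB_A m (t - 1) X) →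
      RegB_G m X + ε * RegB_A m t X + ε ^ 2 * RegB_A m (t - 1) X < 0) ∧
    (RegB_lex (-RegB_G m X) (-RegB_A m t X) (-RegB_A m (t - 1) X) →
      -RegB_G m X + ε * -RegB_A m t X + ε ^ 2 * -RegB_A m (t - 1) X < 0))
    (N : Finset (ZMod (2 * m))) (hAF : AF m N) (hc : N.card ≤ l)
    (hα : ∃ α, 0 < D m (RegB_r m ε) (RegB_th m) N α) :
    N.card = l ∧ ∃ q : ℤ, N = Blk m l q ∧
      ((0 : ZMod (2 * m)) ∈ N ∨ ((m : ℤ) : ZMod (2 * m)) ∈ N) := by
  classical
  have hm0 : 0 < m := by omega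
  have hcf := RegB_cf m (by omega) ε hε
  obtain ⟨t, ht⟩ := hR m _ _ hcf N hAF hα
  obtain ⟨-, hD⟩ := hW m _ _ hcf N hAF t (RegB_th m t) (hcf.mono (by omega)) le_rfl
  rw [hD, RegB_P m hm0 ε t] at ht
  have hmem : ∀ s, s ∈ Xp m N t ↔ s < m ∧ ((t + s : ℤ) : ZMod (2 * m)) ∈ N := by
    intro s; unfold Xp; rw [mem_filter, mem_range]
  generalize Xp m N t = X at ht hmem
  have hXr : X ⊆ range m := fun s hs => mem_range.2 ((hmem s).1 hs).1
  have hXc : X.card ≤ N.card := by
    apply card_le_card_of_injOn (fun s : ℕ => ((t + s : ℤ) : ZMod (2 * m)))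
    · intro s hs
      exact ((hmem s).1 hs).2
    · intro s hs s' hs' h
      have h1 := ((hmem s).1 hs).1
      have h2 := ((hmem s').1 hs').1
      exact RegB_inj m t s s' (by omega) (by omega) h
  have hom : ∀ s : ℕ, sin (π * s / (3 * l)) = RegB_om m s := by
    intro s; unfold RegB_om; rw [hm]; push_cast; rfl
  obtain ⟨hA1, hA2⟩ := hA l (by omega)
  simp only [hom, ← hm] at hA1 hA2
  -- the sum of the second block
  have hblk : ∑ s ∈ Ico (l + 1) (2 * l + 1), RegB_om m s = ∑ s ∈ Ico l (2 * l), RegB_om m s := by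
    have h1 : ∑ s ∈ Ico l (2 * l + 1), RegB_om m s =
        ∑ s ∈ Ico l (2 * l), RegB_om m s + RegB_om m (2 * l) :=
      sum_Ico_succ_top (by omega) _
    have h2 : ∑ s ∈ Ico l (2 * l + 1), RegB_om m s =
        RegB_om m l + ∑ s ∈ Ico (l + 1) (2 * l + 1), RegB_om m s :=
      sum_eq_sum_Ico_succ_bot (by omega) _
    have h3 : RegB_om m (2 * l) = RegB_om m l := by
      unfold RegB_om
      rw [← sin_pi_sub]
      congr 1
      rw [hm]
      have : (l : ℝ) ≠ 0 := by exact_mod_cast (by omega : l ≠ 0)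
      push_cast
      field_simp
      ring
    linarith
  obtain ⟨e, he1, hXe, hG⟩ : ∃ e : ℕ, e ≤ 1 ∧ X = Ico (l + e) (2 * l + e) ∧ RegB_G m X = 0 := by
    rcases hA2 X hXr (by omega) with h | h | h
    · exfalso
      have hG : RegB_G m X < 0 := by unfold RegB_G; linarith
      have := (hkey t X hXr).1 (Or.inl hG)
      linarith
    · refine ⟨0, by omega, h, ?_⟩
      unfold RegB_G
      rw [h]; linarith
    · refine ⟨1, le_rfl, h, ?_⟩
      unfold RegB_G
      rw [h]; linarith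
  have hXcard : X.card = l := by rw [hXe, Nat.card_Ico]; omega
  have hNcard : N.card = l := by omega
  have hsub : Blk m l (t + (l + e : ℕ)) ⊆ N := by
    intro x hx
    unfold Blk at hx
    rw [mem_image] at hx
    obtain ⟨s, hs, rfl⟩ := hx
    rw [mem_range] at hs
    have h1 : l + e + s ∈ X := by rw [hXe, mem_Ico]; omega
    have h2 := ((hmem _).1 h1).2
    have h3 : t + ((l + e : ℕ) : ℤ) + (s : ℤ) = t + ((l + e + s : ℕ) : ℤ) := by push_cast; ring
    rw [h3]; exact h2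
  have hBcard : (Blk m l (t + (l + e : ℕ))).card = l := by
    unfold Blk
    rw [card_image_of_injOn, card_range]
    intro s hs s' hs' h
    rw [coe_range, Set.mem_Iio] at hs hs'
    exact RegB_inj m _ s s' (by omega) (by omega) h
  refine ⟨hNcard, t + (l + e : ℕ), (eq_of_subset_of_card_le hsub (by omega)).symm, ?_⟩
  by_contra hcon
  push Not at hcon
  obtain ⟨hc0, hcm⟩ := hcon
  obtain ⟨s₀, s₁, h1, h2, h3, h4, h5, h6⟩ := RegB_pos m (by omega) t
  have hs0 : s₀ ∉ X := by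
    intro h
    have h7 := ((hmem _).1 h).2
    rcases RegB_zm m _ h3 with h8 | h8
    · rw [h8] at h7; exact hc0 h7
    · rw [h8] at h7; exact hcm h7
  have h5' := h5 X hXr
  rw [if_neg hs0] at h5'
  rcases h4 with h4 | ⟨h4, h4'⟩
  · have h8 := RegB_om_pos m s₀ h4 h1
    have := (hkey t X hXr).1 (Or.inr (Or.inl ⟨hG, by rw [h5']; linarith⟩))
    linarith
  · have hs1 : s₁ ∉ X := by rw [hXe, mem_Ico]; omega
    have h6' := h6 X hXr
    rw [if_neg hs1] at h6'
    have h8 := RegB_om_pos m 1 one_pos (by omega)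
    have := (hkey t X hXr).1 (Or.inr (Or.inr ⟨hG, by rw [h5', h4, RegB_om_zero]; simp,
      by rw [h6', h4']; linarith⟩))
    linarith

private lemma RegB_main (hA : St_RegA) (hW : St_Win) (hR : St_Ray) (m l : ℕ) [NeZero m]
    (hl : 2 ≤ l) (hm : m = 3 * l) : ∃ r θ : ℤ → ℝ, Cf m r θ ∧
    (∀ i j : ℤ, i < j → j < i + m → 0 < r i * sin (θ j - θ i)) ∧
    (∀ (t : ℤ) (X : Finset ℕ), X ⊆ range m →
      2 * ∑ s ∈ X, w r θ (t + s) (θ t) ≠ ∑ s ∈ range m, w r θ (t + s) (θ t)) ∧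
    (∀ k, k < l → nf m r θ k = 0) ∧ nf m r θ l ≤ 2 * l := by
  classical
  have hm2 : 2 ≤ m := by omega
  have hm0 : 0 < m := by omega
  obtain ⟨ε, hε, hkey⟩ := RegB_exists m hm0
  have hcf := RegB_cf m hm2 ε hε
  refine ⟨RegB_r m ε, RegB_th m, hcf, RegB_gp m hm2 ε hε, ?_, ?_, ?_⟩
  · intro t X hX heq
    have h1 := RegB_P m hm0 ε t X
    rw [heq, sub_self] at h1
    obtain ⟨s₀, s₁, h2, h3, -, h4, h5, h6⟩ := RegB_pos m hm2 t
    have hne : RegB_G m X ≠ 0 ∨ RegB_A m t X ≠ 0 ∨ RegB_A m (t - 1) X ≠ 0 := by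
      rcases h4 with h4 | ⟨h4, h4'⟩
      · right; left
        have := RegB_om_pos m s₀ h4 h2
        rw [h5 X hX]
        split_ifs
        · exact this.ne'
        · exact (neg_neg_of_pos this).ne
      · right; right
        have := RegB_om_pos m 1 one_pos (by omega)
        rw [h6 X hX, h4']
        split_ifs
        · exact this.ne'
        · exact (neg_neg_of_pos this).ne
    rcases RegB_lex_or _ _ _ hne with h | h
    · have := (hkey t X hX).1 h
      linarith
    · have := (hkey t X hX).2 h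
      linarith
  · intro k hk
    unfold nf
    rw [card_eq_zero, filter_eq_empty_iff]
    rintro N - ⟨h1, h2, h3⟩
    have := (RegB_K hA hW hR m l hl hm ε hε hkey N h1 (by omega) h3).1
    omega
  · unfold nf
    have hsub : (univ.filter fun N : Finset (ZMod (2 * m)) =>
        AF m N ∧ N.card = l ∧ ∃ α, 0 < D m (RegB_r m ε) (RegB_th m) N α) ⊆
        (range l).image (fun a : ℕ => Blk m l (-(a : ℤ))) ∪
        (range l).image (fun a : ℕ => Blk m l ((m : ℤ) - a)) := by
      intro N hN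
      rw [mem_filter] at hN
      obtain ⟨-, h1, h2, h3⟩ := hN
      obtain ⟨-, q, hq, h4⟩ := RegB_K hA hW hR m l hl hm ε hε hkey N h1 (by omega) h3
      rw [mem_union, mem_image, mem_image]
      rcases h4 with h4 | h4
      · left
        rw [hq] at h4
        unfold Blk at h4
        rw [mem_image] at h4
        obtain ⟨s, hs, h5⟩ := h4
        refine ⟨s, hs, ?_⟩
        rw [hq]
        apply RegB_Blk_congr
        push_cast at h5 ⊢
        linear_combination -h5
      · right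
        rw [hq] at h4
        unfold Blk at h4
        rw [mem_image] at h4
        obtain ⟨s, hs, h5⟩ := h4
        refine ⟨s, hs, ?_⟩
        rw [hq]
        apply RegB_Blk_congr
        push_cast at h5 ⊢
        linear_combination -h5
    calc _ ≤ _ := card_le_card hsub
      _ ≤ _ := card_union_le _ _
      _ ≤ (range l).card + (range l).card := Nat.add_le_add card_image_le card_image_le
      _ = 2 * l := by rw [card_range]; ring

theorem thm_RegB (hA : St_RegA) (hW : St_Win) (hR : St_Ray) : St_RegB := by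
  intro l _ hl
  obtain ⟨r, θ, h1, h2, h3, h4, h5⟩ := RegB_main hA hW hR (3 * l) l hl rfl
  refine ⟨r, θ, h1, ?_, h3, h4, h5⟩
  intro i j hij hj
  exact h2 i j hij (by push_cast; exact hj)

end

end Pool.CSG
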