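import Pool.Agent.CSG.St

/-!
# CSG, module Sin
-/

set_option autoImplicit false

open Finset Real

namespace Pool.CSG

theorem thm_Sin : St_Sin := by
  intro ι J c φ a b x h1 h2 h3 ha hb
  have key : sin (b - a) * ∑ i ∈ J, c i * sin (φ i - x) =
      sin (b - x) * ∑ i ∈ J, c i * sin (φ i - a) + sin (x - a) * ∑ i ∈ J, c i * sin (φ i - b) := by
    rw [Finset.mul_sum, Finset.mul_sum, Finset.mul_sum, ← Finset.sum_add_distrib]
    apply Finset.sum_congr rfl
    intro i _
    have h : sin (b - a) * sin (φ i - x) =
        sin (b - x) * sin (φ i - a) + sin (x - a) * sin (φ i - b) := by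
      rw [sin_sub, sin_sub, sin_sub, sin_sub, sin_sub, sin_sub]
      ring
    calc sin (b - a) * (c i * sin (φ i - x)) = c i * (sin (b - a) * sin (φ i - x)) := by ring
      _ = _ := by rw [h]; ring
  rcases eq_or_lt_of_le (h1.trans h2) with hab | hab
  · have : x = a := le_antisymm (h2.trans hab.ge) h1
    rw [this]; exact ha
  · have hs : 0 < sin (b - a) := sin_pos_of_pos_of_lt_pi (by linarith) (by linarith)
    have hs1 : 0 ≤ sin (b - x) := sin_nonneg_of_nonneg_of_le_pi (by linarith) (by linarith)
    have hs2 : 0 ≤ sin (x - a) := sin_nonneg_of_nonneg_of_le_pi (by linarith) (by linarith)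
    have h4 : sin (b - a) * ∑ i ∈ J, c i * sin (φ i - x) ≤ 0 := by
      rw [key]
      have := mul_nonpos_of_nonneg_of_nonpos hs1 ha
      have := mul_nonpos_of_nonneg_of_nonpos hs2 hb
      linarith
    by_contra hcon
    push Not at hcon
    have := mul_pos hs hcon
    linarith

end Pool.CSG
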