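import Pool.Agent.CSG.Defs

/-!
# CSG: the statements (MP_54ed1a_co, captain helper81)

THEOREM. For every `l ≥ 2` the maximum of `g_l` over the centrally symmetric simplicial
`(3 l - 2)`-polytopes with `6 l` vertices is `∑_{j ≤ l} C(3 l, j) - 2 l`.
Page: /team-store/CS_gl_page.md. Every `def St_X : Prop` is a module `Pool/Agent/CSG/X.lean` with
`theorem thm_X : St_X` or `theorem thm_X (h : St_Y) .. : St_X` in the namespace `Pool.CSG`.

Conventions: `w r θ j α = r j * sin (θ j - α)`; the pair `j`, `j + m` contributes `T`; `D` is the sum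
over the pairs `0, …, m - 1`.
-/

set_option autoImplicit false

open Finset Real Pool.CS4

noncomputable section

namespace Pool.CSG

/-- [Sin] Proof. With `F x := ∑ i ∈ J, c i * sin (φ i - x)`:
`sin (b - a) * F x = sin (b - x) * F a + sin (x - a) * F b`, all sines are `≥ 0`, and
`sin (b - a) > 0` unless `a = b` (then `x = a`). -/
def St_Sin : Prop := ∀ (ι : Type) (J : Finset ι) (c φ : ι → ℝ) (a b x : ℝ),
  a ≤ x → x ≤ b → b < a + π → ∑ i ∈ J, c i * sin (φ i - a) ≤ 0 →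
  ∑ i ∈ J, c i * sin (φ i - b) ≤ 0 → ∑ i ∈ J, c i * sin (φ i - x) ≤ 0

/-- [Cvx] Proof. Every term `T` of `D` is `w`, `-w` or `-|w|`. `w (a + π) = -w a`, so
`T (a + π) + T a` is `0` or `-2 |w a|`. For the last part
`sin (b - a) * w x = sin (b - x) * w a + sin (x - a) * w b`, hence
`sin (b - a) * |w x| ≤ sin (b - x) * |w a| + sin (x - a) * |w b|`, so
`sin (b - a) * D x ≥ sin (b - x) * D a + sin (x - a) * D b > 0` (if `a < x < b`; the cases `x = a`,
`x = b` are trivial). -/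
def St_Cvx : Prop := ∀ (m : ℕ) (r θ : ℤ → ℝ) (N : Finset (ZMod (2 * m))) (a b x : ℝ),
  D m r θ N (a + π) + D m r θ N a ≤ 0 ∧ D m r θ N (a + 2 * π) = D m r θ N a ∧
  (a ≤ x → x ≤ b → b < a + π → 0 < D m r θ N a → 0 < D m r θ N b → 0 < D m r θ N x)

/-- [Win] the window formula. Proof. As `N` is `AF` and `r (j + m) = r j`, `θ (j + m) = θ j + π`,
`T m r θ N α (j + m) = T m r θ N α j` (three cases: `j ∈ N`; `j + m ∈ N`; none), so `D` is the sum of
`T (t + s)`, `s < m`, for every `t : ℤ`. For `θ (t - 1) ≤ α ≤ θ t` and `s < m`: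
`0 ≤ θ (t + s) - α ≤ π` as `θ (t + s) ≤ θ (t - 1 + m) = θ (t - 1) + π`. So `w (t + s) α ≥ 0` and
`T (t + s)` is `w` for `t + s ∈ N` and `-w` otherwise. -/
def St_Win : Prop := ∀ (m : ℕ) [NeZero m] (r θ : ℤ → ℝ), Cf m r θ →
  ∀ N : Finset (ZMod (2 * m)), AF m N → ∀ (t : ℤ) (α : ℝ), θ (t - 1) ≤ α → α ≤ θ t →
  (∀ s : ℕ, s < m → 0 ≤ w r θ (t + s) α) ∧
  D m r θ N α = 2 * ∑ s ∈ Xp m N t, w r θ (t + s) α - ∑ s ∈ range m, w r θ (t + s) α

/-- [Ray] (uses [Sin], [Win]) Proof. There is `t : ℤ` with `θ (t - 1) ≤ α ≤ θ t` (`θ` is monotone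
and `θ (j + m) = θ j + π`). If `θ t < θ (t - 1) + π`: by [Win] `D` is on `[θ (t - 1), θ t]` one sum as in
[Sin] (coefficients `± r (t + s)`), so if `D ≤ 0` at both ends then `D α ≤ 0`. Otherwise
`θ t = θ (t - 1) + π = θ (t - 1 + m)`, so `θ j = θ t` for `t ≤ j < t + m` and all
`sin (θ j - θ t)` are `0` (for all `j : ℤ`), contradiction to `sp`. -/
def St_Ray : Prop := ∀ (m : ℕ) [NeZero m] (r θ : ℤ → ℝ), Cf m r θ →
  ∀ N : Finset (ZMod (2 * m)), AF m N → (∃ α, 0 < D m r θ N α) → ∃ t : ℤ, 0 < D m r θ N (θ t)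

/-- [Sta] (uses [Cvx], [Ray]) the start. Proof. Put `P t := 0 < D (θ t)` for `t : ℤ`. `P (t + 2 m) ↔ P t`
and `P t → ¬ P (t + m)`. Existence: `P t₀` and `¬ P (t₀ - m)`. Uniqueness: let `s < t < s + 2 m` both be
starts (`P s`, `P t`, `¬ P (s - 1)`, `¬ P (t - 1)`). If `θ t < θ s + π` then `P (t - 1)` by [Cvx]. If
`θ (s + 2 m) = θ s + 2 π < θ t + π` then `P (s + 2 m - 1)` by [Cvx], so `P (s - 1)`. Otherwise
`θ t = θ s + π` and `D (θ t) ≤ - D (θ s) < 0`. -/
def St_Sta : Prop := ∀ (m : ℕ) [NeZero m] (r θ : ℤ → ℝ), Cf m r θ →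
  ∀ N : Finset (ZMod (2 * m)), AF m N → (∃ α, 0 < D m r θ N α) →
  ∃! t : ℕ, t < 2 * m ∧ 0 < D m r θ N (θ (t : ℤ)) ∧ D m r θ N (θ ((t : ℤ) - 1)) ≤ 0

open Classical in
/-- [AFc] Proof. `N ↦ (Xp m N 0, Xp m N m)` is a bijection onto the pairs `(X, Y)` of disjoint subsets of
`range m`; `∑ over X of C(m - |X|, k - |X|) = ∑ x, C(m, x) C(m - x, k - x) = 2 ^ k C(m, k)`. -/
def St_AFc : Prop := ∀ (m : ℕ) [NeZero m] (k : ℕ),
  (univ.filter fun N : Finset (ZMod (2 * m)) => AF m N ∧ N.card = k).card = 2 ^ k * m.choose k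

/-- [Cnt] (uses [Win], [Sta]) Proof. `N ↦ (t, X, Y)` with `t` the start of `N`, `X = Xp m N t`,
`Y = Xp m N (t + m)`, is a bijection onto the triples with `(t, X)` an event and `Y` a subset of
`range m \ X`, and `|N| = |X| + |Y|`. By [Win] at `α = θ t` and `α = θ (t - 1)` (both with the window `t`)
`Up t X` says exactly that `0 < D (θ t)` and `D (θ (t - 1)) ≤ 0`. For fixed `(t, X)` there are
`C(m - |X|, k - |X|)` sets `Y` with `|Y| = k - |X|`. Inverse map: `N` is the set of the `t + s`, `s ∈ X`,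
and of the `t + s + m`, `s ∈ Y`. -/
def St_Cnt : Prop := ∀ (m : ℕ) [NeZero m] (r θ : ℤ → ℝ), Cf m r θ → ∀ k : ℕ,
  nf m r θ k = ∑ e ∈ ev m r θ k, (m - e.2.card).choose (k - e.2.card)

/-- [Bin] binomial identities. Proof. For `x ≤ i ≤ d`, with `p = d - x`, `q = i - x`:
`∑_{k ≤ q} (-1)^(q-k) C(p - k, q - k) C(p + 2, k) = q + 1`, since
`(-1)^(q-k) C(p - k, q - k) = C(q - p - 1, q - k)` (`Ring.choose`, negative upper entry) and by
Vandermonde (`Ring.add_choose_eq`) the sum is `C(q + 1, q)`. So every `e ∈ S` contributes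
`-(l - x e + 1) + (l - 1 - x e + 1) = -1` (if `x e = l` the second term is absent and the first one is
`-1`). As `2 ^ k C(m, k) = ∑ x ≤ k, C(m, x) C(m - x, k - x)` the first part contributes
`∑ x ≤ l, C(m, x)`. -/
def St_Bin : Prop := ∀ (d l : ℕ) (ι : Type) (S : Finset ι) (x : ι → ℕ) (f : ℕ → ℤ),
  1 ≤ l → l ≤ d → (∀ e ∈ S, x e ≤ l) →
  (∀ k ≤ l, f k = 2 ^ k * ((d + 2).choose k : ℤ) -
    ∑ e ∈ S.filter (fun e => x e ≤ k), ((d + 2 - x e).choose (k - x e) : ℤ)) →
  hh d f l - hh d f (l - 1) = ∑ j ∈ range (l + 1), ((d + 2).choose j : ℤ) - (S.card : ℤ)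

/-- [Blk1] (uses [Sin], [Win]) Proof. Blocks are `AF`. Let `F α` be the sum of `w (q + s) α` over `s < l` and
`2 l ≤ s < 3 l` minus the sum over `l ≤ s < 2 l`. By [Win] (with `α = θ t`, windows `t = q`, `q + l`,
`q + 2 l`) and `w (j + 3 l) = - w j`: `D (Blk (q + l)) (θ q) = - F (θ q)`,
`D (Blk (q + 2 l)) (θ (q + l)) = F (θ (q + l))`, `D (Blk (q + 3 l)) (θ (q + 2 l)) = - F (θ (q + 2 l))`
(each block is the middle third of its window). If none of the three is somewhere positive then by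
`Dich` all `D` are negative: `F (θ q) > 0`, `F (θ (q + l)) < 0`, `F (θ (q + 2 l)) > 0`; also
`F (θ q + π) < 0` and `θ q < θ (q + l) ≤ θ (q + 2 l) ≤ θ (q + 3 l) = θ q + π`; [Sin] on
`[θ (q + l), θ q + π]` gives `F (θ (q + 2 l)) ≤ 0`. -/
def St_Blk1 : Prop := ∀ (l : ℕ) [NeZero l] (r θ : ℤ → ℝ), Cf (3 * l) r θ → Dich (3 * l) r θ →
  ∀ q : ℤ, (∃ α, 0 < D (3 * l) r θ (Blk (3 * l) l (q + l)) α) ∨
    (∃ α, 0 < D (3 * l) r θ (Blk (3 * l) l (q + 2 * l)) α) ∨
    (∃ α, 0 < D (3 * l) r θ (Blk (3 * l) l (q + 3 * l)) α)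

/-- [Blk2] (uses [Sin], [Win]) Proof. `D` and everything else depends on `t` only modulo `2 m` (if `t` is
replaced by `t + 2 m` the angles change by `2 π`); so let `q - m < t ≤ q + m`.
(i) `t ≤ q`: `a = q - t`; `t + s = q + i` modulo `2 m` with `s < m`, `i < l` iff `s = a + i`.
(ii) `q + l ≤ t ≤ q + m`: `Xp` is empty, `D (θ t) ≤ 0` by [Win], contradiction.
(iii) `q < t < q + l`: for `α ∈ [θ q, θ (q + l - 1)]` the sum `D` over the window `q, …, q + m - 1` is
`F α = ∑ i < l, w (q + i) α - ∑ l ≤ i < m, w (q + i) α` (the second terms are `-|w|` with `w ≥ 0`). `F ≤ 0` at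
`θ (t - 1)` (hypothesis) and at `θ (q + l - 1)` (by [Win] with the window `q + l`, `Xp` is empty). If
`θ (q + l - 1) < θ (t - 1) + π` then [Sin] gives `D (θ t) ≤ 0`, contradiction. Otherwise
`θ (q + l - 1) = θ (t - 1) + π`, so `θ j = θ (t - 1) + π` for `q + l - 1 ≤ j ≤ t - 1 + m`, therefore also
`θ j = θ (t - 1)` for `q ≤ j ≤ t - 1`, and `0 ≥ D (θ (t - 1)) = ∑ over t ≤ j ≤ q + l - 2 of
r j * sin (θ j - θ (t - 1))` with terms `≥ 0`: all `w j (θ (t - 1))` are `0`, contradiction to `sp`. -/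
def St_Blk2 : Prop := ∀ (m l : ℕ) [NeZero m], 1 ≤ l → 2 * l ≤ m → ∀ (r θ : ℤ → ℝ), Cf m r θ →
  ∀ q t : ℤ, 0 < D m r θ (Blk m l q) (θ t) → D m r θ (Blk m l q) (θ (t - 1)) ≤ 0 →
  ∃ a : ℕ, a < m ∧ ((q : ℤ) : ZMod (2 * m)) = ((t + a : ℤ) : ZMod (2 * m)) ∧
    Xp m (Blk m l q) t = Ico a (min (a + l) m)

/-- [BlkC] (uses [Win], [Sta], [Blk1], [Blk2]) Proof. Let `Q` be the set of the `q < 6 l` such that
`Blk q` is somewhere positive. [Blk1] with `q` and with `q + 3 l`, for `q = 0, …, l - 1`, gives two elements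
of `Q` in every residue class modulo `l` (one congruent to `q + l`, `q + 2 l` or `q + 3 l` and one
congruent to `q + 4 l`, `q + 5 l` or `q + 6 l` modulo `6 l`), so `2 l ≤ card Q`. For `q ∈ Q` let `t` be the
start of `Blk q` ([Sta]); `(t, Xp (Blk q) t)` is an event by [Win], with at most `l` elements, and by
[Blk2] it determines `q`: `Xp = Ico a _` is not empty, `a` is its least element, `q = t + a` modulo
`2 m`. -/
def St_BlkC : Prop := ∀ (l : ℕ) [NeZero l] (r θ : ℤ → ℝ), Cf (3 * l) r θ → Dich (3 * l) r θ →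
  2 * l ≤ (ev (3 * l) r θ l).card

/-- [Zon] zonotope duality in the plane. Proof. The set `Z` of the points
`(∑ c i * p i, ∑ c i * q i)`, `|c i| ≤ 1`, is convex and compact (image of a cube, for example of
`Set.pi univ (fun _ : J => Icc (-1) 1)`). If `(a, b)` is not in `Z` there is a linear functional
`(x, y) ↦ x * cos α + y * sin α` (normalise it) with `sup` over `Z` `<` its value at `(a, b)`; the `sup` is
at least `∑ |p i cos α + q i sin α|` (`c i` the sign). -/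
def St_Zon : Prop := ∀ (ι : Type) (J : Finset ι) (p q : ι → ℝ) (a b : ℝ),
  (∀ α : ℝ, a * cos α + b * sin α ≤ ∑ i ∈ J, |p i * cos α + q i * sin α|) →
  ∃ c : ι → ℝ, (∀ i, |c i| ≤ 1) ∧ ∑ i ∈ J, c i * p i = a ∧ ∑ i ∈ J, c i * q i = b

/-- [Gale] the diagram of a polytope. Proof. `0 ∉ V` (`cls_zero` of CS4), so `V` consists of `m = d + 2`
antipodal pairs (`card_halfGBase`, `cover_halfGBase`, `noAnti_halfGBase` of CS4); choose
`u : Fin m → E d` with one vertex of each pair. `V` spans `E d` (`full`), so `c ↦ ∑ c i • u i` is surjective and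
its kernel has dimension `2`; let `k₁, k₂` be a basis. Write `(k₁ i, k₂ i) = ± ρ i (cos (φ i), sin (φ i))` with
`ρ i ≥ 0`, `0 ≤ φ i < π`, change the sign of `u i` (and of `k₁ i`, `k₂ i`) if the sign is `-`, and sort by
`φ`. Put `θ (m a + i) = φ i + π a`, `r (m a + i) = ρ i`, `v (m a + i) = (-1)^a u i` for `i < m`. The kernel
elements `y₁ k₁ + y₂ k₂` are the `ρ' * r s * sin (θ s - α)` with `(y₁, y₂) = ρ' (- sin α, cos α)`; for `ρ' = 1` they
are not `0`, which is `sp`. -/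
def St_Gale : Prop := ∀ (d : ℕ) (V : Finset (E d)), 1 ≤ d → IsCSSimplicial d V →
  V.card = 2 * (d + 2) → ∃ (v : ℤ → E d) (r θ : ℤ → ℝ), Rep d (d + 2) V v r θ

/-- [Fac] (uses [Zon]) faces. Proof. First part: [Zon] for the pairs outside of `N` (`j < m` with
`j, j + m ∉ N`), `p = r sin θ`, `q = - r cos θ` (so that `p cos α + q sin α = w`), and `(a, b)` the negative of the
sum of `(p, q)` over `N`, gives (with `D ≤ 0` everywhere) numbers `c s`, `s < m`, `|c s| ≤ 1`, with `c s = 1` for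
`s ∈ N`, `-1` for `s + m ∈ N`, and `∑ c s * w s α = 0` for all `α`. By `dep` `c` is orthogonal to all
dependencies of the `v s`, so there is a linear functional `f` with `f (v s) = c s` for `s < m`. `f ≤ 1` on `V`,
`f = 1` on `N`. `F := {u ∈ V | f u = 1}` is a proper face (symmetry), so affinely independent, and as
`f = 1` on it linearly independent; take a functional `f'` with `f' = 0` on the vertices of `N` and `-1` on
the other vertices of `F`; `f + ε f'` is `1` on `N` and `< 1` on the rest of `V` for small `ε > 0`.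
Second part: let `f = c₀` on `N` and `f < c₀` on the rest of `V`; `c₀ > 0` (`gconf_pos` of CS4), so let
`c₀ = 1`, and `|f| ≤ 1` on `V` by symmetry, `|f (v s)| < 1` if `s, s + m ∉ N`. `∑ f (v s) * w s α = 0` for all `α`
(`dep`), so `D α = - ∑ over the pairs outside of N of (f (v s) * w s α + |w s α|) ≤ 0`, with equality only if
`w s α = 0` for all pairs outside; then `(w s α)_s` is by `sp` and `dep` a nonzero dependency of the vertices
of `N` (up to signs), but these are linearly independent (as above): contradiction. -/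
def St_Fac : Prop := ∀ (d m : ℕ) [NeZero m] (V : Finset (E d)) (v : ℤ → E d) (r θ : ℤ → ℝ),
  1 ≤ d → IsCSSimplicial d V → Rep d m V v r θ → ∀ N : Finset (ZMod (2 * m)), AF m N →
  ((∀ α, D m r θ N α ≤ 0) → IsFace V (N.image (vz m v)) ∧ N.image (vz m v) ≠ V) ∧
  (IsFace V (N.image (vz m v)) → N.image (vz m v) ≠ V → ∀ α, D m r θ N α < 0)

/-- [Fv] (uses [Fac], [AFc]) Proof. `vz` is a bijection of `ZMod (2 m)` onto `V` with
`vz (x + m) = - vz x`; a proper face contains no antipodal pair (`gconf_pos` of CS4), so the proper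
faces with `k` vertices are the `N.image (vz m v)` with `AF m N`, `N.card = k` and `D < 0` everywhere. -/
def St_Fv : Prop := ∀ (d m : ℕ) [NeZero m] (V : Finset (E d)) (v : ℤ → E d) (r θ : ℤ → ℝ),
  1 ≤ d → IsCSSimplicial d V → Rep d m V v r θ →
  Dich m r θ ∧ ∀ k, (fv V k : ℤ) = 2 ^ k * (m.choose k : ℤ) - (nf m r θ k : ℤ)

/-- [Upp] (uses [Gale], [Fv], [Cnt], [Bin], [BlkC]) Proof. `m = 3 l`, `d = m - 2`. [Bin] with
`S = ev m r θ l`, `x e = e.2.card`, `f k = fv V k` (for `k ≤ l` the filter of `S` is `ev m r θ k`, [Cnt]). -/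
def St_Upp : Prop := ∀ l : ℕ, 2 ≤ l → ∀ V : Finset (E (3 * l - 2)),
  IsCSSimplicial (3 * l - 2) V → V.card = 6 * l →
  gv (3 * l - 2) V l ≤ ∑ j ∈ range (l + 1), ((3 * l).choose j : ℤ) - 2 * l

/-- [RegA] the regular configuration. Proof. `ω s = sin (π s / (3 l))`, `0 ≤ s < 3 l` (and `ω (3 l) = 0`).
`∑_{l ≤ s < 2 l} ω s = ∑_{s < l} (ω s + ω (s + 2 l))` since
`sin (x + π / 3) = sin x + sin (x + 2 π / 3)`. For the second part let `τ = ω l = ω (2 l) = sin (π / 3)`;
`ω s > τ` for `l < s < 2 l` and `ω s < τ` for `s < l` or `2 l < s < 3 l`. `∑_X ω = ∑_X (ω - τ) + |X| τ ≤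
∑_{l < s < 2 l} (ω s - τ) + l τ = ∑_{l ≤ s < 2 l} ω s`, with equality only if `|X| = l` and `X` consists of the `s` with
`l < s < 2 l` and of `l` or `2 l`. -/
def St_RegA : Prop := ∀ l : ℕ, 1 ≤ l →
  2 * ∑ s ∈ Ico l (2 * l), sin (π * s / (3 * l)) = ∑ s ∈ range (3 * l), sin (π * s / (3 * l)) ∧
  ∀ X : Finset ℕ, X ⊆ range (3 * l) → X.card ≤ l →
    2 * ∑ s ∈ X, sin (π * s / (3 * l)) < ∑ s ∈ range (3 * l), sin (π * s / (3 * l)) ∨
    X = Ico l (2 * l) ∨ X = Ico (l + 1) (2 * l + 1)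

/-- the conditions on the diagram of the example -/
structure Good (l : ℕ) [NeZero l] (r θ : ℤ → ℝ) : Prop where
  cf : Cf (3 * l) r θ
  gp : ∀ i j : ℤ, i < j → j < i + 3 * l → 0 < r i * sin (θ j - θ i)
  tie : ∀ (t : ℤ) (X : Finset ℕ), X ⊆ range (3 * l) →
    2 * ∑ s ∈ X, w r θ (t + s) (θ t) ≠ ∑ s ∈ range (3 * l), w r θ (t + s) (θ t)
  small : ∀ k, k < l → nf (3 * l) r θ k = 0
  top : nf (3 * l) r θ l ≤ 2 * l

/-- [RegB] (uses [RegA], [Win], [Ray]) the example. Proof. `θ j = π j / (3 l)`; `r j = 1 + ε` for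
`j = 0` modulo `3 l`, `1 + ε²` for `j = 1`, and `1` otherwise, `ε > 0` small. `sin (θ (t + s) - θ t) = ω s`.
`2 ∑_{s ∈ X} w (t + s) (θ t) - ∑_{s < m} w (t + s) (θ t) = G + ± ε ω(s₀) ± ε² ω(s₁)`, where `G` is the value for
`r = 1`, `s₀`, `s₁ < m` are the positions of `0`, `1` modulo `m` in the window, and the signs are `+` iff the
position is in `X`. Not both of `ω(s₀)`, `ω(s₁)` are `0`. There are finitely many `(t, X)` (`t` modulo `m`), so for
small `ε` it is not `0` and has the sign of `G` if `G ≠ 0` (tie condition). By [RegA] `G < 0` for `|X| ≤ l` unless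
`X` is `Ico l (2 l)` or `Ico (l+1) (2 l + 1)`. So let `N` be `AF` with at most `l` elements and
`0 < D` somewhere; by [Ray] `0 < D (θ t)` for some `t`, `D (θ t) = 2 ∑_{Xp N t} - ∑` by [Win], `|Xp N t| ≤ |N| ≤ l`, so
`|N| = l` and `N` is the block `Blk (t + l)` or `Blk (t + l + 1)` (all of `N` is in the window) and `G = 0`. If neither
`0` nor its antipode `m` is in `N` then `D (θ t) = - ε ω(s₀) ± ε² ω(s₁)`, negative for small `ε` if `ω(s₀) ≠ 0`;
if `ω(s₀) = 0` then `s₀ = 0`, `t = 0` modulo `m`, `s₁ = 1` is not in `X` (`l ≥ 2`), so it is `- ε² ω(s₁) < 0`. So `N` is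
one of the `2 l` blocks `Blk q` which contain `0` or `m`. -/
def St_RegB : Prop := ∀ (l : ℕ) [NeZero l], 2 ≤ l → ∃ r θ : ℤ → ℝ, Good l r θ

/-- [RealA] the points. Proof. The vectors `(w s α)_{s < m}`, `α ∈ ℝ`, span a plane `U` in `Fin m → ℝ` (it is the
span of `r s cos (θ s)` and `r s sin (θ s)`, independent by `gp`); `(Fin m → ℝ) / U` has dimension `d = m - 2`,
identify it with `E d`; `v s` is the image of the unit vector `e_s`, `v (s + m a) = (-1)^a v s`. -/
def St_RealA : Prop := ∀ (d : ℕ) (r θ : ℤ → ℝ), 1 ≤ d → Cf (d + 2) r θ →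
  (∀ i j : ℤ, i < j → j < i + (d + 2) → 0 < r i * sin (θ j - θ i)) →
  ∃ v : ℤ → E d, (∀ j, v (j + (d + 2 : ℕ)) = -v j) ∧
    Submodule.span ℝ (Set.range v) = ⊤ ∧
    ∀ c : ℕ → ℝ, ∑ s ∈ range (d + 2), c s • v (s : ℤ) = 0 ↔
      ∃ ρ α : ℝ, ∀ s < d + 2, c s = ρ * w r θ (s : ℤ) α

/-- [RealB] (uses [RealA], [Zon], [Sin], [Win], `gconf` of CS4) the polytope. Proof. `v` as in [RealA];
`V` is the set of the `v j`, `j < 2 m`. It is enough to show `Conf d V` (`Stmt_Conf`, theorem `gconf`) and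
that the `v j`, `j < 2 m`, are different. A dependency `c s = ρ w s α`, `ρ ≠ 0`, has at most one zero among
`s < m` (`gp`: `r > 0` and the angles are different modulo `π`), and `m ≥ 4`: so `v i = ± v j` only if
`i = j` modulo `m`, and every set of at most `d = m - 2` vectors `± v s` with different `s` is linearly
independent. Affine independence of `d + 1 = m - 1` vectors `ε_s v s` (all `s` except one, `s = k`): a
dependency is `ρ w s α` with `w k α = 0`, that is `α = θ k` modulo `π`, and `∑ ε_s w s (θ k) ≠ 0` by `tie` (window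
`t = k`, `X` the positions with sign `+`). `Cvx`: let `N = {x}`; `D N ≤ 0` everywhere by `h1`, `< 0` at the rays
`θ t` by `tie` and [Win], `< 0` everywhere by linearity between the rays ([Sin] applied to `F + δ` or
directly); by compactness `w x α ≤ (1 - δ) ∑ over the other pairs of |w s α|` for all `α` and some `δ > 0`; [Zon] gives
`c` with `|c s| ≤ 1 - δ` for the other pairs, `c = 1` at `x`, and `∑ c s w s α = 0`, so (`dep`) a functional which
is `1` at `v x` and `< 1` at the other points. -/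
def St_RealB : Prop := ∀ (d : ℕ) [NeZero (d + 2)] (r θ : ℤ → ℝ), 2 ≤ d → Cf (d + 2) r θ →
  (∀ i j : ℤ, i < j → j < i + (d + 2) → 0 < r i * sin (θ j - θ i)) →
  (∀ (t : ℤ) (X : Finset ℕ), X ⊆ range (d + 2) →
    2 * ∑ s ∈ X, w r θ (t + s) (θ t) ≠ ∑ s ∈ range (d + 2), w r θ (t + s) (θ t)) →
  (∀ (x : ZMod (2 * (d + 2))) (α : ℝ), D (d + 2) r θ {x} α ≤ 0) →
  ∃ (V : Finset (E d)) (v : ℤ → E d), IsCSSimplicial d V ∧ V.card = 2 * (d + 2) ∧
    Rep d (d + 2) V v r θ

/-- [Low] (uses [RegB], [RealB], [Fv], [Bin]) Proof. `small` with `k = 1` gives the last hypothesis of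
[RealB] (`{x}` is `AF`). [Fv], and [Bin] with `S` the set of `nf m r θ l` elements with `x e = l`. -/
def St_Low : Prop := ∀ l : ℕ, 2 ≤ l → ∃ V : Finset (E (3 * l - 2)),
  IsCSSimplicial (3 * l - 2) V ∧ V.card = 6 * l ∧
  ∑ j ∈ range (l + 1), ((3 * l).choose j : ℤ) - 2 * l ≤ gv (3 * l - 2) V l

end Pool.CSG
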