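import Pool.Agent.CSG.St

/-!
# CSG [Sta]: existence and uniqueness of the start
-/

set_option autoImplicit false

open Finset Real Pool.CS4

noncomputable section

namespace Pool.CSG

private theorem Sta_per {m : ℕ} {r θ : ℤ → ℝ} (h : Cf m r θ) (t : ℤ) :
    θ (t + 2 * m) = θ t + 2 * π := by
  have h1 := h.tp t
  have h2 := h.tp (t + m)
  have e : t + 2 * (m : ℤ) = t + m + m := by ring
  rw [e, h2, h1]; ring

private theorem Sta_D (hC : St_Cvx) {m : ℕ} {r θ : ℤ → ℝ} (h : Cf m r θ)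
    (N : Finset (ZMod (2 * m))) (t : ℤ) :
    D m r θ N (θ (t + 2 * m)) = D m r θ N (θ t) := by
  rw [Sta_per h t]
  exact (hC m r θ N (θ t) 0 0).2.1

private theorem Sta_Dn (hC : St_Cvx) {m : ℕ} {r θ : ℤ → ℝ} (h : Cf m r θ)
    (N : Finset (ZMod (2 * m))) (t : ℤ) (k : ℕ) :
    D m r θ N (θ (t + 2 * m * k)) = D m r θ N (θ t) := by
  induction k with
  | zero => simp
  | succ k ih =>
    have e : t + 2 * (m : ℤ) * ((k + 1 : ℕ) : ℤ) = t + 2 * m * k + 2 * m := by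
      push_cast; ring
    rw [e, Sta_D hC h, ih]

private theorem Sta_Dz (hC : St_Cvx) {m : ℕ} {r θ : ℤ → ℝ} (h : Cf m r θ)
    (N : Finset (ZMod (2 * m))) (t : ℤ) (k : ℤ) :
    D m r θ N (θ (t + 2 * m * k)) = D m r θ N (θ t) := by
  rcases Int.eq_nat_or_neg k with ⟨n, hn | hn⟩
  · rw [hn]; exact Sta_Dn hC h N t n
  · have := Sta_Dn hC h N (t + 2 * m * k) n
    rw [← this]
    congr 2
    rw [hn]; ring

private theorem Sta_uniq (hC : St_Cvx) {m : ℕ} {r θ : ℤ → ℝ} (h : Cf m r θ)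
    (N : Finset (ZMod (2 * m))) (s t : ℤ) (hst : s < t) (hts : t < s + 2 * m)
    (hs : 0 < D m r θ N (θ s)) (hs' : D m r θ N (θ (s - 1)) ≤ 0)
    (ht : 0 < D m r θ N (θ t)) (ht' : D m r θ N (θ (t - 1)) ≤ 0) : False := by
  rcases lt_or_ge (θ t) (θ s + π) with h1 | h1
  · have := (hC m r θ N (θ s) (θ t) (θ (t - 1))).2.2 (h.mono (by omega)) (h.mono (by omega)) h1 hs ht
    linarith
  · rcases lt_or_ge (θ (s + 2 * m)) (θ t + π) with h2 | h2
    · have hp : 0 < D m r θ N (θ (s + 2 * m)) := by rw [Sta_D hC h]; exact hs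
      have := (hC m r θ N (θ t) (θ (s + 2 * m)) (θ (s - 1 + 2 * m))).2.2 (h.mono (by omega))
        (h.mono (by omega)) h2 ht hp
      rw [Sta_D hC h] at this
      linarith
    · rw [Sta_per h] at h2
      have e : θ t = θ s + π := by linarith
      have := (hC m r θ N (θ s) 0 0).1
      rw [← e] at this
      linarith

theorem thm_Sta (hC : St_Cvx) (hR : St_Ray) : St_Sta := by
  intro m _ r θ h N hN hex
  have hm : 0 < m := Nat.pos_of_ne_zero (NeZero.ne m)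
  obtain ⟨t₀, ht₀⟩ := hR m r θ h N hN hex
  have hneg : ¬ 0 < D m r θ N (θ (t₀ - m)) := by
    intro hc
    have h1 := (hC m r θ N (θ (t₀ - m)) 0 0).1
    have h2 := h.tp (t₀ - m)
    rw [← h2, sub_add_cancel] at h1
    linarith
  have hE : ∃ k : ℕ, ¬ 0 < D m r θ N (θ (t₀ - (k + 1 : ℕ))) := by
    refine ⟨m - 1, ?_⟩
    have e : m - 1 + 1 = m := by omega
    rw [e]; exact hneg
  obtain ⟨s, hs, hs'⟩ : ∃ s : ℤ, 0 < D m r θ N (θ s) ∧ D m r θ N (θ (s - 1)) ≤ 0 := by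
    classical
    refine ⟨t₀ - (Nat.find hE : ℕ), ?_, ?_⟩
    · rcases Nat.eq_zero_or_pos (Nat.find hE) with h0 | h0
      · rw [h0]; simpa using ht₀
      · have h1 := Nat.find_min hE (m := Nat.find hE - 1) (by omega)
        rw [not_not, Nat.sub_add_cancel h0] at h1
        exact h1
    · have h1 := Nat.find_spec hE
      rw [not_lt] at h1
      have e : t₀ - ((Nat.find hE : ℕ) : ℤ) - 1 = t₀ - ((Nat.find hE + 1 : ℕ) : ℤ) := by
        push_cast; ring
      rw [e]; exact h1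
  have h2m : (0 : ℤ) < 2 * m := by positivity
  have hr0 := Int.emod_nonneg s (ne_of_gt h2m)
  have hr1 := Int.emod_lt_of_pos s h2m
  have hdiv : s = s % (2 * m) + 2 * m * (s / (2 * m)) := (Int.emod_add_mul_ediv s (2 * m)).symm
  obtain ⟨t, ht⟩ := Int.eq_ofNat_of_zero_le hr0
  have hD : D m r θ N (θ (t : ℤ)) = D m r θ N (θ s) := by
    rw [← ht]
    rw [← Sta_Dz hC h N (s % (2 * m)) (s / (2 * m)), ← hdiv]
  have hD' : D m r θ N (θ ((t : ℤ) - 1)) = D m r θ N (θ (s - 1)) := by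
    rw [← ht]
    rw [← Sta_Dz hC h N (s % (2 * m) - 1) (s / (2 * m))]
    have e : s % (2 * m) - 1 + 2 * m * (s / (2 * m)) = s - 1 := by
      rw [sub_add_eq_add_sub, ← hdiv]
    rw [e]
  have htl : t < 2 * m := by
    have : (t : ℤ) < 2 * m := by rw [← ht]; exact hr1
    exact_mod_cast this
  refine ⟨t, ⟨htl, by rw [hD]; exact hs, by rw [hD']; exact hs'⟩, ?_⟩
  rintro u ⟨hu, hu1, hu2⟩
  by_contra hne
  have ht1 : 0 < D m r θ N (θ (t : ℤ)) := by rw [hD]; exact hs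
  have ht2 : D m r θ N (θ ((t : ℤ) - 1)) ≤ 0 := by rw [hD']; exact hs'
  rcases lt_or_gt_of_ne hne with h3 | h3
  · exact Sta_uniq hC h N u t (by exact_mod_cast h3) (by omega) hu1 hu2 ht1 ht2
  · exact Sta_uniq hC h N t u (by exact_mod_cast h3) (by omega) ht1 ht2 hu1 hu2

end Pool.CSG
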