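import Pool.Agent.CSG.St

/-!
# CSG [Upp]: assembly of the upper bound (MP_54ed1a_co, captain helper81)
-/

set_option autoImplicit false

open Finset Real Pool.CS4

noncomputable section

namespace Pool.CSG

private lemma Upp_filter (m : ℕ) (r θ : ℤ → ℝ) (l k : ℕ) (hk : k ≤ l) :
    ((ev m r θ l).filter fun e => e.2.card ≤ k) = ev m r θ k := by
  classical
  ext e
  unfold ev
  simp only [Finset.mem_filter]
  constructor
  · rintro ⟨⟨h1, h2, _⟩, h3⟩
    exact ⟨h1, h2, h3⟩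
  · rintro ⟨h1, h2, h3⟩
    exact ⟨⟨h1, h2, h3.trans hk⟩, h3⟩

private lemma Upp_card (m : ℕ) (r θ : ℤ → ℝ) (l : ℕ) : ∀ e ∈ ev m r θ l, e.2.card ≤ l := by
  classical
  intro e he
  unfold ev at he
  rw [Finset.mem_filter] at he
  exact he.2.2

private lemma Upp_aux (hG : St_Gale) (hF : St_Fv) (hC : St_Cnt) (hB : St_Bin) (hK : St_BlkC)
    (l d : ℕ) (hl : 2 ≤ l) (hd : d + 2 = 3 * l) (V : Finset (E d)) (hV : IsCSSimplicial d V)
    (hc : V.card = 6 * l) :
    gv d V l ≤ ∑ j ∈ range (l + 1), ((3 * l).choose j : ℤ) - 2 * l := by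
  have : NeZero l := ⟨by omega⟩
  have : NeZero (d + 2) := ⟨by omega⟩
  obtain ⟨v, r, θ, hrep⟩ := hG d V (by omega) hV (by omega)
  obtain ⟨hdich, hfv⟩ := hF d (d + 2) V v r θ (by omega) hV hrep
  have hcard : 2 * l ≤ (ev (d + 2) r θ l).card := by
    have key : ∀ m : ℕ, m = 3 * l → Cf m r θ → Dich m r θ → 2 * l ≤ (ev m r θ l).card := by
      rintro m rfl h1 h2
      exact hK l r θ h1 h2
    exact key (d + 2) hd hrep.cf hdich
  have key := hB d l (ℕ × Finset ℕ) (ev (d + 2) r θ l) (fun e => e.2.card)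
    (fun k => (fv V k : ℤ)) (by omega) (by omega) (Upp_card (d + 2) r θ l) (by
      intro k hk
      have h0 := hfv k
      have h1 := hC (d + 2) r θ hrep.cf k
      rw [Upp_filter (d + 2) r θ l k hk]
      rw [h1] at h0
      push_cast at h0
      exact h0)
  have e1 : gv d V l = hh d (fun k => (fv V k : ℤ)) l - hh d (fun k => (fv V k : ℤ)) (l - 1) := rfl
  have h4 : ∑ j ∈ range (l + 1), ((d + 2).choose j : ℤ) =
      ∑ j ∈ range (l + 1), ((3 * l).choose j : ℤ) := by rw [hd]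
  rw [e1, key, h4]
  have h3 : (2 : ℤ) * l ≤ ((ev (d + 2) r θ l).card : ℤ) := by exact_mod_cast hcard
  linarith

theorem thm_Upp (hG : St_Gale) (hF : St_Fv) (hC : St_Cnt) (hB : St_Bin) (hK : St_BlkC) :
    St_Upp := by
  intro l hl V hV hc
  exact Upp_aux hG hF hC hB hK l (3 * l - 2) hl (by omega) V hV hc

end Pool.CSG
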