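import Pool.Agent.CSG.St

/-!
# CSG: the window formula for the excess `D`
-/

set_option autoImplicit false

open Finset Real Pool.CS4

namespace Pool.CSG

private theorem Win_w {m : ℕ} {r θ : ℤ → ℝ} (h : Cf m r θ) (j : ℤ) (α : ℝ) :
    w r θ (j + m) α = -w r θ j α := by
  unfold w
  rw [h.rp, h.tp, show θ j + π - α = θ j - α + π by ring, sin_add_pi]
  ring

private theorem Win_cast (m : ℕ) (j : ℤ) :
    ((j + m + m : ℤ) : ZMod (2 * m)) = ((j : ℤ) : ZMod (2 * m)) := by
  have h : ((2 * m : ℕ) : ZMod (2 * m)) = 0 := ZMod.natCast_self _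
  push_cast at h ⊢
  rw [add_assoc, ← two_mul, h, add_zero]

private theorem Win_T {m : ℕ} {r θ : ℤ → ℝ} (h : Cf m r θ) {N : Finset (ZMod (2 * m))}
    (hN : AF m N) (j : ℤ) (α : ℝ) : T m r θ N α (j + m) = T m r θ N α j := by
  unfold T
  rw [Win_cast, Win_w h]
  by_cases h1 : ((j : ℤ) : ZMod (2 * m)) ∈ N
  · have h2 : ((j + m : ℤ) : ZMod (2 * m)) ∉ N := by
      have := hN _ h1
      push_cast
      exact this
    rw [if_neg h2, if_pos h1, if_pos h1, neg_neg]
  · by_cases h2 : ((j + m : ℤ) : ZMod (2 * m)) ∈ N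
    · rw [if_pos h2, if_neg h1, if_pos h2]
    · rw [if_neg h2, if_neg h1, if_neg h1, if_neg h2, abs_neg]

private theorem Win_shift (m : ℕ) (f : ℤ → ℝ) (hf : ∀ j, f (j + m) = f j) (t : ℤ) :
    ∑ s ∈ range m, f (t + s) = ∑ s ∈ range m, f (s : ℤ) := by
  have step : ∀ t : ℤ, ∑ s ∈ range m, f (t + 1 + s) = ∑ s ∈ range m, f (t + s) := by
    intro t
    have h1 := Finset.sum_range_succ (fun s : ℕ => f (t + s)) m
    have h2 := Finset.sum_range_succ' (fun s : ℕ => f (t + s)) m
    have h3 : ∑ s ∈ range m, f (t + 1 + s) = ∑ s ∈ range m, f (t + ((s + 1 : ℕ) : ℤ)) := by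
      refine Finset.sum_congr rfl fun s _ => ?_
      congr 1
      push_cast
      ring
    have h4 := hf t
    simp only [Nat.cast_zero, add_zero] at h2
    rw [h3]
    linarith
  induction t using Int.induction_on with
  | zero => simp
  | succ i ih => rw [step, ih]
  | pred i ih =>
    have h1 := step (-(i : ℤ) - 1)
    rw [sub_add_cancel] at h1
    rw [← h1, ih]

theorem thm_Win : St_Win := by
  intro m _ r θ h N hN t α h1 h2
  have hpos : ∀ s : ℕ, s < m → 0 ≤ w r θ (t + s) α := by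
    intro s hs
    unfold w
    refine mul_nonneg (h.rn _) (sin_nonneg_of_nonneg_of_le_pi ?_ ?_)
    · have : θ t ≤ θ (t + s) := h.mono (by omega)
      linarith
    · have h3 : θ (t + s) ≤ θ (t - 1 + m) := h.mono (by omega)
      rw [h.tp] at h3
      linarith
  refine ⟨hpos, ?_⟩
  have h3 : D m r θ N α = ∑ s ∈ range m, T m r θ N α (t + s) :=
    (Win_shift m (T m r θ N α) (fun j => Win_T h hN j α) t).symm
  rw [h3]
  unfold Xp
  rw [Finset.sum_filter, Finset.mul_sum, ← Finset.sum_sub_distrib]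
  refine Finset.sum_congr rfl fun s hs => ?_
  have h4 := hpos s (mem_range.1 hs)
  unfold T
  by_cases h5 : ((t + s : ℤ) : ZMod (2 * m)) ∈ N
  · rw [if_pos h5, if_pos h5]
    ring
  · rw [if_neg h5, if_neg h5]
    split_ifs
    · ring
    · rw [abs_of_nonneg h4]
      ring

end Pool.CSG
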