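import Pool.Agent.CSG.St

/-! # Zonotope duality in the plane -/

set_option autoImplicit false

open Finset Real Pool.CS4

namespace Pool.CSG

private theorem Zon_sign (x : ℝ) : ∃ c : ℝ, |c| ≤ 1 ∧ c * x = |x| := by
  rcases le_total 0 x with h | h
  · exact ⟨1, by simp, by rw [abs_of_nonneg h, one_mul]⟩
  · exact ⟨-1, by simp, by rw [abs_of_nonpos h]; ring⟩

theorem thm_Zon : St_Zon := by
  intro ι J p q a b h
  set S : Set (ι → ℝ) := Set.pi Set.univ fun _ : ι => Set.Icc (-1 : ℝ) 1 with hS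
  set Φ : (ι → ℝ) → ℝ × ℝ := fun c => (∑ i ∈ J, c i * p i, ∑ i ∈ J, c i * q i) with hΦ
  have hcont : Continuous Φ := by
    refine Continuous.prodMk ?_ ?_
    · exact continuous_finsetSum _ fun i _ => (continuous_apply i).mul continuous_const
    · exact continuous_finsetSum _ fun i _ => (continuous_apply i).mul continuous_const
  have hcomp : IsCompact (Φ '' S) :=
    (isCompact_univ_pi fun _ => isCompact_Icc).image hcont
  have hconv : Convex ℝ (Φ '' S) := by
    rintro _ ⟨c, hc, rfl⟩ _ ⟨c', hc', rfl⟩ s t hs ht hst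
    refine ⟨s • c + t • c', ?_, ?_⟩
    · exact (convex_pi fun _ _ => convex_Icc (-1 : ℝ) 1) hc hc' hs ht hst
    · simp only [hΦ]
      ext
      · simp only [Pi.add_apply, Pi.smul_apply, smul_eq_mul, Prod.fst_add, Prod.smul_fst]
        rw [mul_sum, mul_sum, ← sum_add_distrib]
        exact sum_congr rfl fun i _ => by ring
      · simp only [Pi.add_apply, Pi.smul_apply, smul_eq_mul, Prod.snd_add, Prod.smul_snd]
        rw [mul_sum, mul_sum, ← sum_add_distrib]
        exact sum_congr rfl fun i _ => by ring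
  by_cases hab : (a, b) ∈ Φ '' S
  · obtain ⟨c, hc, hcab⟩ := hab
    refine ⟨c, fun i => ?_, ?_, ?_⟩
    · have := hc i (Set.mem_univ i)
      exact abs_le.2 ⟨this.1, this.2⟩
    · exact congrArg Prod.fst hcab
    · exact congrArg Prod.snd hcab
  · exfalso
    obtain ⟨f, u, hf1, hf2⟩ := geometric_hahn_banach_closed_point hconv hcomp.isClosed hab
    have hf : ∀ x y : ℝ, f (x, y) = x * f (1, 0) + y * f (0, 1) := by
      intro x y
      have e : ((x, y) : ℝ × ℝ) = x • (1, 0) + y • (0, 1) := by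
        ext <;> simp
      rw [e, map_add, map_smul, map_smul, smul_eq_mul, smul_eq_mul]
    set z : ℂ := ⟨f (1, 0), f (0, 1)⟩ with hz
    have hA : f (1, 0) = ‖z‖ * cos z.arg := (Complex.norm_mul_cos_arg z).symm
    have hB : f (0, 1) = ‖z‖ * sin z.arg := (Complex.norm_mul_sin_arg z).symm
    choose g hg1 hg2 using fun i : ι => Zon_sign (p i * f (1, 0) + q i * f (0, 1))
    have hgS : g ∈ S := fun i _ => abs_le.1 (hg1 i)
    have h1 := hf1 (Φ g) ⟨g, hgS, rfl⟩
    have h2 : f (Φ g) = ∑ i ∈ J, |p i * f (1, 0) + q i * f (0, 1)| := by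
      simp only [hΦ]
      rw [hf, sum_mul, sum_mul, ← sum_add_distrib]
      refine sum_congr rfl fun i _ => ?_
      rw [← hg2 i]
      ring
    have h3 : ∑ i ∈ J, |p i * f (1, 0) + q i * f (0, 1)| =
        ‖z‖ * ∑ i ∈ J, |p i * cos z.arg + q i * sin z.arg| := by
      rw [mul_sum]
      refine sum_congr rfl fun i _ => ?_
      rw [hA, hB, ← abs_of_nonneg (norm_nonneg z), ← abs_mul, abs_of_nonneg (norm_nonneg z)]
      congr 1
      ring
    have h4 : f (a, b) = ‖z‖ * (a * cos z.arg + b * sin z.arg) := by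
      rw [hf, hA, hB]
      ring
    have h5 := mul_le_mul_of_nonneg_left (h z.arg) (norm_nonneg z)
    rw [← h4, ← h3, ← h2] at h5
    linarith

end Pool.CSG
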